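import Pool.Agent.Helper78.SG.Defs

/-!
# SG-MV: mean values of Dirichlet polynomials (Hilbert type inequality with a logarithm)

Expand the square. Diagonal: `∫ cos²(t log n) = (b-a)/2 + O(1/(2 log n))`, `n ≥ 2`. Off the diagonal, `m ≠ n`, `m, n ≥ 2`:
`|∫ cos(t log m) cos(t log n)| ≤ 1/|log m - log n| + 1/(log m + log n)` (library `int_cos_cos`), `|log m - log n| ≥ |m-n|/N`,
`2 |c m c n| ≤ c m² + c n²` and `∑_{m ≠ n} 1/|m-n| ≤ 2 (1 + log N)`; `∑_{m,n} |c m c n| ≤ (N+1) ∑ c²`.
Second statement: `|∑ c n e^(-i t log n)|²`, here `c 0 = 0` only (frequencies of `n ≥ 1` are distinct); upper bound only.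
-/

open MeasureTheory Set Filter Topology
open Pool.Agent.Helper57.Zeta Pool.Agent.Helper57.PC Pool.Agent.Helper57.LH
open scoped ContDiff

namespace Pool.Agent.Helper78.SG

private theorem harm34 {N j : ℕ} (hN : 1 ≤ N) (hj : j ≤ N) :
    ∑ k ∈ Finset.range j, 1 / ((k : ℝ) + 1) ≤ 1 + Real.log N := by
  rcases Nat.eq_zero_or_pos j with h0 | h0
  · subst h0
    have := Real.log_nonneg (by exact_mod_cast hN : (1 : ℝ) ≤ N)
    simp; linarith
  · have h1 := harmonic_le_one_add_log j
    have h2 : Real.log j ≤ Real.log N :=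
      Real.log_le_log (by exact_mod_cast h0) (by exact_mod_cast hj)
    have h3 : ((harmonic j : ℚ) : ℝ) = ∑ k ∈ Finset.range j, 1 / ((k : ℝ) + 1) := by
      unfold harmonic; push_cast; simp
    linarith

private theorem hsum34 {N n : ℕ} (hN : 1 ≤ N) (hn : n ≤ N) :
    ∑ m ∈ Finset.range (N + 1), (if m = n then 0 else 1 / |(m : ℝ) - n|) ≤
      2 * (1 + Real.log N) := by
  rw [Finset.range_eq_Ico, ← Finset.sum_Ico_consecutive _ (Nat.zero_le n) (by omega : n ≤ N + 1),
    ← Finset.sum_Ico_consecutive _ (Nat.le_succ n) (by omega : n.succ ≤ N + 1)]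
  have h1 : ∑ m ∈ Finset.Ico 0 n, (if m = n then 0 else 1 / |(m : ℝ) - n|) ≤
      1 + Real.log N := by
    rw [← Finset.range_eq_Ico]
    have : ∑ m ∈ Finset.range n, (if m = n then 0 else 1 / |(m : ℝ) - n|) =
        ∑ k ∈ Finset.range n, 1 / ((k : ℝ) + 1) := by
      rw [← Finset.sum_range_reflect (fun k : ℕ => 1 / ((k : ℝ) + 1)) n]
      refine Finset.sum_congr rfl fun m hm => ?_
      have hm' := Finset.mem_range.1 hm
      rw [if_neg (by omega)]
      have h2 : ((n - 1 - m : ℕ) : ℝ) + 1 = (n : ℝ) - m := by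
        have : n - 1 - m + 1 = n - m := by omega
        have h3 : ((n - 1 - m : ℕ) : ℝ) + 1 = ((n - 1 - m + 1 : ℕ) : ℝ) := by push_cast; ring
        rw [h3, this, Nat.cast_sub hm'.le]
      have h4 : (m : ℝ) < n := by exact_mod_cast hm'
      rw [h2, abs_of_neg (by linarith), neg_sub]
    rw [this]
    exact harm34 hN hn
  have h2 : ∑ m ∈ Finset.Ico n n.succ, (if m = n then (0 : ℝ) else 1 / |(m : ℝ) - n|) = 0 := by
    simp
  have h3 : ∑ m ∈ Finset.Ico n.succ (N + 1), (if m = n then 0 else 1 / |(m : ℝ) - n|) ≤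
      1 + Real.log N := by
    rw [Finset.sum_Ico_eq_sum_range]
    have : ∑ k ∈ Finset.range (N + 1 - n.succ),
        (if n.succ + k = n then 0 else 1 / |((n.succ + k : ℕ) : ℝ) - n|) =
        ∑ k ∈ Finset.range (N + 1 - n.succ), 1 / ((k : ℝ) + 1) := by
      refine Finset.sum_congr rfl fun k _ => ?_
      rw [if_neg (by omega)]
      have : ((n.succ + k : ℕ) : ℝ) - n = (k : ℝ) + 1 := by push_cast; ring
      rw [this, abs_of_pos (by positivity)]
    rw [this]
    exact harm34 hN (by omega)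
  rw [h2]
  linarith

private theorem bil34 {N : ℕ} (hN : 1 ≤ N) (c : ℕ → ℝ) (K : ℕ → ℕ → ℝ) {D E : ℝ} (hD : 0 ≤ D)
    (hE : 0 ≤ E)
    (hK : ∀ m ∈ Finset.range (N + 1), ∀ n ∈ Finset.range (N + 1), m ≠ n → c m ≠ 0 → c n ≠ 0 →
      |K m n| ≤ D / |(m : ℝ) - n| + E) :
    |(∑ m ∈ Finset.range (N + 1), ∑ n ∈ Finset.range (N + 1), c m * c n * K m n) -
        ∑ n ∈ Finset.range (N + 1), c n ^ 2 * K n n| ≤
      (2 * D * (1 + Real.log N) + E * (N + 1)) * ∑ n ∈ Finset.range (N + 1), c n ^ 2 := by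
  set R := Finset.range (N + 1) with hR
  have h1 : (∑ m ∈ R, ∑ n ∈ R, c m * c n * K m n) - ∑ n ∈ R, c n ^ 2 * K n n =
      ∑ m ∈ R, ∑ n ∈ R, (if m = n then 0 else c m * c n * K m n) := by
    rw [← Finset.sum_sub_distrib]
    refine Finset.sum_congr rfl fun m hm => ?_
    have h2 : c m ^ 2 * K m m = ∑ n ∈ R, (if m = n then c m * c n * K m n else 0) := by
      rw [Finset.sum_ite_eq, if_pos hm]; ring
    rw [h2, ← Finset.sum_sub_distrib]
    refine Finset.sum_congr rfl fun n _ => ?_
    split_ifs <;> ring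
  rw [h1]
  set w : ℕ → ℕ → ℝ := fun m n => if m = n then 0 else D / |(m : ℝ) - n| + E with hw
  have hw0 : ∀ m n, 0 ≤ w m n := by
    intro m n
    rw [hw]
    simp only
    split_ifs
    · exact le_rfl
    · positivity
  have hsym : ∀ m n, w m n = w n m := by
    intro m n
    rw [hw]
    simp only
    rw [abs_sub_comm]
    by_cases h : m = n
    · rw [if_pos h, if_pos h.symm]
    · rw [if_neg h, if_neg (Ne.symm h)]
  have hb : ∀ m ∈ R, ∀ n ∈ R, |if m = n then 0 else c m * c n * K m n| ≤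
      (c m ^ 2 * w m n + c n ^ 2 * w m n) / 2 := by
    intro m hm n hn
    by_cases h : m = n
    · rw [if_pos h, abs_zero]
      have := hw0 m n
      positivity
    · rw [if_neg h]
      have hwmn : w m n = D / |(m : ℝ) - n| + E := by rw [hw]; simp only; rw [if_neg h]
      by_cases hc : c m = 0 ∨ c n = 0
      · have h0 : c m * c n * K m n = 0 := by rcases hc with hc | hc <;> rw [hc] <;> ring
        rw [h0, abs_zero]
        have := hw0 m n
        positivity
      · push Not at hc
        have hk := hK m hm n hn h hc.1 hc.2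
        rw [← hwmn] at hk
        rw [abs_mul]
        have h2 : |c m * c n| ≤ (c m ^ 2 + c n ^ 2) / 2 := by
          rw [abs_le]
          constructor
          · nlinarith [sq_nonneg (c m + c n)]
          · nlinarith [sq_nonneg (c m - c n)]
        calc |c m * c n| * |K m n| ≤ (c m ^ 2 + c n ^ 2) / 2 * w m n :=
              mul_le_mul h2 hk (abs_nonneg _) (by positivity)
          _ = _ := by ring
  have h3 : |∑ m ∈ R, ∑ n ∈ R, (if m = n then 0 else c m * c n * K m n)| ≤
      ∑ m ∈ R, ∑ n ∈ R, (c m ^ 2 * w m n + c n ^ 2 * w m n) / 2 := by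
    refine (Finset.abs_sum_le_sum_abs _ _).trans (Finset.sum_le_sum fun m hm => ?_)
    exact (Finset.abs_sum_le_sum_abs _ _).trans (Finset.sum_le_sum fun n hn => hb m hm n hn)
  have h4 : ∑ m ∈ R, ∑ n ∈ R, (c m ^ 2 * w m n + c n ^ 2 * w m n) / 2 =
      ∑ n ∈ R, c n ^ 2 * ∑ m ∈ R, w m n := by
    have e1 : ∑ m ∈ R, ∑ n ∈ R, (c m ^ 2 * w m n + c n ^ 2 * w m n) / 2 =
        (∑ m ∈ R, ∑ n ∈ R, c m ^ 2 * w m n) / 2 + (∑ m ∈ R, ∑ n ∈ R, c n ^ 2 * w m n) / 2 := by
      rw [Finset.sum_div, Finset.sum_div, ← Finset.sum_add_distrib]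
      refine Finset.sum_congr rfl fun m _ => ?_
      rw [Finset.sum_div, Finset.sum_div, ← Finset.sum_add_distrib]
      exact Finset.sum_congr rfl fun n _ => by ring
    have e2 : ∑ m ∈ R, ∑ n ∈ R, c m ^ 2 * w m n = ∑ n ∈ R, c n ^ 2 * ∑ m ∈ R, w m n := by
      refine Finset.sum_congr rfl fun m _ => ?_
      rw [Finset.mul_sum]
      exact Finset.sum_congr rfl fun n _ => by rw [hsym m n]
    have e3 : ∑ m ∈ R, ∑ n ∈ R, c n ^ 2 * w m n = ∑ n ∈ R, c n ^ 2 * ∑ m ∈ R, w m n := by
      rw [Finset.sum_comm]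
      refine Finset.sum_congr rfl fun m _ => ?_
      rw [Finset.mul_sum]
    rw [e1, e2, e3]; ring
  have h5 : ∀ n ∈ R, ∑ m ∈ R, w m n ≤ 2 * D * (1 + Real.log N) + E * (N + 1) := by
    intro n hn
    have hn' : n ≤ N := by
      have := Finset.mem_range.1 hn
      omega
    have e1 : ∀ m ∈ R, w m n ≤ D * (if m = n then 0 else 1 / |(m : ℝ) - n|) + E := by
      intro m _
      rw [hw]
      simp only
      split_ifs
      · simp [hE]
      · rw [mul_one_div]
    refine (Finset.sum_le_sum e1).trans ?_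
    rw [Finset.sum_add_distrib, ← Finset.mul_sum, Finset.sum_const, hR, Finset.card_range,
      nsmul_eq_mul]
    have := mul_le_mul_of_nonneg_left (hsum34 hN hn') hD
    push_cast
    nlinarith
  refine h3.trans ?_
  rw [h4, Finset.mul_sum]
  refine Finset.sum_le_sum fun n hn => ?_
  rw [mul_comm]
  exact mul_le_mul_of_nonneg_right (h5 n hn) (sq_nonneg _)

private theorem intcos34 {c : ℝ} (hc : c ≠ 0) (a b : ℝ) :
    |∫ t in a..b, Real.cos (c * t)| ≤ 2 / |c| := by
  have h1 : ∫ t in a..b, Real.cos (c * t) = (Real.sin (c * b) - Real.sin (c * a)) / c := by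
    rw [intervalIntegral.integral_comp_mul_left (fun t => Real.cos t) hc, integral_cos,
      smul_eq_mul]
    field_simp
  rw [h1, abs_div]
  have h2 : |Real.sin (c * b) - Real.sin (c * a)| ≤ 2 := by
    have := Real.abs_sin_le_one (c * b)
    have := Real.abs_sin_le_one (c * a)
    calc _ ≤ |Real.sin (c * b)| + |Real.sin (c * a)| := abs_sub _ _
      _ ≤ 2 := by linarith
  exact div_le_div_of_nonneg_right h2 (abs_nonneg _)

private theorem logdiff34 {N m n : ℕ} (hm0 : 1 ≤ m) (hn0 : 1 ≤ n) (hm : m ≤ N) (hn : n ≤ N)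
    (hmn : m ≠ n) : |(m : ℝ) - n| / N ≤ |Real.log m - Real.log n| := by
  wlog h : n < m generalizing m n
  · rw [abs_sub_comm, abs_sub_comm (Real.log m)]
    exact this hn0 hm0 hn hm hmn.symm (lt_of_le_of_ne (not_lt.1 h) hmn)
  have hnR : (0 : ℝ) < n := by exact_mod_cast hn0
  have hmR : (0 : ℝ) < m := by exact_mod_cast hm0
  have hmN : (m : ℝ) ≤ N := by exact_mod_cast hm
  have hlt : (n : ℝ) < m := by exact_mod_cast h
  have h1 := Real.one_sub_inv_le_log_of_pos (show (0 : ℝ) < m / n by positivity)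
  rw [Real.log_div hmR.ne' hnR.ne', inv_div] at h1
  have h2 : |(m : ℝ) - n| / N ≤ (m - n) / m := by
    rw [abs_of_pos (by linarith)]
    exact div_le_div_of_nonneg_left (by linarith) hmR hmN
  have h3 : ((m : ℝ) - n) / m = 1 - n / m := by field_simp
  rw [h3] at h2
  exact h2.trans (h1.trans (le_abs_self _))

private theorem logdiff34' {N m n : ℕ} (hN : 1 ≤ N) (hm0 : 1 ≤ m) (hn0 : 1 ≤ n) (hm : m ≤ N)
    (hn : n ≤ N) (hmn : m ≠ n) :
    Real.log m - Real.log n ≠ 0 ∧ 2 / |Real.log m - Real.log n| ≤ 2 * N / |(m : ℝ) - n| := by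
  have h1 := logdiff34 hm0 hn0 hm hn hmn
  have hNR : (0 : ℝ) < N := by exact_mod_cast hN
  have hd : 0 < |(m : ℝ) - n| := by
    rw [abs_pos, sub_ne_zero]
    exact_mod_cast hmn
  have h2 : 0 < |(m : ℝ) - n| / N := div_pos hd hNR
  refine ⟨?_, ?_⟩
  · intro h0
    rw [h0, abs_zero] at h1
    linarith
  · calc 2 / |Real.log m - Real.log n| ≤ 2 / (|(m : ℝ) - n| / N) :=
          div_le_div_of_nonneg_left (by norm_num) h2 h1
      _ = _ := by rw [div_div_eq_mul_div]

theorem mv_real {N : ℕ} (hN : 1 ≤ N) (c : ℕ → ℝ) (h0 : c 0 = 0) (h1 : c 1 = 0) {a b : ℝ} (hab : a ≤ b) :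
    |(∫ t in a..b, (∑ n ∈ Finset.range (N + 1), c n * Real.cos (Real.log n * t)) ^ 2) -
        (b - a) / 2 * ∑ n ∈ Finset.range (N + 1), c n ^ 2| ≤
      20 * N * (1 + Real.log N) * ∑ n ∈ Finset.range (N + 1), c n ^ 2 := by
  set K : ℕ → ℕ → ℝ := fun m n => ∫ t in a..b, Real.cos (Real.log m * t) * Real.cos (Real.log n * t)
    with hKdef
  have hNR : (1 : ℝ) ≤ N := by exact_mod_cast hN
  have hlogN : 0 ≤ Real.log N := Real.log_nonneg hNR
  have e1 : (∫ t in a..b, (∑ n ∈ Finset.range (N + 1), c n * Real.cos (Real.log n * t)) ^ 2) =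
      ∑ m ∈ Finset.range (N + 1), ∑ n ∈ Finset.range (N + 1), c m * c n * K m n := by
    have e : ∀ t : ℝ, (∑ n ∈ Finset.range (N + 1), c n * Real.cos (Real.log n * t)) ^ 2 =
        ∑ m ∈ Finset.range (N + 1), ∑ n ∈ Finset.range (N + 1),
          c m * c n * (Real.cos (Real.log m * t) * Real.cos (Real.log n * t)) := by
      intro t
      rw [pow_two, Finset.sum_mul_sum]
      refine Finset.sum_congr rfl fun m _ => Finset.sum_congr rfl fun n _ => by ring
    simp_rw [e]
    rw [intervalIntegral.integral_finsetSum]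
    · refine Finset.sum_congr rfl fun m _ => ?_
      rw [intervalIntegral.integral_finsetSum]
      · refine Finset.sum_congr rfl fun n _ => ?_
        rw [intervalIntegral.integral_const_mul]
      · intro n _
        apply Continuous.intervalIntegrable
        fun_prop
    · intro m _
      apply Continuous.intervalIntegrable
      fun_prop
  have hge2 : ∀ n : ℕ, c n ≠ 0 → 2 ≤ n := by
    intro n hn
    by_contra hc
    have : n = 0 ∨ n = 1 := by omega
    rcases this with h | h
    · exact hn (by rw [h]; exact h0)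
    · exact hn (by rw [h]; exact h1)
  have hlog2 := Real.log_two_gt_d9
  have hlogn : ∀ n : ℕ, 2 ≤ n → 1 / 2 ≤ Real.log n := by
    intro n hn
    have : Real.log 2 ≤ Real.log n := Real.log_le_log (by norm_num) (by exact_mod_cast hn)
    linarith
  have hK : ∀ m ∈ Finset.range (N + 1), ∀ n ∈ Finset.range (N + 1), m ≠ n → c m ≠ 0 → c n ≠ 0 →
      |K m n| ≤ (N : ℝ) / |(m : ℝ) - n| + 1 := by
    intro m hm n hn hmn hcm hcn
    have hm2 := hge2 m hcm
    have hn2 := hge2 n hcn
    have hmN : m ≤ N := by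
      have := Finset.mem_range.1 hm
      omega
    have hnN : n ≤ N := by
      have := Finset.mem_range.1 hn
      omega
    obtain ⟨hne, hle⟩ := logdiff34' hN (by omega) (by omega) hmN hnN hmn
    have hsum : 1 ≤ Real.log m + Real.log n := by
      have := hlogn m hm2
      have := hlogn n hn2
      linarith
    have e : ∀ t : ℝ, Real.cos (Real.log m * t) * Real.cos (Real.log n * t) =
        (1 / 2) * Real.cos ((Real.log m - Real.log n) * t) +
        (1 / 2) * Real.cos ((Real.log m + Real.log n) * t) := by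
      intro t
      rw [sub_mul, add_mul, Real.cos_sub, Real.cos_add]
      ring
    rw [hKdef]
    simp only
    simp_rw [e]
    rw [intervalIntegral.integral_add (by apply Continuous.intervalIntegrable; fun_prop)
      (by apply Continuous.intervalIntegrable; fun_prop),
      intervalIntegral.integral_const_mul, intervalIntegral.integral_const_mul]
    have i1 := intcos34 hne a b
    have i2 := intcos34 (show Real.log m + Real.log n ≠ 0 by linarith) a b
    rw [abs_of_pos (by linarith : (0 : ℝ) < Real.log m + Real.log n)] at i2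
    have i3 : 2 / (Real.log m + Real.log n) ≤ 2 := by
      rw [div_le_iff₀ (by linarith)]; linarith
    refine (abs_add_le _ _).trans ?_
    rw [abs_mul, abs_mul, abs_of_pos (by norm_num : (0 : ℝ) < 1 / 2)]
    have i4 : 2 * (N : ℝ) / |(m : ℝ) - n| = 2 * (N / |(m : ℝ) - n|) := by ring
    rw [i4] at hle
    linarith
  have hmain := bil34 hN c K (by linarith : (0 : ℝ) ≤ N) zero_le_one hK
  have hdiag : |∑ n ∈ Finset.range (N + 1), c n ^ 2 * K n n -
      (b - a) / 2 * ∑ n ∈ Finset.range (N + 1), c n ^ 2| ≤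
      1 * ∑ n ∈ Finset.range (N + 1), c n ^ 2 := by
    rw [Finset.mul_sum, ← Finset.sum_sub_distrib, Finset.mul_sum]
    refine (Finset.abs_sum_le_sum_abs _ _).trans (Finset.sum_le_sum fun n _ => ?_)
    by_cases hcn : c n = 0
    · rw [hcn]; simp
    · have hn2 := hge2 n hcn
      have hln := hlogn n hn2
      have e : ∀ t : ℝ, Real.cos (Real.log n * t) * Real.cos (Real.log n * t) =
          1 / 2 + (1 / 2) * Real.cos ((2 * Real.log n) * t) := by
        intro t
        rw [show (2 * Real.log n) * t = 2 * (Real.log n * t) by ring, Real.cos_two_mul]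
        ring
      have e2 : K n n = (b - a) / 2 + 1 / 2 * ∫ t in a..b, Real.cos ((2 * Real.log n) * t) := by
        rw [hKdef]
        simp only
        simp_rw [e]
        rw [intervalIntegral.integral_add (by simp)
          (by apply Continuous.intervalIntegrable; fun_prop),
          intervalIntegral.integral_const_mul, intervalIntegral.integral_const, smul_eq_mul]
        ring
      have i2 := intcos34 (show 2 * Real.log n ≠ 0 by linarith) a b
      rw [abs_of_pos (by linarith : (0 : ℝ) < 2 * Real.log n)] at i2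
      have i3 : 2 / (2 * Real.log n) ≤ 2 := by
        rw [div_le_iff₀ (by linarith)]; linarith
      have e3 : c n ^ 2 * K n n - (b - a) / 2 * c n ^ 2 =
          c n ^ 2 * (1 / 2 * ∫ t in a..b, Real.cos ((2 * Real.log n) * t)) := by
        rw [e2]; ring
      rw [e3, abs_mul, abs_mul, abs_of_nonneg (sq_nonneg (c n)),
        abs_of_pos (by norm_num : (0 : ℝ) < 1 / 2), mul_comm 1]
      refine mul_le_mul_of_nonneg_left ?_ (sq_nonneg _)
      linarith
  rw [e1]
  have hS : 0 ≤ ∑ n ∈ Finset.range (N + 1), c n ^ 2 := Finset.sum_nonneg fun n _ => sq_nonneg _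
  set S := ∑ n ∈ Finset.range (N + 1), c n ^ 2 with hSdef
  have h3 : (2 * (N : ℝ) * (1 + Real.log N) + 1 * (N + 1)) * S + 1 * S ≤
      20 * N * (1 + Real.log N) * S := by
    rw [← add_mul]
    refine mul_le_mul_of_nonneg_right ?_ hS
    nlinarith
  have h4 := abs_sub_le (∑ m ∈ Finset.range (N + 1), ∑ n ∈ Finset.range (N + 1), c m * c n * K m n)
    (∑ n ∈ Finset.range (N + 1), c n ^ 2 * K n n) ((b - a) / 2 * S)
  linarith

theorem mv_cplx {N : ℕ} (hN : 1 ≤ N) (c : ℕ → ℝ) (h0 : c 0 = 0) {a b : ℝ} (hab : a ≤ b) :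
    ∫ t in a..b, ((∑ n ∈ Finset.range (N + 1), c n * Real.cos (Real.log n * t)) ^ 2 +
        (∑ n ∈ Finset.range (N + 1), c n * Real.sin (Real.log n * t)) ^ 2) ≤
      (b - a + 20 * N * (1 + Real.log N)) * ∑ n ∈ Finset.range (N + 1), c n ^ 2 := by
  set K : ℕ → ℕ → ℝ := fun m n => ∫ t in a..b, Real.cos ((Real.log m - Real.log n) * t)
    with hKdef
  have hNR : (1 : ℝ) ≤ N := by exact_mod_cast hN
  have hlogN : 0 ≤ Real.log N := Real.log_nonneg hNR
  have e1 : (∫ t in a..b, ((∑ n ∈ Finset.range (N + 1), c n * Real.cos (Real.log n * t)) ^ 2 +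
        (∑ n ∈ Finset.range (N + 1), c n * Real.sin (Real.log n * t)) ^ 2)) =
      ∑ m ∈ Finset.range (N + 1), ∑ n ∈ Finset.range (N + 1), c m * c n * K m n := by
    have e : ∀ t : ℝ, (∑ n ∈ Finset.range (N + 1), c n * Real.cos (Real.log n * t)) ^ 2 +
        (∑ n ∈ Finset.range (N + 1), c n * Real.sin (Real.log n * t)) ^ 2 =
        ∑ m ∈ Finset.range (N + 1), ∑ n ∈ Finset.range (N + 1),
          c m * c n * Real.cos ((Real.log m - Real.log n) * t) := by
      intro t
      rw [pow_two, pow_two, Finset.sum_mul_sum, Finset.sum_mul_sum, ← Finset.sum_add_distrib]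
      refine Finset.sum_congr rfl fun m _ => ?_
      rw [← Finset.sum_add_distrib]
      refine Finset.sum_congr rfl fun n _ => ?_
      rw [sub_mul, Real.cos_sub]
      ring
    simp_rw [e]
    rw [intervalIntegral.integral_finsetSum]
    · refine Finset.sum_congr rfl fun m _ => ?_
      rw [intervalIntegral.integral_finsetSum]
      · refine Finset.sum_congr rfl fun n _ => ?_
        rw [intervalIntegral.integral_const_mul]
      · intro n _
        apply Continuous.intervalIntegrable
        fun_prop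
    · intro m _
      apply Continuous.intervalIntegrable
      fun_prop
  have hge1 : ∀ n : ℕ, c n ≠ 0 → 1 ≤ n := by
    intro n hn
    by_contra hc
    have : n = 0 := by omega
    exact hn (by rw [this]; exact h0)
  have hK : ∀ m ∈ Finset.range (N + 1), ∀ n ∈ Finset.range (N + 1), m ≠ n → c m ≠ 0 → c n ≠ 0 →
      |K m n| ≤ (2 * N : ℝ) / |(m : ℝ) - n| + 0 := by
    intro m hm n hn hmn hcm hcn
    have hmN : m ≤ N := by
      have := Finset.mem_range.1 hm
      omega
    have hnN : n ≤ N := by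
      have := Finset.mem_range.1 hn
      omega
    obtain ⟨hne, hle⟩ := logdiff34' hN (hge1 m hcm) (hge1 n hcn) hmN hnN hmn
    rw [add_zero]
    exact (intcos34 hne a b).trans hle
  have hmain := bil34 hN c K (by linarith : (0 : ℝ) ≤ 2 * N) le_rfl hK
  have hdiag : ∑ n ∈ Finset.range (N + 1), c n ^ 2 * K n n =
      (b - a) * ∑ n ∈ Finset.range (N + 1), c n ^ 2 := by
    rw [Finset.mul_sum]
    refine Finset.sum_congr rfl fun n _ => ?_
    have : K n n = b - a := by
      rw [hKdef]
      simp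
    rw [this]; ring
  rw [e1]
  rw [hdiag] at hmain
  have hS : 0 ≤ ∑ n ∈ Finset.range (N + 1), c n ^ 2 := Finset.sum_nonneg fun n _ => sq_nonneg _
  set S := ∑ n ∈ Finset.range (N + 1), c n ^ 2 with hSdef
  have h3 : (2 * (2 * N : ℝ) * (1 + Real.log N) + 0 * (N + 1)) * S ≤
      20 * N * (1 + Real.log N) * S := by
    refine mul_le_mul_of_nonneg_right ?_ hS
    nlinarith
  have h4 := (abs_le.1 hmain).2
  rw [add_mul]
  linarith

end Pool.Agent.Helper78.SG
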