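import Pool.Agent.Helper78.SG.Defs

/-!
# SG-DI: the diagonal of the prime sum

`co h L n ^ 2/2 = (2/L²) (Λ n²/n) h(log n/L)²`. Replace `Λ n²/n` by `(Λ n/n) log n`: the difference is `≤ L (aN n/n)` in absolute value
(`aN`, `nonprime_sum`, see the proof of `Pool.Agent.Helper57.UB.PT_close`, H.lean line 1900 ff.), total `O(1/L)`. Then
`Pool.Agent.Helper57.UB.psum_gen` with `X = L/2` and the function `y ↦ y h(y/L)²` (derivative bounded by a constant independent of `L`
on `[0, L/2]`): the sum is `∫_0^{L/2} y h(y/L)² dy + O(L) = L² ∫_0^{1/2} z h(z)² dz + O(L)`.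
-/

open MeasureTheory Set Filter Topology
open Pool.Agent.Helper57.Zeta Pool.Agent.Helper57.PC Pool.Agent.Helper57.LH
open scoped ContDiff

namespace Pool.Agent.Helper78.SG

open Pool.Agent.Helper57.LS Pool.Agent.Helper57.UB in
open scoped ArithmeticFunction in
theorem diag_bound (f : TF) : ∃ C : ℝ, ∀ L : ℝ, 1 ≤ L →
    ‖(∑ n ∈ Finset.range (NX (L / 2) + 1), co f.h L n ^ 2 / 2) -
      2 * ∫ y in (0:ℝ)..(1 / 2), y * f.h y ^ 2‖ ≤ C / L := by
  have hsm1 : Continuous (deriv f.h) := f.smooth.continuous_deriv (by norm_cast)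
  obtain ⟨M, hM⟩ := (isCompact_Icc (a := (0:ℝ)) (b := 1 / 2)).exists_bound_of_continuousOn
    (f.smooth.continuous.continuousOn)
  obtain ⟨M', hM'⟩ := (isCompact_Icc (a := (0:ℝ)) (b := 1 / 2)).exists_bound_of_continuousOn
    (hsm1.continuousOn)
  have hM0 : 0 ≤ M := (norm_nonneg _).trans (hM 0 ⟨le_rfl, by norm_num⟩)
  have hM0' : 0 ≤ M' := (norm_nonneg _).trans (hM' 0 ⟨le_rfl, by norm_num⟩)
  have hhalf : f.h (1 / 2) = 0 := f.supp _ (by rw [abs_of_pos (by norm_num)]; exact f.th1.le)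
  refine ⟨M ^ 2 * CNP + CMe * (M ^ 2 + M * M'), fun L hL => ?_⟩
  have hL0 : 0 < L := by linarith
  have hX : 0 < L / 2 := by positivity
  have hCM := CMe_pos
  set K : ℝ := M ^ 2 + M * M' with hK
  have hrange : ∀ y : ℝ, 0 ≤ y → y ≤ L / 2 → y / L ∈ Icc (0:ℝ) (1 / 2) := by
    intro y h0 h1
    refine ⟨by positivity, ?_⟩
    rw [div_le_iff₀ hL0]; linarith
  have hder : ∀ y : ℝ, HasDerivAt (fun y => y * f.h (y / L) ^ 2)
      (f.h (y / L) ^ 2 + y * (2 * f.h (y / L) * (deriv f.h (y / L) / L))) y := by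
    intro y
    have h1 : HasDerivAt (fun y : ℝ => y / L) (1 / L) y := (hasDerivAt_id y).div_const L
    have h2 : HasDerivAt f.h (deriv f.h (y / L)) (y / L) :=
      ((f.smooth.differentiable (by simp)) _).hasDerivAt
    have h3 : HasDerivAt (fun y : ℝ => f.h (y / L)) (deriv f.h (y / L) * (1 / L)) y :=
      HasDerivAt.comp y h2 h1
    have h4 := (hasDerivAt_id y).mul (h3.pow 2)
    refine (h4.congr_deriv ?_).congr_of_eventuallyEq (Eventually.of_forall fun x => ?_)
    · simp only [id, Pi.pow_apply]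
      push_cast
      ring
    · simp
  have hcont : Continuous (fun y => f.h (y / L) ^ 2 +
      y * (2 * f.h (y / L) * (deriv f.h (y / L) / L))) := by
    have h1 := f.smooth.continuous
    fun_prop
  have hKb : ∀ y, 0 ≤ y → y ≤ L / 2 →
      |f.h (y / L) ^ 2 + y * (2 * f.h (y / L) * (deriv f.h (y / L) / L))| ≤ K := by
    intro y h0 h1
    have a1 : |f.h (y / L)| ≤ M := hM _ (hrange y h0 h1)
    have a2 : |deriv f.h (y / L)| ≤ M' := hM' _ (hrange y h0 h1)
    have a3 : 0 ≤ y / L := (hrange y h0 h1).1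
    have a4 : y / L ≤ 1 / 2 := (hrange y h0 h1).2
    have e1 : y * (2 * f.h (y / L) * (deriv f.h (y / L) / L)) =
        2 * (y / L) * (f.h (y / L) * deriv f.h (y / L)) := by
      field_simp
    rw [e1]
    refine (abs_add_le _ _).trans ?_
    have b1 : |f.h (y / L) ^ 2| ≤ M ^ 2 := by
      rw [abs_pow]
      exact pow_le_pow_left₀ (abs_nonneg _) a1 2
    have b2 : |2 * (y / L) * (f.h (y / L) * deriv f.h (y / L))| ≤ 1 * (M * M') := by
      rw [abs_mul, abs_mul (f.h _)]
      refine mul_le_mul ?_ (mul_le_mul a1 a2 (abs_nonneg _) hM0) (by positivity) (by norm_num)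
      rw [abs_of_nonneg (by positivity)]
      linarith
    rw [hK]; linarith
  have h1 := psum_gen hX hder hcont (by simp) hKb
  have hend : L / 2 * f.h (L / 2 / L) ^ 2 = 0 := by
    have : L / 2 / L = 1 / 2 := by field_simp
    rw [this, hhalf]; simp
  rw [hend, abs_zero, zero_add] at h1
  have hint : ∫ y in (0:ℝ)..(L / 2), y * f.h (y / L) ^ 2 =
      L ^ 2 * ∫ y in (0:ℝ)..(1 / 2), y * f.h y ^ 2 := by
    have h := intervalIntegral.integral_comp_mul_left (a := 0) (b := 1 / 2)
      (fun y => y * f.h (y / L) ^ 2) hL0.ne'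
    rw [mul_zero, smul_eq_mul, show L * (1 / 2) = L / 2 by ring] at h
    have h2 : ∫ y in (0:ℝ)..(L / 2), y * f.h (y / L) ^ 2 =
        L * ∫ y in (0:ℝ)..(1 / 2), (L * y) * f.h (L * y / L) ^ 2 := by
      rw [h, ← mul_assoc, mul_inv_cancel₀ hL0.ne', one_mul]
    rw [h2, ← intervalIntegral.integral_const_mul, ← intervalIntegral.integral_const_mul]
    apply intervalIntegral.integral_congr
    intro t _
    simp only
    rw [show L * t / L = t by field_simp]
    ring
  rw [hint] at h1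
  set A := ∑ n ∈ Finset.range (NX (L / 2) + 1), Λ n ^ 2 / n * f.h (Real.log n / L) ^ 2 with hA
  set B := ∑ n ∈ Finset.range (NX (L / 2) + 1),
    (Λ n / n) * (Real.log n * f.h (Real.log n / L) ^ 2) with hB
  set J := ∫ y in (0:ℝ)..(1 / 2), y * f.h y ^ 2 with hJ
  have h2 : |A - B| ≤ L / 2 * M ^ 2 * CNP := by
    rw [hA, hB, ← Finset.sum_sub_distrib]
    refine (Finset.abs_sum_le_sum_abs _ _).trans ?_
    have h3 : ∀ n ∈ Finset.range (NX (L / 2) + 1),
        |Λ n ^ 2 / n * f.h (Real.log n / L) ^ 2 -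
          (Λ n / n) * (Real.log n * f.h (Real.log n / L) ^ 2)| ≤ L / 2 * M ^ 2 * (aN n / n) := by
      intro n hn
      rw [Finset.mem_range] at hn
      rcases Nat.eq_zero_or_pos n with rfl | hn0
      · simp
      have hn0' : (0:ℝ) < n := by exact_mod_cast hn0
      have h4 : (n:ℝ) ≤ Real.exp (L / 2) :=
        (Nat.le_floor_iff (Real.exp_pos _).le).mp (by unfold NX at hn; omega)
      have h5 : Real.log n ≤ L / 2 := by rwa [Real.log_le_iff_le_exp hn0']
      have h50 : 0 ≤ Real.log n := Real.log_natCast_nonneg n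
      have e2 : Λ n ^ 2 / n * f.h (Real.log n / L) ^ 2 -
          (Λ n / n) * (Real.log n * f.h (Real.log n / L) ^ 2) =
            (Λ n * (Λ n - Real.log n) / n) * f.h (Real.log n / L) ^ 2 := by ring
      rw [e2, abs_mul]
      have h6 : |Λ n * (Λ n - Real.log n) / n| ≤ L / 2 * (aN n / n) := by
        unfold aN
        split_ifs with hp
        · rw [ArithmeticFunction.vonMangoldt_apply_prime hp, sub_self]; simp
        · have h9 := @ArithmeticFunction.vonMangoldt_nonneg n
          have h10 := @ArithmeticFunction.vonMangoldt_le_log n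
          rw [abs_div, abs_mul, abs_of_nonneg h9, abs_of_nonpos (by linarith only [h10]),
            abs_of_pos hn0']
          calc Λ n * -(Λ n - Real.log n) / n ≤ Λ n * (L / 2) / n := by
                gcongr
                linarith only [h5, h9]
            _ = _ := by ring
      have h7 : |f.h (Real.log n / L) ^ 2| ≤ M ^ 2 := by
        rw [abs_pow]
        exact pow_le_pow_left₀ (abs_nonneg _) (hM _ (hrange _ h50 h5)) 2
      have h8 : 0 ≤ L / 2 * (aN n / n) := by
        have := aN_nonneg n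
        positivity
      calc _ ≤ L / 2 * (aN n / n) * M ^ 2 :=
            mul_le_mul h6 h7 (abs_nonneg _) h8
        _ = _ := by ring
    refine (Finset.sum_le_sum h3).trans ?_
    rw [← Finset.mul_sum]
    exact mul_le_mul_of_nonneg_left (nonprime_sum (NX (L / 2))) (by positivity)
  have hsum : ∑ n ∈ Finset.range (NX (L / 2) + 1), co f.h L n ^ 2 / 2 = 2 / L ^ 2 * A := by
    rw [hA, Finset.mul_sum]
    refine Finset.sum_congr rfl fun n _ => ?_
    unfold co
    rw [mul_pow, mul_pow, div_pow, div_pow, Real.sq_sqrt (Nat.cast_nonneg n)]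
    ring
  rw [hsum, Real.norm_eq_abs]
  have e : 2 / L ^ 2 * A - 2 * J = 2 / L ^ 2 * ((A - B) + (B - L ^ 2 * J)) := by
    field_simp
    ring
  rw [e, abs_mul, abs_of_pos (by positivity)]
  have h10 : |(A - B) + (B - L ^ 2 * J)| ≤ L / 2 * M ^ 2 * CNP + CMe * (K * (L / 2)) :=
    (abs_add_le _ _).trans (add_le_add h2 h1)
  calc 2 / L ^ 2 * |(A - B) + (B - L ^ 2 * J)|
      ≤ 2 / L ^ 2 * (L / 2 * M ^ 2 * CNP + CMe * (K * (L / 2))) :=
        mul_le_mul_of_nonneg_left h10 (by positivity)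
    _ = _ := by
        field_simp

theorem diag_asym (f : TF) :
    Tendsto (fun L : ℝ => ∑ n ∈ Finset.range (NX (L / 2) + 1), co f.h L n ^ 2 / 2) atTop
      (𝓝 (2 * ∫ y in (0:ℝ)..(1 / 2), y * f.h y ^ 2)) := by
  obtain ⟨C, hC⟩ := diag_bound f
  rw [tendsto_iff_norm_sub_tendsto_zero]
  refine squeeze_zero' (Eventually.of_forall fun _ => norm_nonneg _)
    (Filter.eventually_atTop.2 ⟨1, fun L hL => hC L hL⟩) ?_
  exact tendsto_const_nhds.div_atTop tendsto_id

end Pool.Agent.Helper78.SG
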