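import Pool.Agent.Helper78.SG.MV

/-!
# SG-F4: fourth moment of the prime sum

`co f.h L n = 0` unless `n ≤ N₁ := NX (f.th * L)`, i.e. `n ≤ T^th` (support of `h`). Let `Q(t) = ∑ co n e^(-i t log n)`, `prs = Re Q`, so
`prs⁴ ≤ |Q²|²`, `Q² = ∑_{k ≤ N₁²} c k e^(-i t log k)`, `c k = ∑_{mn=k} co m co n` (use `Finset.range`/`Nat.divisors` or sums over pairs).
`mv_cplx` with `N = N₁²`: `∫_0^T |Q²|² ≤ (T + 20 N (1 + log N)) ∑ c k²`, `N ≤ T^(2 th)`, `2 th < 1`, so the factor is `≤ 2T` eventually.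
`∑ c k² ≤ C`: `|c k| ≤ (4 M²/(L² √k)) ∑_{mn=k} Λ m Λ n`, `M = sup |h|`, and `∑_{mn=k} Λ m Λ n ≤ (log k) ∑_{m | k} Λ m = (log k)²`
(`Λ ≤ log`, `vonMangoldt_sum`), `log k ≤ L`, so `c k² ≤ (16 M⁴/L⁴)(1/k) (log k)² ∑_{mn=k} Λ m Λ n` and
`∑_k c k² ≤ (16 M⁴/L²) (∑_{m ≤ N₁} Λ m/m)² ≤ (16 M⁴/L²)(C L)²` (`sum_vM` or `mertens`).
-/

open MeasureTheory Set Filter Topology
open Pool.Agent.Helper57.Zeta Pool.Agent.Helper57.PC Pool.Agent.Helper57.LH
open scoped ContDiff

namespace Pool.Agent.Helper78.SG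

namespace Four

open ArithmeticFunction in
theorem V_le (k : ℕ) (S : Finset ℕ) :
    ∑ p ∈ (S ×ˢ S).filter (fun p => p.1 * p.2 = k), vonMangoldt p.1 * vonMangoldt p.2
      ≤ Real.log k ^ 2 := by
  rcases Nat.eq_zero_or_pos k with rfl | hk
  · have : ∀ p ∈ (S ×ˢ S).filter (fun p => p.1 * p.2 = 0),
        vonMangoldt p.1 * vonMangoldt p.2 = 0 := by
      intro p hp
      rw [Finset.mem_filter] at hp
      rcases Nat.mul_eq_zero.1 hp.2 with h | h
      · rw [h, ArithmeticFunction.map_zero, zero_mul]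
      · rw [h, ArithmeticFunction.map_zero, mul_zero]
    rw [Finset.sum_eq_zero this]
    positivity
  · have h1 : ∑ p ∈ (S ×ˢ S).filter (fun p => p.1 * p.2 = k), vonMangoldt p.1 * vonMangoldt p.2
        ≤ ∑ p ∈ k.divisorsAntidiagonal, vonMangoldt p.1 * vonMangoldt p.2 := by
      refine Finset.sum_le_sum_of_subset_of_nonneg ?_ ?_
      · intro p hp
        rw [Finset.mem_filter] at hp
        rw [Nat.mem_divisorsAntidiagonal]
        exact ⟨hp.2, hk.ne'⟩
      · intro p _ _
        exact mul_nonneg vonMangoldt_nonneg vonMangoldt_nonneg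
    have h2 : ∑ p ∈ k.divisorsAntidiagonal, vonMangoldt p.1 * vonMangoldt p.2 ≤
        ∑ p ∈ k.divisorsAntidiagonal, vonMangoldt p.1 * Real.log k := by
      refine Finset.sum_le_sum fun p hp => ?_
      rw [Nat.mem_divisorsAntidiagonal] at hp
      refine mul_le_mul_of_nonneg_left ?_ vonMangoldt_nonneg
      refine vonMangoldt_le_log.trans ?_
      have hp2 : 0 < p.2 := Nat.pos_of_ne_zero fun h => by rw [h, mul_zero] at hp; exact hp.2 hp.1.symm
      have hp1 : 0 < p.1 := Nat.pos_of_ne_zero fun h => by rw [h, zero_mul] at hp; exact hp.2 hp.1.symm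
      refine Real.log_le_log (by exact_mod_cast hp2) ?_
      have : p.2 ≤ k := by
        rw [← hp.1]; exact Nat.le_mul_of_pos_left _ hp1
      exact_mod_cast this
    refine h1.trans (h2.trans (le_of_eq ?_))
    rw [← Finset.sum_mul, Nat.sum_divisorsAntidiagonal (fun i _ => vonMangoldt i), vonMangoldt_sum, pow_two]

/-- coefficients of the square of a Dirichlet polynomial -/
noncomputable def cc (a : ℕ → ℝ) (N : ℕ) (k : ℕ) : ℝ :=
  ∑ p ∈ (Finset.range (N + 1) ×ˢ Finset.range (N + 1)).filter (fun p => p.1 * p.2 = k), a p.1 * a p.2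

theorem maps (N : ℕ) : ∀ p ∈ Finset.range (N + 1) ×ˢ Finset.range (N + 1),
    p.1 * p.2 ∈ Finset.range (N * N + 1) := by
  intro p hp
  rw [Finset.mem_product, Finset.mem_range, Finset.mem_range] at hp
  rw [Finset.mem_range]
  have := Nat.mul_le_mul (Nat.lt_succ_iff.1 hp.1) (Nat.lt_succ_iff.1 hp.2)
  omega

theorem cc_sum (a : ℕ → ℝ) (N : ℕ) (g : ℕ → ℝ) :
    ∑ k ∈ Finset.range (N * N + 1), cc a N k * g k =
      ∑ p ∈ Finset.range (N + 1) ×ˢ Finset.range (N + 1), a p.1 * a p.2 * g (p.1 * p.2) := by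
  rw [← Finset.sum_fiberwise_of_maps_to (maps N)]
  refine Finset.sum_congr rfl fun k _ => ?_
  unfold cc
  rw [Finset.sum_mul]
  refine Finset.sum_congr rfl fun p hp => ?_
  rw [(Finset.mem_filter.1 hp).2]

theorem cc_zero (a : ℕ → ℝ) (N : ℕ) (h0 : a 0 = 0) : cc a N 0 = 0 := by
  unfold cc
  refine Finset.sum_eq_zero fun p hp => ?_
  rw [Finset.mem_filter] at hp
  rcases Nat.mul_eq_zero.1 hp.2 with h | h
  · rw [h, h0, zero_mul]
  · rw [h, h0, mul_zero]

theorem cos_side (a : ℕ → ℝ) (N : ℕ) (h0 : a 0 = 0) (t : ℝ) :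
    ∑ k ∈ Finset.range (N * N + 1), cc a N k * Real.cos (Real.log k * t) =
      (∑ n ∈ Finset.range (N + 1), a n * Real.cos (Real.log n * t)) ^ 2 -
      (∑ n ∈ Finset.range (N + 1), a n * Real.sin (Real.log n * t)) ^ 2 := by
  rw [cc_sum a N (fun k => Real.cos (Real.log k * t)), pow_two, pow_two, Finset.sum_mul_sum,
    Finset.sum_mul_sum, ← Finset.sum_product', ← Finset.sum_product', ← Finset.sum_sub_distrib]
  refine Finset.sum_congr rfl fun p _ => ?_
  rcases Nat.eq_zero_or_pos p.1 with h | h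
  · rw [h, h0]; ring
  rcases Nat.eq_zero_or_pos p.2 with h' | h'
  · rw [h', h0]; ring
  have e : Real.log ((p.1 * p.2 : ℕ) : ℝ) * t = Real.log p.1 * t + Real.log p.2 * t := by
    push_cast
    rw [Real.log_mul (by positivity) (by positivity)]; ring
  simp only [e, Real.cos_add]
  ring

theorem sin_side (a : ℕ → ℝ) (N : ℕ) (h0 : a 0 = 0) (t : ℝ) :
    ∑ k ∈ Finset.range (N * N + 1), cc a N k * Real.sin (Real.log k * t) =
      2 * ((∑ n ∈ Finset.range (N + 1), a n * Real.cos (Real.log n * t)) *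
      (∑ n ∈ Finset.range (N + 1), a n * Real.sin (Real.log n * t))) := by
  have e2 : 2 * ((∑ n ∈ Finset.range (N + 1), a n * Real.cos (Real.log n * t)) *
      (∑ n ∈ Finset.range (N + 1), a n * Real.sin (Real.log n * t))) =
      (∑ n ∈ Finset.range (N + 1), a n * Real.cos (Real.log n * t)) *
      (∑ n ∈ Finset.range (N + 1), a n * Real.sin (Real.log n * t)) +
      (∑ n ∈ Finset.range (N + 1), a n * Real.sin (Real.log n * t)) *
      (∑ n ∈ Finset.range (N + 1), a n * Real.cos (Real.log n * t)) := by ring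
  rw [cc_sum a N (fun k => Real.sin (Real.log k * t)), e2, Finset.sum_mul_sum,
    Finset.sum_mul_sum, ← Finset.sum_product', ← Finset.sum_product', ← Finset.sum_add_distrib]
  refine Finset.sum_congr rfl fun p _ => ?_
  rcases Nat.eq_zero_or_pos p.1 with h | h
  · rw [h, h0]; ring
  rcases Nat.eq_zero_or_pos p.2 with h' | h'
  · rw [h', h0]; ring
  have e : Real.log ((p.1 * p.2 : ℕ) : ℝ) * t = Real.log p.1 * t + Real.log p.2 * t := by
    push_cast
    rw [Real.log_mul (by positivity) (by positivity)]; ring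
  simp only [e, Real.sin_add]
  ring

theorem four_le (a : ℕ → ℝ) (N : ℕ) (h0 : a 0 = 0) (t : ℝ) :
    (∑ n ∈ Finset.range (N + 1), a n * Real.cos (Real.log n * t)) ^ 4 ≤
      (∑ k ∈ Finset.range (N * N + 1), cc a N k * Real.cos (Real.log k * t)) ^ 2 +
      (∑ k ∈ Finset.range (N * N + 1), cc a N k * Real.sin (Real.log k * t)) ^ 2 := by
  rw [cos_side a N h0, sin_side a N h0]
  set A := ∑ n ∈ Finset.range (N + 1), a n * Real.cos (Real.log n * t)
  set B := ∑ n ∈ Finset.range (N + 1), a n * Real.sin (Real.log n * t)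
  have e : (A ^ 2 - B ^ 2) ^ 2 + (2 * (A * B)) ^ 2 = A ^ 4 + 2 * (A * B) ^ 2 + (B ^ 2) ^ 2 := by ring
  rw [e]
  nlinarith [sq_nonneg (A * B), sq_nonneg (B ^ 2)]

open ArithmeticFunction in
/-- bound for the sum of squares of the coefficients -/
theorem cc_sq (a : ℕ → ℝ) (N : ℕ) (K L : ℝ) (hK : 0 ≤ K)
    (ha : ∀ n, |a n| ≤ K * (vonMangoldt n / Real.sqrt n))
    (hN : 1 ≤ N) (hL : 2 * Real.log N ≤ L)
    (hS : ∑ d ∈ Finset.range (N + 1), vonMangoldt d / d ≤ L) :
    ∑ k ∈ Finset.range (N * N + 1), cc a N k ^ 2 ≤ K ^ 4 * L ^ 4 := by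
  set V : ℕ → ℝ := fun k => ∑ p ∈ (Finset.range (N + 1) ×ˢ Finset.range (N + 1)).filter
    (fun p => p.1 * p.2 = k), vonMangoldt p.1 * vonMangoldt p.2 with hV
  have hV0 : ∀ k, 0 ≤ V k := fun k => Finset.sum_nonneg fun p _ =>
    mul_nonneg vonMangoldt_nonneg vonMangoldt_nonneg
  have hVcc : ∀ k, V k = cc (fun n => vonMangoldt n) N k := fun k => rfl
  -- bound of one coefficient
  have h1 : ∀ k ∈ Finset.range (N * N + 1), cc a N k ^ 2 ≤ K ^ 4 * L ^ 2 * (V k * (1 / k)) := by
    intro k hk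
    rw [Finset.mem_range, Nat.lt_succ_iff] at hk
    rcases Nat.eq_zero_or_pos k with rfl | hk0
    · have ha0 : a 0 = 0 := by
        have := ha 0
        rw [ArithmeticFunction.map_zero, zero_div, mul_zero] at this
        exact abs_nonpos_iff.1 this
      rw [cc_zero a N ha0]
      simp
    have hkr : (0 : ℝ) < k := by exact_mod_cast hk0
    have h2 : |cc a N k| ≤ K ^ 2 * (V k / Real.sqrt k) := by
      unfold cc
      refine (Finset.abs_sum_le_sum_abs _ _).trans ?_
      rw [hV]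
      simp only
      rw [Finset.sum_div, Finset.mul_sum]
      refine Finset.sum_le_sum fun p hp => ?_
      rw [Finset.mem_filter] at hp
      rw [abs_mul]
      have h3 := mul_le_mul (ha p.1) (ha p.2) (abs_nonneg _)
        (mul_nonneg hK (div_nonneg vonMangoldt_nonneg (Real.sqrt_nonneg _)))
      refine h3.trans (le_of_eq ?_)
      have h4 : Real.sqrt k = Real.sqrt p.1 * Real.sqrt p.2 := by
        rw [← hp.2]; push_cast; rw [Real.sqrt_mul (by positivity)]
      rw [h4]
      have : K * (vonMangoldt p.1 / √(p.1 : ℝ)) * (K * (vonMangoldt p.2 / √(p.2 : ℝ))) =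
        K ^ 2 * ((vonMangoldt p.1 / √(p.1 : ℝ)) * (vonMangoldt p.2 / √(p.2 : ℝ))) := by ring
      rw [this, div_mul_div_comm]
    have h5 : cc a N k ^ 2 ≤ (K ^ 2 * (V k / Real.sqrt k)) ^ 2 := by
      rw [← sq_abs (cc a N k)]
      exact pow_le_pow_left₀ (abs_nonneg _) h2 2
    have h6 : (K ^ 2 * (V k / Real.sqrt k)) ^ 2 = K ^ 4 * (V k * V k * (1 / k)) := by
      rw [mul_pow, div_pow, Real.sq_sqrt hkr.le]; ring
    have h7 : V k ≤ L ^ 2 := by
      refine (V_le k _).trans ?_
      have h8 : Real.log k ≤ L := by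
        refine le_trans ?_ hL
        have h9 : (k : ℝ) ≤ (N : ℝ) * N := by exact_mod_cast hk
        have hNr : (0 : ℝ) < N := by exact_mod_cast hN
        calc Real.log k ≤ Real.log ((N : ℝ) * N) := Real.log_le_log hkr h9
          _ = 2 * Real.log N := by rw [Real.log_mul hNr.ne' hNr.ne']; ring
      have h10 : 0 ≤ Real.log k := Real.log_natCast_nonneg k
      exact pow_le_pow_left₀ h10 h8 2
    rw [h6] at h5
    refine h5.trans ?_
    have h11 : V k * V k * (1 / k) ≤ L ^ 2 * (V k * (1 / k)) := by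
      have : 0 ≤ V k * (1 / (k : ℝ)) := mul_nonneg (hV0 k) (by positivity)
      nlinarith
    calc K ^ 4 * (V k * V k * (1 / k)) ≤ K ^ 4 * (L ^ 2 * (V k * (1 / k))) :=
          mul_le_mul_of_nonneg_left h11 (by positivity)
      _ = _ := by ring
  refine (Finset.sum_le_sum h1).trans ?_
  rw [← Finset.mul_sum]
  have h12 : ∑ k ∈ Finset.range (N * N + 1), V k * (1 / (k : ℝ)) =
      (∑ d ∈ Finset.range (N + 1), vonMangoldt d / d) ^ 2 := by
    have e := cc_sum (fun n => vonMangoldt n) N (fun k => 1 / (k : ℝ))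
    simp only [← hVcc] at e
    rw [e, pow_two, Finset.sum_mul_sum, ← Finset.sum_product']
    refine Finset.sum_congr rfl fun p _ => ?_
    push_cast
    rw [div_mul_div_comm, mul_one_div]
  rw [h12]
  have h13 : 0 ≤ ∑ d ∈ Finset.range (N + 1), vonMangoldt d / (d : ℝ) :=
    Finset.sum_nonneg fun d _ => div_nonneg vonMangoldt_nonneg (Nat.cast_nonneg d)
  have h14 := pow_le_pow_left₀ h13 hS 2
  calc K ^ 4 * L ^ 2 * (∑ d ∈ Finset.range (N + 1), vonMangoldt d / (d : ℝ)) ^ 2
      ≤ K ^ 4 * L ^ 2 * L ^ 2 := mul_le_mul_of_nonneg_left h14 (by positivity)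
    _ = _ := by ring

end Four

theorem prs_four (f : TF) : ∃ C : ℝ, 0 < C ∧ ∀ᶠ T : ℝ in atTop,
    ∫ t in (0:ℝ)..T, prs f.h (Real.log T) t ^ 4 ≤ C * T := by
  have hcont : Continuous f.h := f.smooth.continuous
  obtain ⟨M0, hM0⟩ := (isCompact_Icc (a := (-1 : ℝ)) (b := 1)).exists_bound_of_continuousOn
    hcont.continuousOn
  set M : ℝ := max M0 0 with hMdef
  have hM : ∀ x, |f.h x| ≤ M := by
    intro x
    by_cases hx : |x| ≤ 1
    · exact ((hM0 x ⟨(abs_le.1 hx).1, (abs_le.1 hx).2⟩)).trans (le_max_left _ _)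
    · rw [f.supp x (by have := f.th1; linarith), abs_zero]
      exact le_max_right _ _
  have hMnn : 0 ≤ M := le_max_right _ _
  refine ⟨32 * M ^ 4 + 1, by positivity, ?_⟩
  have hc : 0 < 1 - 2 * f.th := by have := f.th1; linarith
  set c : ℝ := 1 - 2 * f.th with hcdef
  filter_upwards [Real.tendsto_log_atTop.eventually_ge_atTop (80 / c ^ 2),
    Real.tendsto_log_atTop.eventually_ge_atTop 1, eventually_gt_atTop (0 : ℝ)] with T hT1 hT2 hT0
  set L : ℝ := Real.log T with hL
  have hL0 : 0 < L := by linarith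
  have hexpL : Real.exp L = T := Real.exp_log hT0
  set N : ℕ := NX (f.th * L) with hN
  have hN1 : 1 ≤ N := by
    exact Nat.le_floor (by rw [Nat.cast_one]; exact Real.one_le_exp (mul_nonneg f.th0.le hL0.le))
  have hNle : (N : ℝ) ≤ Real.exp (f.th * L) := Nat.floor_le (Real.exp_pos _).le
  have hNr : (0 : ℝ) < N := by exact_mod_cast hN1
  have hlogN : Real.log N ≤ f.th * L := by rwa [Real.log_le_iff_le_exp hNr]
  have hlogN0 : 0 ≤ Real.log N := Real.log_natCast_nonneg N
  have h2logN : 2 * Real.log N ≤ L := by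
    have := f.th1
    nlinarith
  -- the prime sum
  have hprs : ∀ t, prs f.h L t =
      ∑ n ∈ Finset.range (N + 1), co f.h L n * Real.cos (Real.log n * t) := by
    intro t
    unfold prs
    symm
    refine Finset.sum_subset ?_ ?_
    · intro n hn
      rw [Finset.mem_range] at hn ⊢
      have : N ≤ NX (L / 2) := by
        rw [hN, NX, NX]
        refine Nat.floor_le_floor (Real.exp_le_exp.2 ?_)
        have := f.th1
        nlinarith
      omega
    · intro n _ hn
      rw [Finset.mem_range, not_lt] at hn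
      have hn0 : (0 : ℝ) < n := by
        have : 0 < n := by omega
        exact_mod_cast this
      have h1 : Real.exp (f.th * L) < n := by
        have h2 := Nat.lt_floor_add_one (Real.exp (f.th * L))
        have h3 : ((N + 1 : ℕ) : ℝ) ≤ n := by exact_mod_cast hn
        push_cast at h3
        rw [hN, NX] at h3
        linarith
      have h4 : f.th ≤ Real.log n / L := by
        rw [le_div_iff₀ hL0]
        exact ((Real.lt_log_iff_exp_lt hn0).2 h1).le
      have h5 : f.h (Real.log n / L) = 0 := f.supp _ (h4.trans (le_abs_self _))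
      rw [co, h5]
      ring
  have hco0 : co f.h L 0 = 0 := by
    rw [co, ArithmeticFunction.map_zero]; ring
  have hco : ∀ n, |co f.h L n| ≤ 2 * M / L * (ArithmeticFunction.vonMangoldt n / Real.sqrt n) := by
    intro n
    have hv : 0 ≤ ArithmeticFunction.vonMangoldt n / Real.sqrt n :=
      div_nonneg ArithmeticFunction.vonMangoldt_nonneg (Real.sqrt_nonneg _)
    rw [co, abs_mul, abs_mul, abs_of_nonneg (show 0 ≤ 2 / L by positivity), abs_of_nonneg hv]
    have := mul_le_mul_of_nonneg_left (hM (Real.log n / L)) hv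
    calc 2 / L * (ArithmeticFunction.vonMangoldt n / √(n : ℝ) * |f.h (Real.log n / L)|)
        ≤ 2 / L * (ArithmeticFunction.vonMangoldt n / √(n : ℝ) * M) :=
          mul_le_mul_of_nonneg_left this (by positivity)
      _ = _ := by ring
  have hsq := Four.cc_sq (co f.h L) N (2 * M / L) L (by positivity) hco hN1 h2logN
    ((sum_vM N).trans h2logN)
  have hsq' : ∑ k ∈ Finset.range (N * N + 1), Four.cc (co f.h L) N k ^ 2 ≤ 16 * M ^ 4 := by
    refine hsq.trans (le_of_eq ?_)
    field_simp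
    ring
  have hmv := mv_cplx (N := N * N) (by nlinarith) (Four.cc (co f.h L) N)
    (Four.cc_zero _ N hco0) hT0.le
  have hmono : ∫ t in (0:ℝ)..T, prs f.h L t ^ 4 ≤
      ∫ t in (0:ℝ)..T, ((∑ k ∈ Finset.range (N * N + 1), Four.cc (co f.h L) N k *
        Real.cos (Real.log k * t)) ^ 2 +
        (∑ k ∈ Finset.range (N * N + 1), Four.cc (co f.h L) N k * Real.sin (Real.log k * t)) ^ 2) := by
    refine intervalIntegral.integral_mono_on hT0.le ?_ ?_ ?_
    · refine Continuous.intervalIntegrable ?_ _ _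
      simp only [hprs]
      fun_prop
    · refine Continuous.intervalIntegrable ?_ _ _
      fun_prop
    · intro t _
      rw [hprs]
      exact Four.four_le _ N hco0 t
  refine hmono.trans (hmv.trans ?_)
  -- the factor
  have hfac : 20 * ((N * N : ℕ) : ℝ) * (1 + Real.log ((N * N : ℕ) : ℝ)) ≤ T := by
    push_cast
    rw [Real.log_mul hNr.ne' hNr.ne']
    have h1 : (N : ℝ) * N ≤ Real.exp (2 * (f.th * L)) := by
      rw [two_mul, Real.exp_add]
      exact mul_le_mul hNle hNle hNr.le (Real.exp_pos _).le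
    have h2 : 1 + (Real.log N + Real.log N) ≤ 2 * L := by linarith
    have h3 : 40 * L ≤ Real.exp (c * L) := by
      have h4 := Real.quadratic_le_exp_of_nonneg (show 0 ≤ c * L by positivity)
      have h5 : 80 ≤ L * c ^ 2 := by rwa [div_le_iff₀ (by positivity)] at hT1
      have h6 : 0 ≤ c * L := by positivity
      nlinarith
    have h7 : Real.exp (2 * (f.th * L)) * Real.exp (c * L) = T := by
      rw [← Real.exp_add, ← hexpL]
      congr 1
      rw [hcdef]; ring
    have h8 : 0 < Real.exp (2 * (f.th * L)) := Real.exp_pos _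
    calc 20 * ((N : ℝ) * N) * (1 + (Real.log N + Real.log N))
        ≤ 20 * Real.exp (2 * (f.th * L)) * (2 * L) := by
          refine mul_le_mul (by linarith) h2 (by linarith) (by positivity)
      _ = Real.exp (2 * (f.th * L)) * (40 * L) := by ring
      _ ≤ Real.exp (2 * (f.th * L)) * Real.exp (c * L) := mul_le_mul_of_nonneg_left h3 h8.le
      _ = T := h7
  have h9 : 0 ≤ ∑ k ∈ Finset.range (N * N + 1), Four.cc (co f.h L) N k ^ 2 :=
    Finset.sum_nonneg fun k _ => sq_nonneg _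
  calc (T - 0 + 20 * ((N * N : ℕ) : ℝ) * (1 + Real.log ((N * N : ℕ) : ℝ))) *
        ∑ k ∈ Finset.range (N * N + 1), Four.cc (co f.h L) N k ^ 2
      ≤ (2 * T) * (16 * M ^ 4) :=
        mul_le_mul (by linarith) hsq' h9 (by linarith)
    _ ≤ (32 * M ^ 4 + 1) * T := by nlinarith

end Pool.Agent.Helper78.SG
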