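import Pool.Agent.Helper78.SG.MV
import Pool.Agent.Helper78.SG.Diag

/-!
# SG-PM: mean and mean square of the prime sum

`L = log T`. Mean square: `mv_real` with `N = NX (L/2) ≤ T^(1/2)` (`co _ L 0 = co _ L 1 = 0`): error
`≤ 20 T^(1/2) (1 + L) ∑ co²`, and `∑ co²/2 → 2 ∫ y h²` (`diag_asym`), so it is bounded; `(b - a) ≤ T`.
Mean: `|∫_a^b cos(t log n)| ≤ 2/log n`, so `|∫ prs| ≤ ∑ |co n| 2/log 2 ≤ (2/log 2) ∑ (1 + co²)/2`.
-/

open MeasureTheory Set Filter Topology
open Pool.Agent.Helper57.Zeta Pool.Agent.Helper57.PC Pool.Agent.Helper57.LH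
open scoped ContDiff

namespace Pool.Agent.Helper78.SG

lemma co_zero47 (h : ℝ → ℝ) (L : ℝ) : co h L 0 = 0 := by
  unfold co; simp

lemma co_one47 (h : ℝ → ℝ) (L : ℝ) : co h L 1 = 0 := by
  unfold co; simp

lemma NX_bounds47 {L : ℝ} (hL : 0 ≤ L) : 1 ≤ NX (L / 2) ∧ (NX (L / 2) : ℝ) ≤ Real.exp (L / 2) ∧
    Real.log (NX (L / 2)) ≤ L / 2 := by
  have h1 : (1 : ℝ) ≤ Real.exp (L / 2) := Real.one_le_exp (by linarith)
  have h2 : 1 ≤ NX (L / 2) := by
    unfold NX
    exact Nat.le_floor (by exact_mod_cast h1)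
  have h3 : (NX (L / 2) : ℝ) ≤ Real.exp (L / 2) := by
    unfold NX
    exact Nat.floor_le (by positivity)
  refine ⟨h2, h3, ?_⟩
  have h4 : (0 : ℝ) < NX (L / 2) := by exact_mod_cast h2
  have h5 := Real.log_le_log h4 h3
  rwa [Real.log_exp] at h5

/-- `exp (L/2) (A + B L) ≤ ε exp L` for large `L` -/
lemma growth47 {ε : ℝ} (hε : 0 < ε) (A B : ℝ) :
    ∀ᶠ L : ℝ in atTop, Real.exp (L / 2) * (A + B * L) ≤ ε * Real.exp L := by
  have h1 : Tendsto (fun x : ℝ => x ^ 1 * Real.exp (-x)) atTop (𝓝 0) :=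
    Real.tendsto_pow_mul_exp_neg_atTop_nhds_zero 1
  have h0 : Tendsto (fun x : ℝ => x ^ 0 * Real.exp (-x)) atTop (𝓝 0) :=
    Real.tendsto_pow_mul_exp_neg_atTop_nhds_zero 0
  have h2 : Tendsto (fun x : ℝ => A * (x ^ 0 * Real.exp (-x)) + 2 * B * (x ^ 1 * Real.exp (-x)))
      atTop (𝓝 0) := by
    have := (h0.const_mul A).add (h1.const_mul (2 * B))
    simpa using this
  have h3 : Tendsto (fun L : ℝ => L / 2) atTop atTop := tendsto_id.atTop_div_const (by norm_num)
  have h4 := (h2.comp h3).eventually (gt_mem_nhds hε)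
  filter_upwards [h4] with L hL
  simp only [Function.comp, pow_zero, one_mul, pow_one] at hL
  have e1 : Real.exp L = Real.exp (L / 2) * Real.exp (L / 2) := by
    rw [← Real.exp_add]; congr 1; ring
  have e2 : A * Real.exp (-(L / 2)) + 2 * B * (L / 2 * Real.exp (-(L / 2))) =
      (A + B * L) * Real.exp (-(L / 2)) := by ring
  rw [e2, Real.exp_neg] at hL
  have hp : 0 < Real.exp (L / 2) := Real.exp_pos _
  rw [← div_eq_mul_inv, div_lt_iff₀ hp] at hL
  rw [e1]
  nlinarith

theorem prs_sq (f : TF) {ε : ℝ} (hε : 0 < ε) : ∀ᶠ T : ℝ in atTop, ∀ a b : ℝ, 0 ≤ a → a ≤ b → b ≤ T →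
    |(∫ t in a..b, prs f.h (Real.log T) t ^ 2) - (b - a) * (2 * ∫ y in (0:ℝ)..(1 / 2), y * f.h y ^ 2)| ≤ ε * T := by
  set Di := 2 * ∫ y in (0:ℝ)..(1 / 2), y * f.h y ^ 2 with hDi
  set D : ℝ → ℝ := fun L => ∑ n ∈ Finset.range (NX (L / 2) + 1), co f.h L n ^ 2 / 2 with hD
  have hlim : Tendsto D atTop (𝓝 Di) := diag_asym f
  have e1 : ∀ᶠ L : ℝ in atTop, |D L - Di| < ε / 2 := by
    have := (Metric.tendsto_nhds.1 hlim) (ε / 2) (half_pos hε)
    filter_upwards [this] with L hL
    rwa [Real.dist_eq] at hL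
  set M := |Di| + ε / 2 with hM
  have hM0 : 0 ≤ M := by positivity
  have e2 := growth47 (half_pos hε) (40 * M) (20 * M)
  have hlog : Tendsto Real.log atTop atTop := Real.tendsto_log_atTop
  filter_upwards [hlog.eventually e1, hlog.eventually e2, hlog.eventually (eventually_ge_atTop 0),
    eventually_gt_atTop 0] with T h1 h2 h3 h4 a b ha hab hb
  set L := Real.log T with hL
  have hexp : Real.exp L = T := Real.exp_log h4
  obtain ⟨n1, n2, n3⟩ := NX_bounds47 h3
  set N := NX (L / 2) with hN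
  have hmv := mv_real n1 (co f.h L) (co_zero47 _ _) (co_one47 _ _) hab
  have hsum : ∑ n ∈ Finset.range (N + 1), co f.h L n ^ 2 = 2 * D L := by
    rw [hD]
    simp only
    rw [← Finset.sum_div, ← hN]
    ring
  rw [hsum] at hmv
  have hDL : D L ≤ M := by
    have := (abs_lt.1 h1).2
    have := le_abs_self Di
    linarith
  have hD0 : 0 ≤ D L := by
    rw [hD]
    exact Finset.sum_nonneg fun n _ => by positivity
  have hlogN : 0 ≤ Real.log N := Real.log_nonneg (by exact_mod_cast n1)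
  have herr : 20 * (N : ℝ) * (1 + Real.log N) * (2 * D L) ≤ ε / 2 * T := by
    calc 20 * (N : ℝ) * (1 + Real.log N) * (2 * D L)
        ≤ 20 * Real.exp (L / 2) * (1 + L / 2) * (2 * M) := by gcongr
      _ = Real.exp (L / 2) * (40 * M + 20 * M * L) := by ring
      _ ≤ ε / 2 * Real.exp L := h2
      _ = ε / 2 * T := by rw [hexp]
  have hmain : |(b - a) * D L - (b - a) * Di| ≤ ε / 2 * T := by
    rw [← mul_sub, abs_mul, abs_of_nonneg (sub_nonneg.2 hab), mul_comm]
    have hba : b - a ≤ T := by linarith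
    exact mul_le_mul h1.le hba (sub_nonneg.2 hab) (by linarith)
  have e3 : (b - a) / 2 * (2 * D L) = (b - a) * D L := by ring
  rw [e3] at hmv
  have hmv' : |(∫ t in a..b, prs f.h L t ^ 2) - (b - a) * D L| ≤
      20 * (N : ℝ) * (1 + Real.log N) * (2 * D L) := hmv
  calc |(∫ t in a..b, prs f.h L t ^ 2) - (b - a) * Di|
      = |((∫ t in a..b, prs f.h L t ^ 2) - (b - a) * D L) + ((b - a) * D L - (b - a) * Di)| := by
        congr 1; ring
    _ ≤ _ := abs_add_le _ _
    _ ≤ ε / 2 * T + ε / 2 * T := add_le_add (hmv'.trans herr) hmain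
    _ = ε * T := by ring

lemma int_cos47 {c : ℝ} (hc : 0 < c) (a b : ℝ) : |∫ t in a..b, Real.cos (c * t)| ≤ 2 / c := by
  have h1 : ∫ t in a..b, Real.cos (c * t) = (Real.sin (c * b) - Real.sin (c * a)) / c := by
    rw [intervalIntegral.integral_comp_mul_left (fun t => Real.cos t) hc.ne', integral_cos,
      smul_eq_mul]
    ring
  rw [h1, abs_div, abs_of_pos hc]
  gcongr
  have h2 := Real.abs_sin_le_one (c * b)
  have h3 := Real.abs_sin_le_one (c * a)
  have h4 := abs_sub (Real.sin (c * b)) (Real.sin (c * a))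
  linarith

theorem prs_mean (f : TF) {ε : ℝ} (hε : 0 < ε) : ∀ᶠ T : ℝ in atTop, ∀ a b : ℝ, 0 ≤ a → a ≤ b → b ≤ T →
    |∫ t in a..b, prs f.h (Real.log T) t| ≤ ε * T := by
  set Di := 2 * ∫ y in (0:ℝ)..(1 / 2), y * f.h y ^ 2 with hDi
  set D : ℝ → ℝ := fun L => ∑ n ∈ Finset.range (NX (L / 2) + 1), co f.h L n ^ 2 / 2 with hD
  have hlim : Tendsto D atTop (𝓝 Di) := diag_asym f
  have e1 : ∀ᶠ L : ℝ in atTop, |D L - Di| < 1 := by
    have := (Metric.tendsto_nhds.1 hlim) 1 one_pos
    filter_upwards [this] with L hL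
    rwa [Real.dist_eq] at hL
  set M := |Di| + 1 with hM
  have hM0 : 0 ≤ M := by positivity
  have hl2 : 0 < Real.log 2 := Real.log_pos (by norm_num)
  set c2 := 2 / Real.log 2 with hc2
  have hc20 : 0 < c2 := by positivity
  have e2 := growth47 hε (c2 * (1 + M)) 0
  have hlog : Tendsto Real.log atTop atTop := Real.tendsto_log_atTop
  filter_upwards [hlog.eventually e1, hlog.eventually e2, hlog.eventually (eventually_ge_atTop 0),
    eventually_gt_atTop 0] with T h1 h2 h3 h4 a b _ha hab hb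
  set L := Real.log T with hL
  have hexp : Real.exp L = T := Real.exp_log h4
  obtain ⟨n1, n2, n3⟩ := NX_bounds47 h3
  set N := NX (L / 2) with hN
  have hDL : D L ≤ M := by
    have := (abs_lt.1 h1).2
    have := le_abs_self Di
    linarith
  have hterm : ∀ n ∈ Finset.range (N + 1), |∫ t in a..b, co f.h L n * Real.cos (Real.log n * t)| ≤
      c2 * (1 / 2 + co f.h L n ^ 2 / 2) := by
    intro n _
    rw [intervalIntegral.integral_const_mul, abs_mul]
    rcases Nat.lt_or_ge n 2 with hn | hn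
    · have h0 : co f.h L n = 0 := by
        interval_cases n
        · exact co_zero47 _ _
        · exact co_one47 _ _
      rw [h0, abs_zero, zero_mul]
      positivity
    · have hn' : (2 : ℝ) ≤ n := by exact_mod_cast hn
      have hln : Real.log 2 ≤ Real.log n := Real.log_le_log (by norm_num) hn'
      have h5 := int_cos47 (lt_of_lt_of_le hl2 hln) a b
      have h6 : 2 / Real.log n ≤ c2 := by
        rw [hc2]; gcongr
      have h7 : |co f.h L n| ≤ 1 / 2 + co f.h L n ^ 2 / 2 := by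
        rw [← sq_abs]
        nlinarith [sq_nonneg (|co f.h L n| - 1)]
      calc |co f.h L n| * |∫ t in a..b, Real.cos (Real.log n * t)|
          ≤ (1 / 2 + co f.h L n ^ 2 / 2) * c2 :=
            mul_le_mul h7 (h5.trans h6) (abs_nonneg _) (by positivity)
        _ = _ := mul_comm _ _
  have hint : ∫ t in a..b, prs f.h L t = ∑ n ∈ Finset.range (N + 1),
      ∫ t in a..b, co f.h L n * Real.cos (Real.log n * t) := by
    unfold prs
    rw [intervalIntegral.integral_finset_sum]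
    intro n _
    apply Continuous.intervalIntegrable
    fun_prop
  rw [hint]
  have hN1 : (1 : ℝ) ≤ N := by exact_mod_cast n1
  calc |∑ n ∈ Finset.range (N + 1), ∫ t in a..b, co f.h L n * Real.cos (Real.log n * t)|
      ≤ ∑ n ∈ Finset.range (N + 1), |∫ t in a..b, co f.h L n * Real.cos (Real.log n * t)| :=
        Finset.abs_sum_le_sum_abs _ _
    _ ≤ ∑ n ∈ Finset.range (N + 1), c2 * (1 / 2 + co f.h L n ^ 2 / 2) := Finset.sum_le_sum hterm
    _ = c2 * (((N : ℝ) + 1) / 2 + D L) := by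
        rw [← Finset.mul_sum, Finset.sum_add_distrib, Finset.sum_const, Finset.card_range,
          nsmul_eq_mul]
        push_cast
        rw [hD]
        ring
    _ ≤ c2 * (N + N * M) := by
        have h8 : M ≤ N * M := le_mul_of_one_le_left hM0 hN1
        have h9 : ((N : ℝ) + 1) / 2 ≤ N := by linarith
        gcongr
        exact hDL.trans h8
    _ = N * (c2 * (1 + M)) := by ring
    _ ≤ Real.exp (L / 2) * (c2 * (1 + M)) := by gcongr
    _ = Real.exp (L / 2) * (c2 * (1 + M) + 0 * L) := by ring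
    _ ≤ ε * Real.exp L := h2
    _ = ε * T := by rw [hexp]

end Pool.Agent.Helper78.SG
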