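import Pool.Agent.Helper78.SG.KDecay

/-!
# SG-WI: integrals of small powers

`0 < r ≤ 1`. Subadditivity: `(∑_F m |kz|)^r ≤ ∑_F (m |kz|)^r ≤ ∑_F m |kz|^r` (`m` a natural number, so `m^r ≤ m`).
`ker_decay` with `k r ≥ 2`: `|kz f.h L t ρ|^r ≤ C^r e^(r|L(β-1/2)|) (1 + L|t-γ|)^(-kr) ≤ C^r e^(r|..|) /(1 + L|t-γ|)²`, and
`∫ (1 + L|t-γ|)^(-2) dt = 2/L`. Measurability: `t ↦ kz f.h L t ρ` is continuous (`ker h a` is continuous: integral of a continuous
compactly supported function with parameter, or `ker_cont` below).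
-/

open MeasureTheory Set Filter Topology
open Pool.Agent.Helper57.Zeta Pool.Agent.Helper57.PC Pool.Agent.Helper57.LH
open scoped ContDiff

namespace Pool.Agent.Helper78.SG

theorem hcs16 (f : TF) : HasCompactSupport f.h := by
  refine HasCompactSupport.intro (isCompact_Icc (a := (-1 : ℝ)) (b := 1)) fun x hx => ?_
  refine f.supp x ?_
  by_contra hcon
  push Not at hcon
  have h1 := f.th1
  exact hx ⟨by linarith [neg_abs_le x], by linarith [le_abs_self x]⟩

theorem ker_cont (f : TF) (a : ℝ) : Continuous (fun u => ker f.h a u) := by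
  unfold ker
  have hc : Continuous f.h := f.smooth.continuous
  have hb : Integrable (fun y => f.h y * Real.cosh (a * y)) := by
    refine Continuous.integrable_of_hasCompactSupport (by fun_prop) ?_
    exact (hcs16 f).mul_right
  refine continuous_of_dominated (bound := fun y => ‖f.h y * Real.cosh (a * y)‖) ?_ ?_ hb.norm ?_
  · intro u
    exact (by fun_prop : Continuous fun y => f.h y * (Real.cosh (a * y) * Real.cos (u * y))).aestronglyMeasurable
  · intro u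
    refine Filter.Eventually.of_forall fun y => ?_
    rw [← mul_assoc, norm_mul]
    refine mul_le_of_le_one_right (norm_nonneg _) ?_
    rw [Real.norm_eq_abs]
    exact Real.abs_cos_le_one _
  · refine Filter.Eventually.of_forall fun y => ?_
    fun_prop

theorem kz_cont (f : TF) (L : ℝ) (ρ : ℂ) : Continuous (fun t => kz f.h L t ρ) := by
  unfold kz
  exact (ker_cont f _).comp (by fun_prop)

/-- subadditivity of small powers -/
theorem sub16 {r : ℝ} (hr : 0 < r) (hr1 : r ≤ 1) {ι : Type*} (s : Finset ι) (g : ι → ℝ)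
    (hg : ∀ i, 0 ≤ g i) : (∑ i ∈ s, g i) ^ r ≤ ∑ i ∈ s, g i ^ r := by
  classical
  induction s using Finset.induction_on with
  | empty => simp [Real.zero_rpow hr.ne']
  | insert a s ha ih =>
    rw [Finset.sum_insert ha, Finset.sum_insert ha]
    refine (Real.rpow_add_le_add_rpow (hg a) (Finset.sum_nonneg fun i _ => hg i) hr.le hr1).trans ?_
    linarith

theorem mxr16 {r : ℝ} (hr : 0 < r) (hr1 : r ≤ 1) (ρ : ℂ) : mx ρ ^ r ≤ mx ρ := by
  unfold mx
  rcases Nat.eq_zero_or_pos (analyticOrderNatAt xi ρ) with h | h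
  · rw [h]
    simp [Real.zero_rpow hr.ne']
  · have h1 : (1 : ℝ) ≤ (analyticOrderNatAt xi ρ : ℝ) := by exact_mod_cast h
    calc (analyticOrderNatAt xi ρ : ℝ) ^ r ≤ (analyticOrderNatAt xi ρ : ℝ) ^ (1 : ℝ) :=
          Real.rpow_le_rpow_of_exponent_le h1 hr1
      _ = _ := Real.rpow_one _

/-- the dominating function -/
noncomputable def dg16 (x : ℝ) : ℝ := (1 + ‖x‖) ^ (-2 : ℝ)

theorem dg16_int : Integrable dg16 := by
  have h := integrable_one_add_norm (E := ℝ) (μ := volume) (r := 2) (by simp)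
  exact h

theorem dg16_nonneg (x : ℝ) : 0 ≤ dg16 x := by
  unfold dg16
  positivity

theorem dg16_shift (L : ℝ) (hL : 0 < L) (γ : ℝ) :
    Integrable (fun t => dg16 (L * (t - γ))) ∧
    ∫ t, dg16 (L * (t - γ)) = (∫ x, dg16 x) / L := by
  have h1 : Integrable (fun t => dg16 (L * t)) := dg16_int.comp_mul_left' hL.ne'
  refine ⟨h1.comp_sub_right γ, ?_⟩
  rw [integral_sub_right_eq_self (fun t => dg16 (L * t)) γ, Measure.integral_comp_mul_left,
    smul_eq_mul, abs_of_pos (inv_pos.2 hL)]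
  rw [div_eq_inv_mul]

theorem int_rpow (f : TF) {r : ℝ} (hr : 0 < r) (hr1 : r ≤ 1) : ∃ C : ℝ, 0 < C ∧ ∀ L : ℝ, 1 ≤ L → ∀ F : Finset ZS,
    Integrable (fun t => (∑ ρ ∈ F, mx ρ * |kz f.h L t ρ|) ^ r) ∧
    ∫ t, (∑ ρ ∈ F, mx ρ * |kz f.h L t ρ|) ^ r ≤
      C / L * ∑ ρ ∈ F, mx ρ * Real.exp (r * |L * ((ρ : ℂ).re - 1 / 2)|) := by
  obtain ⟨k, hk⟩ := exists_nat_ge (2 / r)
  have hkr : 2 ≤ k * r := by rwa [div_le_iff₀ hr] at hk
  obtain ⟨C0, hC0, hdec⟩ := ker_decay f k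
  have hI0 : 0 ≤ ∫ x, dg16 x := integral_nonneg dg16_nonneg
  refine ⟨C0 ^ r * (∫ x, dg16 x) + 1, by positivity, ?_⟩
  intro L hL F
  have hL0 : 0 < L := by linarith
  -- one zero
  have hone : ∀ (ρ : ZS) (t : ℝ), (mx ρ * |kz f.h L t ρ|) ^ r ≤
      mx ρ * (C0 ^ r * Real.exp (r * |L * ((ρ : ℂ).re - 1 / 2)|)) * dg16 (L * (t - (ρ : ℂ).im)) := by
    intro ρ t
    rw [Real.mul_rpow (mx_nonneg _) (abs_nonneg _)]
    have h1 : |kz f.h L t ρ| ≤ C0 * Real.exp |L * ((ρ : ℂ).re - 1 / 2)| /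
        (1 + |L * (t - (ρ : ℂ).im)|) ^ k := hdec _ _
    have hp : 0 < 1 + |L * (t - (ρ : ℂ).im)| := by positivity
    have h2 : |kz f.h L t ρ| ^ r ≤ (C0 * Real.exp |L * ((ρ : ℂ).re - 1 / 2)| /
        (1 + |L * (t - (ρ : ℂ).im)|) ^ k) ^ r := Real.rpow_le_rpow (abs_nonneg _) h1 hr.le
    have h3 : (C0 * Real.exp |L * ((ρ : ℂ).re - 1 / 2)| /
        (1 + |L * (t - (ρ : ℂ).im)|) ^ k) ^ r =
        C0 ^ r * Real.exp (r * |L * ((ρ : ℂ).re - 1 / 2)|) *
          (1 + |L * (t - (ρ : ℂ).im)|) ^ (-(k * r)) := by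
      rw [Real.div_rpow (by positivity) (by positivity), Real.mul_rpow hC0.le (Real.exp_pos _).le,
        ← Real.exp_mul, mul_comm |L * ((ρ : ℂ).re - 1 / 2)| r, Real.rpow_neg hp.le,
        ← Real.rpow_natCast, ← Real.rpow_mul hp.le]
      rfl
    have h4 : (1 + |L * (t - (ρ : ℂ).im)|) ^ (-((k : ℝ) * r)) ≤ dg16 (L * (t - (ρ : ℂ).im)) := by
      unfold dg16
      rw [Real.norm_eq_abs]
      exact Real.rpow_le_rpow_of_exponent_le (by linarith [abs_nonneg (L * (t - (ρ : ℂ).im))])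
        (by linarith)
    calc mx ρ ^ r * |kz f.h L t ρ| ^ r
        ≤ mx ρ * (C0 ^ r * Real.exp (r * |L * ((ρ : ℂ).re - 1 / 2)|) *
          (1 + |L * (t - (ρ : ℂ).im)|) ^ (-((k : ℝ) * r))) := by
          rw [← h3]
          exact mul_le_mul (mxr16 hr hr1 _) h2 (Real.rpow_nonneg (abs_nonneg _) _) (mx_nonneg _)
      _ ≤ mx ρ * (C0 ^ r * Real.exp (r * |L * ((ρ : ℂ).re - 1 / 2)|) *
          dg16 (L * (t - (ρ : ℂ).im))) := by
          refine mul_le_mul_of_nonneg_left ?_ (mx_nonneg _)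
          exact mul_le_mul_of_nonneg_left h4 (by positivity)
      _ = _ := by ring
  have hdom : ∀ t, (∑ ρ ∈ F, mx ρ * |kz f.h L t ρ|) ^ r ≤
      ∑ ρ ∈ F, mx ρ * (C0 ^ r * Real.exp (r * |L * ((ρ : ℂ).re - 1 / 2)|)) *
        dg16 (L * (t - (ρ : ℂ).im)) := by
    intro t
    refine (sub16 hr hr1 F (fun ρ : ZS => mx ρ * |kz f.h L t ρ|)
      (fun ρ => mul_nonneg (mx_nonneg _) (abs_nonneg _))).trans ?_
    exact Finset.sum_le_sum fun ρ _ => hone ρ t
  have hDint : Integrable (fun t => ∑ ρ ∈ F, mx ρ * (C0 ^ r *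
      Real.exp (r * |L * ((ρ : ℂ).re - 1 / 2)|)) * dg16 (L * (t - (ρ : ℂ).im))) :=
    integrable_finset_sum _ fun ρ _ => (dg16_shift L hL0 _).1.const_mul _
  have hcont : Continuous (fun t => (∑ ρ ∈ F, mx ρ * |kz f.h L t ρ|) ^ r) := by
    refine Continuous.rpow_const ?_ fun _ => Or.inr hr.le
    exact continuous_finset_sum _ fun ρ _ => continuous_const.mul (kz_cont f L ρ).abs
  have hint : Integrable (fun t => (∑ ρ ∈ F, mx ρ * |kz f.h L t ρ|) ^ r) := by
    refine hDint.mono' hcont.aestronglyMeasurable (Filter.Eventually.of_forall fun t => ?_)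
    rw [Real.norm_eq_abs, abs_of_nonneg (Real.rpow_nonneg (Finset.sum_nonneg fun ρ _ =>
      mul_nonneg (mx_nonneg _) (abs_nonneg _)) _)]
    exact hdom t
  refine ⟨hint, (integral_mono hint hDint hdom).trans ?_⟩
  rw [integral_finset_sum _ fun ρ _ => (dg16_shift L hL0 _).1.const_mul _, Finset.mul_sum]
  refine Finset.sum_le_sum fun ρ _ => ?_
  rw [integral_const_mul, (dg16_shift L hL0 _).2]
  have h5 : 0 ≤ mx ρ * Real.exp (r * |L * ((ρ : ℂ).re - 1 / 2)|) / L := by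
    have := mx_nonneg (ρ : ℂ)
    positivity
  calc mx ρ * (C0 ^ r * Real.exp (r * |L * ((ρ : ℂ).re - 1 / 2)|)) * ((∫ x, dg16 x) / L)
      = (C0 ^ r * (∫ x, dg16 x)) * (mx ρ * Real.exp (r * |L * ((ρ : ℂ).re - 1 / 2)|) / L) := by ring
    _ ≤ (C0 ^ r * (∫ x, dg16 x) + 1) * (mx ρ * Real.exp (r * |L * ((ρ : ℂ).re - 1 / 2)|) / L) :=
        mul_le_mul_of_nonneg_right (by linarith) h5
    _ = _ := by ring

end Pool.Agent.Helper78.SG
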