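import Pool.Agent.Helper78.SG.Explicit
import Pool.Agent.Helper78.SG.WeakInt

/-!
# SG-XM: measurability of the sum over all zeros

`Xf f.h L t` is the pointwise limit of the finite sums `∑_{ρ ∈ F} mx ρ * kz f.h L t ρ` along `atTop : Filter (Finset ZS)`
(`explicit_h`), `ZS` is countable (instance in the library), so the filter is countably generated and the limit of continuous functions
(`kz_cont`) is measurable (`measurable_of_tendsto_metrizable'`).
-/

open MeasureTheory Set Filter Topology
open Pool.Agent.Helper57.Zeta Pool.Agent.Helper57.PC Pool.Agent.Helper57.LH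
open scoped ContDiff

namespace Pool.Agent.Helper78.SG

theorem Xf_meas (f : TF) {L : ℝ} (hL : 0 < L) : Measurable (fun t => Xf f.h L t) := by
  refine measurable_of_tendsto_metrizable' (atTop : Filter (Finset ZS))
    (f := fun (F : Finset ZS) (t : ℝ) => ∑ ρ ∈ F, mx ρ * kz f.h L t ρ) ?_ ?_
  · intro F
    refine Finset.measurable_fun_sum F (fun ρ _ => ?_)
    exact ((kz_cont f L ρ).measurable.const_mul _)
  · rw [tendsto_pi_nhds]
    intro t
    exact explicit_h f hL t

end Pool.Agent.Helper78.SG
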