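import Pool.Agent.Helper78.SG.MainTerm
import Pool.Agent.Helper78.SG.PrsMean
import Pool.Agent.Helper78.SG.Four
import Pool.Agent.Helper78.SG.XMeas

/-!
# SG-MO: second moment (lower bound) and fourth moment of the sum over all zeros

On `J = [δT, (1-δ)T]`: `Xf = h 0 - prs + e`, `|e| ≤ ε'` (`main_term`); `prs` is continuous and bounded for fixed `T`, `Xf` measurable (`Xf_meas`),
so everything is integrable on `J`. `∫_J (h 0 - prs)² = |J| h(0)² - 2 h(0) ∫_J prs + ∫_J prs²` with `prs_mean`, `prs_sq`, so it is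
`≥ |J| kap0 - ε'' T`. And `Xf² ≥ (h0 - prs)² - 2ε'|h0 - prs|`, `2ε'|y| ≤ ε'(1 + y²)`.
Fourth moment: `Xf⁴ ≤ 27 (h(0)⁴ + prs⁴ + e⁴)` and `prs_four`.
-/

open MeasureTheory Set Filter Topology
open Pool.Agent.Helper57.Zeta Pool.Agent.Helper57.PC Pool.Agent.Helper57.LH
open scoped ContDiff

namespace Pool.Agent.Helper78.SG

theorem prs_cont16 (h : ℝ → ℝ) (L : ℝ) : Continuous (fun t => prs h L t) := by
  unfold prs
  fun_prop

theorem kap0_nonneg16 (h : ℝ → ℝ) : 0 ≤ kap0 h := by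
  unfold kap0
  have : 0 ≤ ∫ y in (0:ℝ)..(1 / 2), y * h y ^ 2 := by
    refine intervalIntegral.integral_nonneg (by norm_num) fun y hy => ?_
    exact mul_nonneg hy.1 (sq_nonneg _)
  positivity

theorem X_bdd16 (f : TF) {δ : ℝ} (hδ : 0 < δ) : ∀ᶠ T : ℝ in atTop,
    ∃ B : ℝ, ∀ t ∈ Icc (δ * T) ((1 - δ) * T), |Xf f.h (Real.log T) t| ≤ B := by
  filter_upwards [main_term f hδ one_pos, eventually_gt_atTop 1] with T hT hT1
  obtain ⟨B0, hB0⟩ := (isCompact_Icc (a := δ * T) (b := (1 - δ) * T)).exists_bound_of_continuousOn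
    (prs_cont16 f.h (Real.log T)).continuousOn
  refine ⟨|f.h 0| + B0 + 1, fun t ht => ?_⟩
  have h1 := hT t ⟨ht.1, ht.2.trans (by nlinarith)⟩
  have h2 := hB0 t ht
  rw [Real.norm_eq_abs] at h2
  have h3 : Xf f.h (Real.log T) t = f.h 0 - prs f.h (Real.log T) t +
      (Xf f.h (Real.log T) t - (f.h 0 - prs f.h (Real.log T) t)) := by ring
  rw [h3]
  have h4 := abs_add_le (f.h 0 - prs f.h (Real.log T) t)
    (Xf f.h (Real.log T) t - (f.h 0 - prs f.h (Real.log T) t))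
  have h5 := abs_sub (f.h 0) (prs f.h (Real.log T) t)
  linarith

theorem X_pow_int16 (f : TF) {δ : ℝ} (hδ : 0 < δ) : ∀ᶠ T : ℝ in atTop, ∀ n : ℕ,
    IntegrableOn (fun t => Xf f.h (Real.log T) t ^ n) (Icc (δ * T) ((1 - δ) * T)) := by
  filter_upwards [X_bdd16 f hδ, eventually_gt_atTop 1] with T hT hT1 n
  obtain ⟨B, hB⟩ := hT
  refine Measure.integrableOn_of_bounded (M := B ^ n) measure_Icc_lt_top.ne
    ((Xf_meas f (Real.log_pos hT1)).pow_const n).aestronglyMeasurable ?_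
  refine ae_restrict_of_forall_mem measurableSet_Icc fun t ht => ?_
  rw [Real.norm_eq_abs, abs_pow]
  exact pow_le_pow_left₀ (abs_nonneg _) (hB t ht) n

theorem X_int (f : TF) {δ : ℝ} (hδ : 0 < δ) (hδ1 : δ < 1 / 2) : ∀ᶠ T : ℝ in atTop,
    IntegrableOn (fun t => Xf f.h (Real.log T) t) (Icc (δ * T) ((1 - δ) * T)) ∧
    IntegrableOn (fun t => Xf f.h (Real.log T) t ^ 2) (Icc (δ * T) ((1 - δ) * T)) ∧
    IntegrableOn (fun t => Xf f.h (Real.log T) t ^ 4) (Icc (δ * T) ((1 - δ) * T)) := by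
  filter_upwards [X_pow_int16 f hδ] with T hT
  refine ⟨?_, hT 2, hT 4⟩
  have := hT 1
  simpa using this

theorem X_second (f : TF) {δ ε : ℝ} (hδ : 0 < δ) (hδ1 : δ < 1 / 2) (hε : 0 < ε) : ∀ᶠ T : ℝ in atTop,
    (kap0 f.h * (1 - 2 * δ) - ε) * T ≤ ∫ t in Icc (δ * T) ((1 - δ) * T), Xf f.h (Real.log T) t ^ 2 := by
  have hk := kap0_nonneg16 f.h
  obtain ⟨k, hkd⟩ : ∃ k : ℝ, k = kap0 f.h := ⟨_, rfl⟩
  rw [← hkd] at hk ⊢
  obtain ⟨e1, he1⟩ : ∃ e1 : ℝ, e1 = min 1 (ε / (2 * (k + 1))) := ⟨_, rfl⟩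
  obtain ⟨e2, he2⟩ : ∃ e2 : ℝ, e2 = ε / (2 * (2 * |f.h 0| + 1)) := ⟨_, rfl⟩
  have he10 : 0 < e1 := by rw [he1]; exact lt_min one_pos (by positivity)
  have he11 : e1 ≤ 1 := by rw [he1]; exact min_le_left _ _
  have he12 : e1 * (k + 1) ≤ ε / 2 := by
    have h1 : e1 ≤ ε / (2 * (k + 1)) := by rw [he1]; exact min_le_right _ _
    have h2 : ε / (2 * (k + 1)) * (k + 1) = ε / 2 := by field_simp
    calc e1 * (k + 1) ≤ ε / (2 * (k + 1)) * (k + 1) := mul_le_mul_of_nonneg_right h1 (by linarith)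
      _ = ε / 2 := h2
  have he20 : 0 < e2 := by rw [he2]; positivity
  have he22 : e2 * (2 * |f.h 0| + 1) = ε / 2 := by
    rw [he2]
    have : 0 < 2 * |f.h 0| + 1 := by positivity
    field_simp
  filter_upwards [main_term f hδ he10, X_pow_int16 f hδ, prs_sq f he20, prs_mean f he20,
    eventually_gt_atTop 1] with T hm hX hsq hmean hT1
  have hT0 : 0 < T := by linarith
  have ha0 : 0 ≤ δ * T := by positivity
  have hab : δ * T ≤ (1 - δ) * T := by nlinarith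
  have hbT : (1 - δ) * T ≤ T := by nlinarith
  have hs := hsq _ _ ha0 hab hbT
  have hmn := hmean _ _ ha0 hab hbT
  set P : ℝ → ℝ := fun t => prs f.h (Real.log T) t with hP
  have hPc : Continuous P := prs_cont16 _ _
  obtain ⟨Di, hDi⟩ : ∃ Di : ℝ, Di = 2 * ∫ y in (0:ℝ)..(1 / 2), y * f.h y ^ 2 := ⟨_, rfl⟩
  have hkD : k = f.h 0 ^ 2 + Di := by rw [hkd, hDi]; rfl
  rw [← hDi] at hs
  -- the integral of y^2
  have hy2 : ∫ t in (δ * T)..((1 - δ) * T), (f.h 0 - P t) ^ 2 =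
      f.h 0 ^ 2 * ((1 - δ) * T - δ * T) - 2 * f.h 0 * (∫ t in (δ * T)..((1 - δ) * T), P t) +
        ∫ t in (δ * T)..((1 - δ) * T), P t ^ 2 := by
    have e : (fun t => (f.h 0 - P t) ^ 2) = fun t => (f.h 0 ^ 2 - 2 * f.h 0 * P t) + P t ^ 2 := by
      funext t; ring
    rw [e, intervalIntegral.integral_add, intervalIntegral.integral_sub,
      intervalIntegral.integral_const, intervalIntegral.integral_const_mul, smul_eq_mul]
    · ring
    · exact intervalIntegrable_const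
    · exact (continuous_const.mul hPc).intervalIntegrable _ _
    · exact (continuous_const.sub (continuous_const.mul hPc)).intervalIntegrable _ _
    · exact (hPc.pow 2).intervalIntegrable _ _
  have hy2' : k * ((1 - 2 * δ) * T) - (2 * |f.h 0| + 1) * e2 * T ≤
      ∫ t in (δ * T)..((1 - δ) * T), (f.h 0 - P t) ^ 2 := by
    rw [hy2, hkD]
    have h1 := (abs_le.1 hs).1
    have h2 : f.h 0 * (∫ t in (δ * T)..((1 - δ) * T), P t) ≤ |f.h 0| * (e2 * T) := by
      refine (le_abs_self _).trans ?_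
      rw [abs_mul]
      exact mul_le_mul_of_nonneg_left hmn (abs_nonneg _)
    have h3 : (1 - δ) * T - δ * T = (1 - 2 * δ) * T := by ring
    rw [h3] at h1 ⊢
    nlinarith
  -- comparison
  have hIcc : ∫ t in Icc (δ * T) ((1 - δ) * T), ((1 - e1) * (f.h 0 - P t) ^ 2 - e1) ≤
      ∫ t in Icc (δ * T) ((1 - δ) * T), Xf f.h (Real.log T) t ^ 2 := by
    refine setIntegral_mono_on ?_ (hX 2) measurableSet_Icc fun t ht => ?_
    · refine Continuous.integrableOn_Icc ?_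
      fun_prop
    · have h1 := hm t ⟨ht.1, ht.2.trans hbT⟩
      set y := f.h 0 - P t with hy
      set x := Xf f.h (Real.log T) t with hx
      have h2 : |x - y| ≤ e1 := h1
      obtain ⟨h3, h4⟩ := abs_le.1 h2
      have h5 : |y * (x - y)| ≤ |y| * e1 := by
        rw [abs_mul]
        exact mul_le_mul_of_nonneg_left h2 (abs_nonneg _)
      have h6 := (abs_le.1 h5).1
      have h7 : 2 * |y| ≤ 1 + y ^ 2 := by
        rw [← sq_abs]
        nlinarith [sq_nonneg (|y| - 1)]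
      have h8 : x ^ 2 = y ^ 2 + 2 * (y * (x - y)) + (x - y) ^ 2 := by ring
      have h9 : e1 * (2 * |y|) ≤ e1 * (1 + y ^ 2) := mul_le_mul_of_nonneg_left h7 he10.le
      nlinarith [sq_nonneg (x - y)]
  have hlow : ∫ t in Icc (δ * T) ((1 - δ) * T), ((1 - e1) * (f.h 0 - P t) ^ 2 - e1) =
      (1 - e1) * (∫ t in (δ * T)..((1 - δ) * T), (f.h 0 - P t) ^ 2) -
        e1 * ((1 - 2 * δ) * T) := by
    rw [integral_Icc_eq_integral_Ioc, ← intervalIntegral.integral_of_le hab,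
      intervalIntegral.integral_sub, intervalIntegral.integral_const_mul,
      intervalIntegral.integral_const, smul_eq_mul]
    · ring
    · exact (continuous_const.mul ((continuous_const.sub hPc).pow 2)).intervalIntegrable _ _
    · exact intervalIntegrable_const
  rw [hlow] at hIcc
  refine le_trans ?_ hIcc
  have h1 : (1 - e1) * (k * ((1 - 2 * δ) * T) - (2 * |f.h 0| + 1) * e2 * T) ≤
      (1 - e1) * ∫ t in (δ * T)..((1 - δ) * T), (f.h 0 - P t) ^ 2 :=
    mul_le_mul_of_nonneg_left hy2' (by linarith)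
  have h2 : (2 * |f.h 0| + 1) * e2 * T = ε / 2 * T := by rw [← he22]; ring
  rw [h2] at h1
  have h3 : 0 ≤ e1 * (ε / 2 * T) := by positivity
  have h4 : e1 * (k + 1) * ((1 - 2 * δ) * T) ≤ ε / 2 * T := by
    have h5 : (1 - 2 * δ) * T ≤ T := by nlinarith
    have h6 : 0 ≤ (1 - 2 * δ) * T := by
      have : 0 ≤ 1 - 2 * δ := by linarith
      positivity
    calc e1 * (k + 1) * ((1 - 2 * δ) * T) ≤ ε / 2 * ((1 - 2 * δ) * T) :=
          mul_le_mul_of_nonneg_right he12 h6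
      _ ≤ ε / 2 * T := mul_le_mul_of_nonneg_left h5 (by positivity)
  nlinarith

theorem pow4_16 (a b c : ℝ) : (a + b + c) ^ 4 ≤ 27 * (a ^ 4 + b ^ 4 + c ^ 4) := by
  have h1 : (a + b + c) ^ 2 ≤ 3 * (a ^ 2 + b ^ 2 + c ^ 2) := by
    nlinarith [sq_nonneg (a - b), sq_nonneg (b - c), sq_nonneg (a - c)]
  have h2 : (a ^ 2 + b ^ 2 + c ^ 2) ^ 2 ≤ 3 * (a ^ 4 + b ^ 4 + c ^ 4) := by
    nlinarith [sq_nonneg (a ^ 2 - b ^ 2), sq_nonneg (b ^ 2 - c ^ 2), sq_nonneg (a ^ 2 - c ^ 2)]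
  have h3 : 0 ≤ (a + b + c) ^ 2 := sq_nonneg _
  calc (a + b + c) ^ 4 = ((a + b + c) ^ 2) ^ 2 := by ring
    _ ≤ (3 * (a ^ 2 + b ^ 2 + c ^ 2)) ^ 2 := pow_le_pow_left₀ h3 h1 2
    _ = 9 * (a ^ 2 + b ^ 2 + c ^ 2) ^ 2 := by ring
    _ ≤ _ := by linarith

theorem X_fourth (f : TF) : ∃ C : ℝ, 0 < C ∧ ∀ δ : ℝ, 0 < δ → δ < 1 / 2 → ∀ᶠ T : ℝ in atTop,
    ∫ t in Icc (δ * T) ((1 - δ) * T), Xf f.h (Real.log T) t ^ 4 ≤ C * T := by
  obtain ⟨C4, hC4, hC4'⟩ := prs_four f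
  refine ⟨27 * (f.h 0 ^ 4 + 1) + 27 * C4, by positivity, ?_⟩
  intro δ hδ hδ1
  filter_upwards [main_term f hδ one_pos, X_pow_int16 f hδ, hC4', eventually_gt_atTop 1]
    with T hm hX h4 hT1
  have hT0 : 0 < T := by linarith
  have ha0 : 0 ≤ δ * T := by positivity
  have hab : δ * T ≤ (1 - δ) * T := by nlinarith
  have hbT : (1 - δ) * T ≤ T := by nlinarith
  set P : ℝ → ℝ := fun t => prs f.h (Real.log T) t with hP
  have hPc : Continuous P := prs_cont16 _ _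
  have h1 : ∫ t in Icc (δ * T) ((1 - δ) * T), Xf f.h (Real.log T) t ^ 4 ≤
      ∫ t in Icc (δ * T) ((1 - δ) * T), (27 * (f.h 0 ^ 4 + 1) + 27 * P t ^ 4) := by
    refine setIntegral_mono_on (hX 4) ?_ measurableSet_Icc fun t ht => ?_
    · refine Continuous.integrableOn_Icc ?_
      fun_prop
    · have h2 := hm t ⟨ht.1, ht.2.trans hbT⟩
      set e := Xf f.h (Real.log T) t - (f.h 0 - prs f.h (Real.log T) t) with he
      have h3 : Xf f.h (Real.log T) t = f.h 0 + (-P t) + e := by rw [he, hP]; ring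
      rw [h3]
      refine (pow4_16 _ _ _).trans ?_
      have h5 : e ^ 4 ≤ 1 := by
        have h6 : |e| ^ 4 ≤ 1 := pow_le_one₀ (abs_nonneg _) h2
        have h7 : |e| ^ 4 = e ^ 4 := by
          rw [← abs_pow]
          exact abs_of_nonneg (by positivity)
        rwa [h7] at h6
      have h8 : (-P t) ^ 4 = P t ^ 4 := by ring
      rw [h8]
      linarith
  refine h1.trans ?_
  rw [integral_Icc_eq_integral_Ioc, ← intervalIntegral.integral_of_le hab,
    intervalIntegral.integral_add, intervalIntegral.integral_const, smul_eq_mul,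
    intervalIntegral.integral_const_mul (27 : ℝ) (fun t => P t ^ 4)]
  rotate_left
  · exact intervalIntegrable_const
  · exact (continuous_const.mul (hPc.pow 4)).intervalIntegrable _ _
  have h5 : ∫ t in (δ * T)..((1 - δ) * T), P t ^ 4 ≤ ∫ t in (0:ℝ)..T, P t ^ 4 := by
    refine intervalIntegral.integral_mono_interval ha0 hab hbT ?_ ?_
    · exact Filter.Eventually.of_forall fun t => by positivity
    · exact (hPc.pow 4).intervalIntegrable _ _
  have h6 : ((1 - δ) * T - δ * T) * (27 * (f.h 0 ^ 4 + 1)) ≤ T * (27 * (f.h 0 ^ 4 + 1)) := by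
    refine mul_le_mul_of_nonneg_right ?_ (by positivity)
    nlinarith
  have h7 : ∫ t in (0:ℝ)..T, P t ^ 4 ≤ C4 * T := h4
  have h8 : (27 * (f.h 0 ^ 4 + 1) + 27 * C4) * T = T * (27 * (f.h 0 ^ 4 + 1)) + 27 * (C4 * T) := by
    ring
  rw [h8]
  linarith

end Pool.Agent.Helper78.SG
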