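import Pool.Agent.Helper78.SG.KDecay

/-!
# SG-TL: zeros outside `[0, T]` are invisible from the inside

`ker_decay f 4`: `|kz f.h L t ρ| ≤ C e^(|L (β-1/2)|) (1 + L|t-γ|)^(-4)` and `e^(|L(β-1/2)|) ≤ e^(L/2) = T^(1/2)`, `L = log T ≥ 1`. For
`δT ≤ t ≤ (1-δ)T` and `ρ ∉ ZT T` (that is `γ < 0` or `γ > T`: `mem_ZT`) `|t-γ| ≥ δT`, so
`|kz| ≤ C T^(1/2) (δT)^(-2) · 5/(1 + (t-γ)²)`-like, and `∑_F mx ρ/(1 + (t-γ)²) ≤ C Afun t ≤ C' √(1+t)` (`fz_le`-type: finite sums of `fz`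
are `≤ Afun t` by `fz_hasSum`, `Afun_bound`). Total `≤ C'' T^(1/2) T^(-2) T^(1/2) → 0`.
-/

open MeasureTheory Set Filter Topology
open Pool.Agent.Helper57.Zeta Pool.Agent.Helper57.PC Pool.Agent.Helper57.LH
open scoped ContDiff

namespace Pool.Agent.Helper78.SG

theorem tail_small (f : TF) {δ ε : ℝ} (hδ : 0 < δ) (hδ1 : δ < 1 / 2) (hε : 0 < ε) :
    ∀ᶠ T : ℝ in atTop, ∀ t ∈ Icc (δ * T) ((1 - δ) * T), ∀ F : Finset ZS, (∀ ρ ∈ F, ρ ∉ ZT T) →
      ∑ ρ ∈ F, mx ρ * |kz f.h (Real.log T) t ρ| ≤ ε := by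
  obtain ⟨C, hC, hker⟩ := ker_decay f 4
  have hCA : 0 ≤ CA := by
    have h := (abs_nonneg _).trans (Afun_bound 0)
    have h2 : Pool.Agent.Helper57.LH.wg 0 = 1 := by
      unfold Pool.Agent.Helper57.LH.wg
      simp
    rw [h2, mul_one] at h
    exact h
  filter_upwards [eventually_ge_atTop (Real.exp 1), eventually_ge_atTop (1:ℝ),
    eventually_ge_atTop (8 * C * CA / (δ ^ 2 * ε))] with T hTe hT1 hTb
  intro t ht F hF
  have hT0 : 0 < T := by linarith
  have hL1 : 1 ≤ Real.log T := by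
    rw [Real.le_log_iff_exp_le hT0]
    exact hTe
  set L := Real.log T with hL
  have hdT : 0 < δ * T := mul_pos hδ hT0
  have hexp : Real.exp (L / 2) = Real.sqrt T := by
    rw [hL, Real.sqrt_eq_rpow, Real.rpow_def_of_pos hT0]
    congr 1
    ring
  have hterm : ∀ ρ ∈ F, mx ρ * |kz f.h L t ρ| ≤ (4 * C * Real.sqrt T / (δ * T) ^ 2) * fz ρ t := by
    intro ρ hρ
    have hre := zs_re ρ
    have hd : δ * T ≤ |t - (ρ:ℂ).im| := by
      have hn := hF ρ hρ
      rw [mem_ZT, not_and_or, not_le, not_le] at hn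
      rcases hn with h | h
      · rw [abs_of_nonneg (by linarith [ht.1])]
        linarith [ht.1]
      · rw [abs_sub_comm, abs_of_nonneg (by linarith [ht.2])]
        linarith [ht.2]
    set d := |t - (ρ:ℂ).im| with hdd
    have hd0 : 0 < d := lt_of_lt_of_le hdT hd
    have hk := hker (L * ((ρ:ℂ).re - 1 / 2)) (L * (t - (ρ:ℂ).im))
    have ha : |L * ((ρ:ℂ).re - 1 / 2)| ≤ L / 2 := by
      rw [abs_mul, abs_of_nonneg (by linarith : (0:ℝ) ≤ L)]
      have : |(ρ:ℂ).re - 1 / 2| ≤ 1 / 2 := by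
        rw [abs_le]
        constructor <;> linarith
      nlinarith
    have hu : d ≤ |L * (t - (ρ:ℂ).im)| := by
      rw [abs_mul, abs_of_nonneg (by linarith : (0:ℝ) ≤ L), ← hdd]
      nlinarith
    have h4 : (δ * T) ^ 2 * (1 + d ^ 2) ≤ (1 + |L * (t - (ρ:ℂ).im)|) ^ 4 := by
      have h5 : (1 + d) ^ 4 ≤ (1 + |L * (t - (ρ:ℂ).im)|) ^ 4 := by
        apply pow_le_pow_left₀ (by linarith)
        linarith
      have h6 : (δ * T) ^ 2 ≤ (1 + d) ^ 2 := by
        apply pow_le_pow_left₀ hdT.le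
        linarith
      have h7 : 1 + d ^ 2 ≤ (1 + d) ^ 2 := by nlinarith
      calc (δ * T) ^ 2 * (1 + d ^ 2) ≤ (1 + d) ^ 2 * (1 + d) ^ 2 := by
            apply mul_le_mul h6 h7 (by positivity) (by positivity)
        _ = (1 + d) ^ 4 := by ring
        _ ≤ _ := h5
    have hpos : 0 < (δ * T) ^ 2 * (1 + d ^ 2) := by positivity
    have hkz : |kz f.h L t ρ| ≤ C * Real.sqrt T / ((δ * T) ^ 2 * (1 + d ^ 2)) := by
      unfold kz
      refine hk.trans ?_
      apply div_le_div₀ (by positivity) _ hpos h4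
      apply mul_le_mul_of_nonneg_left _ hC.le
      rw [← hexp]
      exact Real.exp_le_exp.2 ha
    have hfz : mx ρ / (1 + d ^ 2) ≤ 4 * fz ρ t := by
      unfold fz
      have hm := mx_nonneg (ρ : ℂ)
      have hsq : (t - (ρ:ℂ).im) ^ 2 = d ^ 2 := by rw [hdd, sq_abs]
      rw [hsq]
      have h8 : 1 / (1 + d ^ 2) ≤ 4 * ((2 - (ρ:ℂ).re) / ((2 - (ρ:ℂ).re) ^ 2 + d ^ 2)) := by
        rw [← mul_div_assoc, div_le_div_iff₀ (by positivity) (by
          have : 0 < (2 - (ρ:ℂ).re) ^ 2 := by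
            apply pow_pos; linarith
          positivity)]
        have h9 : (2 - (ρ:ℂ).re) ^ 2 ≤ 4 := by nlinarith
        have h10 : 1 ≤ 2 - (ρ:ℂ).re := by linarith
        nlinarith [sq_nonneg d, mul_nonneg (sq_nonneg d) (by linarith : (0:ℝ) ≤ 2 - (ρ:ℂ).re - 1)]
      calc mx ρ / (1 + d ^ 2) = mx ρ * (1 / (1 + d ^ 2)) := by ring
        _ ≤ mx ρ * (4 * ((2 - (ρ:ℂ).re) / ((2 - (ρ:ℂ).re) ^ 2 + d ^ 2))) :=
            mul_le_mul_of_nonneg_left h8 hm
        _ = _ := by ring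
    calc mx ρ * |kz f.h L t ρ| ≤ mx ρ * (C * Real.sqrt T / ((δ * T) ^ 2 * (1 + d ^ 2))) :=
          mul_le_mul_of_nonneg_left hkz (mx_nonneg _)
      _ = (C * Real.sqrt T / (δ * T) ^ 2) * (mx ρ / (1 + d ^ 2)) := by
          have h1d : (1 + d ^ 2) ≠ 0 := by positivity
          field_simp
      _ ≤ (C * Real.sqrt T / (δ * T) ^ 2) * (4 * fz ρ t) := by
          apply mul_le_mul_of_nonneg_left hfz
          positivity
      _ = _ := by ring
  have hsum := Finset.sum_le_sum hterm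
  rw [← Finset.mul_sum] at hsum
  refine hsum.trans ?_
  have hA : ∑ ρ ∈ F, fz ρ t ≤ CA * Real.sqrt (1 + |t|) := by
    refine (sum_le_hasSum F (fun i _ => fz_nonneg i t) (fz_hasSum t)).trans ?_
    exact (le_abs_self _).trans (Afun_bound t)
  have ht0 : 0 ≤ t := le_trans hdT.le ht.1
  have htT : t ≤ T := by nlinarith [ht.2]
  have hs1 : Real.sqrt (1 + |t|) ≤ Real.sqrt (1 + T) := by
    apply Real.sqrt_le_sqrt
    rw [abs_of_nonneg ht0]
    linarith
  have hs2 : Real.sqrt T * Real.sqrt (1 + T) ≤ 2 * T := by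
    rw [← Real.sqrt_mul hT0.le]
    rw [Real.sqrt_le_left (by linarith)]
    nlinarith
  calc (4 * C * Real.sqrt T / (δ * T) ^ 2) * ∑ ρ ∈ F, fz ρ t
      ≤ (4 * C * Real.sqrt T / (δ * T) ^ 2) * (CA * Real.sqrt (1 + T)) := by
        apply mul_le_mul_of_nonneg_left _ (by positivity)
        exact hA.trans (mul_le_mul_of_nonneg_left hs1 hCA)
    _ = (4 * C * CA / (δ * T) ^ 2) * (Real.sqrt T * Real.sqrt (1 + T)) := by ring
    _ ≤ (4 * C * CA / (δ * T) ^ 2) * (2 * T) := by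
        apply mul_le_mul_of_nonneg_left hs2
        positivity
    _ = 8 * C * CA / (δ ^ 2 * T) := by
        field_simp
        ring
    _ ≤ ε := by
        rw [div_le_iff₀ (by positivity)]
        rw [div_le_iff₀ (by positivity)] at hTb
        nlinarith

end Pool.Agent.Helper78.SG
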