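import Pool.Agent.Helper78.SG.Defs

/-!
# SG-EM: exponential moment of the depth of the zeros

Input: `Qbound` (D.lean, section LocE): for `B = 9600` there is a continuous `Ψ ≥ 0` with `∫_{RA T} Ψ ≤ C T/B⁴` and, for all `τ ∈ RA T`
(`10 ≤ |τ| ≤ 3T`) and all finite sets `F` of zeros with `Re ≥ 1/2`, `log T |Im ρ - τ| ≤ 1`:
`(∑_F m Wt B (log T (Re ρ - 1/2)))² ≤ Ψ τ`, `Wt B v = (v/B)² e^(v/B)`. Let `L = log T`.
For `F` = zeros of `ZT T` with `Re ≥ 1/2`, `Im ρ ≥ 11`: integrate over `τ`: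
`(2/L) ∑_F m Wt = ∫ ∑_{F, L|Im ρ - τ| ≤ 1} m Wt dτ ≤ ∫_{RA T} √Ψ ≤ √(6T) √(C T/B⁴)`, so `∑_F m Wt ≤ C' T L`.
For all `v ≥ 0`: `e^(v/(2B)) ≤ 2 + Wt B v` (if `v ≥ B` then `Wt ≥ e^(v/B)`, if `v ≤ B` then `e^(1/2) ≤ 2`). `∑_{ZT T} m = NT T ≤ T L`
(`sum_ZT_mx`, `NT_le_ev`). Zeros with `Im ρ ≤ 11`: bounded number (`NT 11`), each weight `≤ e^(κ L/2) ≤ T`.
Zeros with `Re < 1/2`: reflection `refl` (`refl_re`, `refl_im`, `refl_mx`) preserves `ZT T` and the weight. Take `κ = 1/19200`.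
-/

open MeasureTheory Set Filter Topology
open Pool.Agent.Helper57.Zeta Pool.Agent.Helper57.PC Pool.Agent.Helper57.LH
open scoped ContDiff

namespace Pool.Agent.Helper78.SG

theorem exp_le_Wt {v : ℝ} (_hv : 0 ≤ v) : Real.exp (1 / 19200 * v) ≤ 2 + Wt 9600 v := by
  by_cases h : 9600 ≤ v
  · have h1 : 1 ≤ v / 9600 := by rw [le_div_iff₀ (by norm_num)]; linarith
    have h2 : Real.exp (1 / 19200 * v) ≤ Real.exp (v / 9600) := by
      apply Real.exp_le_exp.mpr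
      linarith
    have h3 : Real.exp (v / 9600) ≤ Wt 9600 v := by
      unfold Wt
      have h4 : 1 ≤ (v / 9600) ^ 2 := one_le_pow₀ h1
      exact le_mul_of_one_le_left (Real.exp_pos _).le h4
    linarith
  · have h' : v < 9600 := lt_of_not_ge h
    have h1 : Real.exp (1 / 19200 * v) ≤ Real.exp (1 / 2) := by
      apply Real.exp_le_exp.mpr
      linarith
    have h2 : Real.exp (1 / 2) ^ 2 < 4 := by
      rw [← Real.exp_nat_mul]
      have h3 : ((2 : ℕ) : ℝ) * (1 / 2) = 1 := by norm_num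
      rw [h3]
      have := Real.exp_one_lt_d9
      linarith
    have h3 : Real.exp (1 / 2) ≤ 2 := by
      nlinarith [Real.exp_pos (1 / 2)]
    have h4 := Wt_nonneg 9600 v
    linarith

open Classical in
/-- The zeros of the right half, high up. -/
noncomputable def FB (T : ℝ) : Finset ZS := (ZT T).filter (fun ρ => 1 / 2 ≤ (ρ : ℂ).re ∧ 11 ≤ (ρ : ℂ).im)

theorem big_part : ∃ C : ℝ, 0 < C ∧ ∀ᶠ T : ℝ in atTop,
    ∑ ρ ∈ FB T, mx ρ * Wt 9600 (Real.log T * ((ρ : ℂ).re - 1 / 2)) ≤ C * (T * Real.log T) := by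
  classical
  obtain ⟨CQ, hCQ, T0, hT0, hQ⟩ := Qbound
  refine ⟨3 + CQ, by linarith, ?_⟩
  have hl := Real.tendsto_log_atTop
  filter_upwards [eventually_ge_atTop T0, eventually_ge_atTop (400:ℝ), hl.eventually_ge_atTop 40] with T g1 g2 g3
  obtain ⟨Ψ, hΨc, hΨ0, hΨi, hΨd⟩ := hQ T g1 9600 le_rfl
  set L := Real.log T with hL
  have hL0 : 0 < L := by linarith
  have hT0' : 0 < T := by linarith
  have hLi : 1 / L ≤ 1 := by rw [div_le_one hL0]; linarith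
  have hLi0 : 0 < 1 / L := by positivity
  -- the local sums
  let a : ZS → ℝ := fun ρ => mx ρ * Wt 9600 (L * ((ρ : ℂ).re - 1 / 2))
  let Sf : ℝ → ℝ := fun τ => ∑ ρ ∈ FB T, (Icc ((ρ : ℂ).im - 1 / L) ((ρ : ℂ).im + 1 / L)).indicator (fun _ => a ρ) τ
  have ha0 : ∀ ρ, 0 ≤ a ρ := fun ρ => mul_nonneg (mx_nonneg _) (Wt_nonneg _ _)
  have hFB : ∀ ρ ∈ FB T, 1 / 2 ≤ (ρ : ℂ).re ∧ 11 ≤ (ρ : ℂ).im ∧ (ρ : ℂ).im ≤ T := by
    intro ρ hρ
    unfold FB at hρ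
    rw [Finset.mem_filter, mem_ZT] at hρ
    exact ⟨hρ.2.1, hρ.2.2, hρ.1.2⟩
  have hmem : ∀ (ρ : ZS) (τ : ℝ), τ ∈ Icc ((ρ : ℂ).im - 1 / L) ((ρ : ℂ).im + 1 / L) ↔ L * |(ρ : ℂ).im - τ| ≤ 1 := by
    intro ρ τ
    rw [mem_Icc, ← le_div_iff₀' hL0, abs_le]
    constructor
    · rintro ⟨h1, h2⟩
      constructor <;> linarith
    · rintro ⟨h1, h2⟩
      constructor <;> linarith
  have hSeq : ∀ τ, Sf τ = ∑ ρ ∈ ((FB T).filter (fun ρ : ZS => L * |(ρ : ℂ).im - τ| ≤ 1)).map (Function.Embedding.subtype _),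
      (analyticOrderNatAt xi ρ : ℝ) * Wt 9600 (L * (ρ.re - 1 / 2)) := by
    intro τ
    rw [Finset.sum_map, Finset.sum_filter]
    refine Finset.sum_congr rfl fun ρ _ => ?_
    by_cases h : L * |(ρ : ℂ).im - τ| ≤ 1
    · rw [Set.indicator_of_mem ((hmem ρ τ).mpr h), if_pos h]
      rfl
    · rw [Set.indicator_of_notMem (fun h' => h ((hmem ρ τ).mp h')), if_neg h]
  have hSq : ∀ τ ∈ RA T, Sf τ ^ 2 ≤ Ψ τ := by
    intro τ hτ
    rw [hSeq]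
    apply hΨd τ hτ
    intro ρ hρ
    rw [Finset.mem_map] at hρ
    obtain ⟨ρ', hρ', rfl⟩ := hρ
    rw [Finset.mem_filter] at hρ'
    exact ⟨ρ'.2, (hFB ρ' hρ'.1).1, hρ'.2⟩
  have hsub : ∀ ρ ∈ FB T, Icc ((ρ : ℂ).im - 1 / L) ((ρ : ℂ).im + 1 / L) ⊆ RA T := by
    intro ρ hρ τ hτ
    obtain ⟨_, h1, h2⟩ := hFB ρ hρ
    obtain ⟨h3, h4⟩ := hτ
    have h5 : 0 ≤ τ := by linarith
    constructor
    · rw [abs_of_nonneg h5]; linarith
    · rw [abs_of_nonneg h5]; linarith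
  have hint : ∀ ρ ∈ FB T, IntegrableOn ((Icc ((ρ : ℂ).im - 1 / L) ((ρ : ℂ).im + 1 / L)).indicator (fun _ => a ρ)) (RA T) := by
    intro ρ _
    apply Integrable.indicator _ measurableSet_Icc
    exact ion continuous_const T
  have hval : ∫ τ in RA T, Sf τ = 2 / L * ∑ ρ ∈ FB T, a ρ := by
    change ∫ τ in RA T, ∑ ρ ∈ FB T, (Icc ((ρ : ℂ).im - 1 / L) ((ρ : ℂ).im + 1 / L)).indicator (fun _ => a ρ) τ = _
    rw [integral_finsetSum _ hint, Finset.mul_sum]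
    refine Finset.sum_congr rfl fun ρ hρ => ?_
    rw [setIntegral_indicator measurableSet_Icc, Set.inter_eq_self_of_subset_right (hsub ρ hρ), setIntegral_const,
      Real.volume_real_Icc_of_le (by linarith), smul_eq_mul]
    ring
  have hSint : IntegrableOn Sf (RA T) := integrable_finsetSum _ hint
  have hle : ∫ τ in RA T, Sf τ ≤ ∫ τ in RA T, (1 / 2 * 1 + 1 / 2 * Ψ τ) := by
    apply setIntegral_mono_on hSint _ (RA_meas T)
    · intro τ hτ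
      have h1 := hSq τ hτ
      nlinarith [sq_nonneg (Sf τ - 1)]
    · exact ion (by fun_prop) T
  have hR : ∫ τ in RA T, (1 / 2 * 1 + 1 / 2 * Ψ τ) = 1 / 2 * (∫ _ in RA T, (1:ℝ)) + 1 / 2 * ∫ τ in RA T, Ψ τ := by
    rw [integral_add (ion (by fun_prop) T) (ion (by fun_prop) T), integral_const_mul, integral_const_mul]
  have hV := RA_vol hT0'.le
  have hB : CQ * (T / 9600 ^ 4) ≤ CQ * T := by
    apply mul_le_mul_of_nonneg_left _ hCQ.le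
    exact div_le_self hT0'.le (by norm_num)
  have hfin : 2 / L * ∑ ρ ∈ FB T, a ρ ≤ 3 * T + 1 / 2 * (CQ * T) := by
    rw [← hval]
    refine hle.trans ?_
    rw [hR]
    linarith
  change ∑ ρ ∈ FB T, a ρ ≤ (3 + CQ) * (T * L)
  have h1 : ∑ ρ ∈ FB T, a ρ = L / 2 * (2 / L * ∑ ρ ∈ FB T, a ρ) := by
    field_simp
  rw [h1]
  calc L / 2 * (2 / L * ∑ ρ ∈ FB T, a ρ) ≤ L / 2 * (3 * T + 1 / 2 * (CQ * T)) := by
        apply mul_le_mul_of_nonneg_left hfin (by positivity)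
    _ ≤ (3 + CQ) * (T * L) := by
        have : 0 ≤ T * L := by positivity
        nlinarith [mul_nonneg hCQ.le this]

open Classical in
/-- All zeros of the right half. -/
noncomputable def FR (T : ℝ) : Finset ZS := (ZT T).filter (fun ρ => 1 / 2 ≤ (ρ : ℂ).re)

theorem right_part : ∃ C : ℝ, 0 < C ∧ ∀ᶠ T : ℝ in atTop,
    ∑ ρ ∈ FR T, mx ρ * Wt 9600 (Real.log T * ((ρ : ℂ).re - 1 / 2)) ≤ C * (T * Real.log T) := by
  classical
  obtain ⟨C, hC, hb⟩ := big_part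
  have hN := NT_nonneg 11
  refine ⟨C + NT 11, by linarith, ?_⟩
  have hl := Real.tendsto_log_atTop
  filter_upwards [hb, eventually_ge_atTop (400:ℝ), hl.eventually_ge_atTop 40, log_pow_le 1 2 (s := 1/2) (by norm_num)]
    with T g1 g2 g3 g4
  set L := Real.log T with hL
  have hL0 : 0 < L := by linarith
  have hT0' : 0 < T := by linarith
  have h1 : FR T ⊆ FB T ∪ ZT 11 := by
    intro ρ hρ
    unfold FR at hρ
    rw [Finset.mem_filter] at hρ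
    rw [Finset.mem_union]
    by_cases h : 11 ≤ (ρ : ℂ).im
    · left
      unfold FB
      rw [Finset.mem_filter]
      exact ⟨hρ.1, hρ.2, h⟩
    · right
      rw [mem_ZT] at hρ ⊢
      exact ⟨hρ.1.1, (not_le.mp h).le⟩
  have h2 : ∑ ρ ∈ FR T, mx ρ * Wt 9600 (L * ((ρ : ℂ).re - 1 / 2)) ≤
      ∑ ρ ∈ FB T, mx ρ * Wt 9600 (L * ((ρ : ℂ).re - 1 / 2)) + ∑ ρ ∈ ZT 11, mx ρ * Wt 9600 (L * ((ρ : ℂ).re - 1 / 2)) := by
    have hn : ∀ ρ : ZS, 0 ≤ mx ρ * Wt 9600 (L * ((ρ : ℂ).re - 1 / 2)) := fun ρ => mul_nonneg (mx_nonneg _) (Wt_nonneg _ _)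
    refine (Finset.sum_le_sum_of_subset_of_nonneg h1 fun ρ _ _ => hn ρ).trans ?_
    rw [← Finset.sum_union_inter]
    have : 0 ≤ ∑ ρ ∈ FB T ∩ ZT 11, mx ρ * Wt 9600 (L * ((ρ : ℂ).re - 1 / 2)) := Finset.sum_nonneg fun ρ _ => hn ρ
    linarith
  have h3 : ∑ ρ ∈ ZT 11, mx ρ * Wt 9600 (L * ((ρ : ℂ).re - 1 / 2)) ≤ NT 11 * T := by
    rw [← sum_ZT_mx, Finset.sum_mul]
    refine Finset.sum_le_sum fun ρ _ => ?_
    apply mul_le_mul_of_nonneg_left _ (mx_nonneg _)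
    have hz := xi_eq_zero_iff.mp ρ.2
    have e1 : |L * ((ρ : ℂ).re - 1 / 2) / 9600| ≤ L / 2 := by
      rw [abs_div, abs_mul, abs_of_pos hL0, abs_of_pos (by norm_num : (0:ℝ) < 9600), div_le_iff₀ (by norm_num)]
      have e2 : |(ρ : ℂ).re - 1 / 2| ≤ 1 / 2 := by
        rw [abs_le]; constructor <;> linarith [hz.1, hz.2.1]
      nlinarith [abs_nonneg ((ρ : ℂ).re - 1 / 2)]
    have e3 : (L * ((ρ : ℂ).re - 1 / 2) / 9600) ^ 2 ≤ L ^ 2 := by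
      rw [← sq_abs (L * ((ρ : ℂ).re - 1 / 2) / 9600)]
      have := abs_nonneg (L * ((ρ : ℂ).re - 1 / 2) / 9600)
      nlinarith
    have e4 : Real.exp (L * ((ρ : ℂ).re - 1 / 2) / 9600) ≤ T ^ (1 / 2 : ℝ) := by
      rw [Real.rpow_def_of_pos hT0', ← hL]
      apply Real.exp_le_exp.mpr
      have := le_abs_self (L * ((ρ : ℂ).re - 1 / 2) / 9600)
      linarith
    unfold Wt
    calc (L * ((ρ : ℂ).re - 1 / 2) / 9600) ^ 2 * Real.exp (L * ((ρ : ℂ).re - 1 / 2) / 9600) ≤ L ^ 2 * T ^ (1 / 2 : ℝ) := by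
          gcongr
      _ ≤ T := by
          rw [one_mul] at g4
          exact g4
  have h4 : NT 11 * T ≤ NT 11 * (T * L) := by
    apply mul_le_mul_of_nonneg_left _ hN
    nlinarith
  linarith

theorem exp_moment : ∃ κ C : ℝ, 0 < κ ∧ 0 < C ∧ ∀ᶠ T : ℝ in atTop,
    ∑ ρ ∈ ZT T, mx ρ * Real.exp (κ * |Real.log T * ((ρ : ℂ).re - 1 / 2)|) ≤ C * (T * Real.log T) := by
  classical
  obtain ⟨C, hC, hb⟩ := right_part
  refine ⟨1 / 19200, 2 + 2 * C, by norm_num, by linarith, ?_⟩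
  filter_upwards [hb, NT_le_ev, Real.tendsto_log_atTop.eventually_ge_atTop 40] with T g1 g2 g3
  set L := Real.log T with hL
  have hL0 : 0 < L := by linarith
  have h1 : ∑ ρ ∈ ZT T, mx ρ * Real.exp (1 / 19200 * |L * ((ρ : ℂ).re - 1 / 2)|) ≤
      ∑ ρ ∈ ZT T, (2 * mx ρ + mx ρ * Wt 9600 |L * ((ρ : ℂ).re - 1 / 2)|) := by
    refine Finset.sum_le_sum fun ρ _ => ?_
    have := mul_le_mul_of_nonneg_left (exp_le_Wt (abs_nonneg (L * ((ρ : ℂ).re - 1 / 2)))) (mx_nonneg ρ)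
    linarith
  rw [Finset.sum_add_distrib, ← Finset.mul_sum, sum_ZT_mx] at h1
  have h2 : ∑ ρ ∈ ZT T, mx ρ * Wt 9600 |L * ((ρ : ℂ).re - 1 / 2)| ≤
      2 * ∑ ρ ∈ FR T, mx ρ * Wt 9600 (L * ((ρ : ℂ).re - 1 / 2)) := by
    rw [← Finset.sum_filter_add_sum_filter_not (ZT T) (fun ρ : ZS => 1 / 2 ≤ (ρ : ℂ).re)]
    have e1 : ∑ ρ ∈ (ZT T).filter (fun ρ : ZS => 1 / 2 ≤ (ρ : ℂ).re), mx ρ * Wt 9600 |L * ((ρ : ℂ).re - 1 / 2)| =
        ∑ ρ ∈ FR T, mx ρ * Wt 9600 (L * ((ρ : ℂ).re - 1 / 2)) := by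
      refine Finset.sum_congr rfl fun ρ hρ => ?_
      rw [FR, Finset.mem_filter] at hρ
      rw [abs_of_nonneg (mul_nonneg hL0.le (by linarith [hρ.2]))]
    have e2 : ∑ ρ ∈ (ZT T).filter (fun ρ : ZS => ¬ 1 / 2 ≤ (ρ : ℂ).re), mx ρ * Wt 9600 |L * ((ρ : ℂ).re - 1 / 2)| ≤
        ∑ ρ ∈ FR T, mx ρ * Wt 9600 (L * ((ρ : ℂ).re - 1 / 2)) := by
      have e3 : ∑ ρ ∈ (ZT T).filter (fun ρ : ZS => ¬ 1 / 2 ≤ (ρ : ℂ).re), mx ρ * Wt 9600 |L * ((ρ : ℂ).re - 1 / 2)| =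
          ∑ ρ ∈ ((ZT T).filter (fun ρ : ZS => ¬ 1 / 2 ≤ (ρ : ℂ).re)).map refl.toEmbedding,
            mx ρ * Wt 9600 (L * ((ρ : ℂ).re - 1 / 2)) := by
        rw [Finset.sum_map]
        refine Finset.sum_congr rfl fun ρ hρ => ?_
        rw [Finset.mem_filter] at hρ
        change _ = mx (refl ρ) * Wt 9600 (L * ((refl ρ : ℂ).re - 1 / 2))
        rw [refl_mx, refl_re, abs_of_nonpos (mul_nonpos_of_nonneg_of_nonpos hL0.le (by linarith [hρ.2]))]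
        congr 2
        ring
      rw [e3]
      apply Finset.sum_le_sum_of_subset_of_nonneg
      · intro ρ hρ
        rw [Finset.mem_map] at hρ
        obtain ⟨ρ', hρ', rfl⟩ := hρ
        rw [Finset.mem_filter, mem_ZT] at hρ'
        unfold FR
        rw [Finset.mem_filter, mem_ZT]
        change (0 ≤ (refl ρ' : ℂ).im ∧ (refl ρ' : ℂ).im ≤ T) ∧ 1 / 2 ≤ (refl ρ' : ℂ).re
        rw [refl_im, refl_re]
        exact ⟨hρ'.1, by linarith [hρ'.2]⟩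
      · intro ρ _ _
        exact mul_nonneg (mx_nonneg _) (Wt_nonneg _ _)
    linarith
  have h3 : (2 + 2 * C) * (T * L) = 2 * (T * L) + 2 * (C * (T * L)) := by ring
  rw [h3]
  linarith

end Pool.Agent.Helper78.SG
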