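import Pool.Agent.Helper78.SG.WeakInt
import Pool.Agent.Helper78.SG.ExpMoment

/-!
# SG-WT: rare zeros are harmless in measure

Take `κ, C` from `exp_moment` and `r = min (κ/2) 1`. Chebyshev with the power `r`: with `L = log T`, `g = ∑_F m |kz|`,
`vol {g > η} ≤ η^(-r) ∫ g^r ≤ η^(-r) (C'/L) ∑_F m e^(r|a_ρ|)`, and by Cauchy-Schwarz
`∑_F m e^(r|a|) ≤ (∑_F m)^(1/2) (∑_{ZT T} m e^(2r|a|))^(1/2) ≤ (p T L)^(1/2) (C T L)^(1/2)`, so `vol ≤ η^(-r) C' (C p)^(1/2) T ≤ ε T` for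
`p` small.
-/

open MeasureTheory Set Filter Topology
open Pool.Agent.Helper57.Zeta Pool.Agent.Helper57.PC Pool.Agent.Helper57.LH
open scoped ContDiff

namespace Pool.Agent.Helper78.SG

/-- Cauchy-Schwarz for weighted exponential sums -/
lemma weak_cs {ι : Type*} (F : Finset ι) (m a : ι → ℝ) (hm : ∀ i, 0 ≤ m i) (r : ℝ) :
    ∑ i ∈ F, m i * Real.exp (r * a i) ≤
      Real.sqrt (∑ i ∈ F, m i) * Real.sqrt (∑ i ∈ F, m i * Real.exp (2 * r * a i)) := by
  have h := Real.sum_mul_le_sqrt_mul_sqrt F (fun i => Real.sqrt (m i))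
    (fun i => Real.sqrt (m i) * Real.exp (r * a i))
  have e1 : ∑ i ∈ F, Real.sqrt (m i) * (Real.sqrt (m i) * Real.exp (r * a i)) =
      ∑ i ∈ F, m i * Real.exp (r * a i) := by
    refine Finset.sum_congr rfl fun i _ => ?_
    rw [← mul_assoc, Real.mul_self_sqrt (hm i)]
  have e2 : ∑ i ∈ F, Real.sqrt (m i) ^ 2 = ∑ i ∈ F, m i :=
    Finset.sum_congr rfl fun i _ => Real.sq_sqrt (hm i)
  have e3 : ∑ i ∈ F, (Real.sqrt (m i) * Real.exp (r * a i)) ^ 2 =
      ∑ i ∈ F, m i * Real.exp (2 * r * a i) := by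
    refine Finset.sum_congr rfl fun i _ => ?_
    rw [mul_pow, Real.sq_sqrt (hm i), ← Real.exp_nat_mul]
    congr 2
    push_cast
    ring
  rw [e1, e2, e3] at h
  exact h

/-- Chebyshev inequality with a power -/
lemma weak_cheb (g : ℝ → ℝ) (hg : ∀ t, 0 ≤ g t) {r η : ℝ} (hr : 0 < r) (hη : 0 < η)
    (hint : Integrable (fun t => g t ^ r)) {A : ℝ} (hA : ∫ t, g t ^ r ≤ A) :
    volume {t : ℝ | η < g t} ≤ ENNReal.ofReal (A / η ^ r) := by
  have hηr : 0 < η ^ r := Real.rpow_pos_of_pos hη r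
  have hsub : {t : ℝ | η < g t} ⊆ {t : ℝ | ENNReal.ofReal (η ^ r) ≤ ENNReal.ofReal (g t ^ r)} := by
    intro t ht
    exact ENNReal.ofReal_le_ofReal (Real.rpow_le_rpow hη.le (le_of_lt ht) hr.le)
  refine le_trans (measure_mono hsub) ?_
  have hmeas : AEMeasurable (fun t => ENNReal.ofReal (g t ^ r)) volume :=
    hint.aestronglyMeasurable.aemeasurable.ennreal_ofReal
  have h1 := meas_ge_le_lintegral_div hmeas (ε := ENNReal.ofReal (η ^ r))
    (by rw [Ne, ENNReal.ofReal_eq_zero, not_le]; exact hηr) ENNReal.ofReal_ne_top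
  refine le_trans h1 ?_
  rw [← ofReal_integral_eq_lintegral_ofReal hint
    (Filter.Eventually.of_forall fun t => Real.rpow_nonneg (hg t) r),
    ← ENNReal.ofReal_div_of_pos hηr]
  exact ENNReal.ofReal_le_ofReal (div_le_div_of_nonneg_right hA hηr.le)

theorem weak_type (f : TF) {η ε : ℝ} (hη : 0 < η) (hε : 0 < ε) : ∃ p : ℝ, 0 < p ∧ ∀ᶠ T : ℝ in atTop,
    ∀ F : Finset ZS, F ⊆ ZT T → ∑ ρ ∈ F, mx ρ ≤ p * (T * Real.log T) →
      volume {t : ℝ | η < ∑ ρ ∈ F, mx ρ * |kz f.h (Real.log T) t ρ|} ≤ ENNReal.ofReal (ε * T) := by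
  obtain ⟨κ, C, hκ, hC, hexp⟩ := exp_moment
  obtain ⟨r, hr⟩ : ∃ r, r = min (κ / 2) 1 := ⟨_, rfl⟩
  have hr0 : 0 < r := by
    rw [hr]
    exact lt_min (by linarith) one_pos
  have hr1 : r ≤ 1 := by
    rw [hr]
    exact min_le_right _ _
  have hrκ : 2 * r ≤ κ := by
    have : r ≤ κ / 2 := by
      rw [hr]
      exact min_le_left _ _
    linarith
  obtain ⟨C', hC', hint⟩ := int_rpow f hr0 hr1
  have hηr : 0 < η ^ r := Real.rpow_pos_of_pos hη r
  refine ⟨(ε * η ^ r / C') ^ 2 / C, by positivity, ?_⟩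
  filter_upwards [hexp, eventually_ge_atTop (Real.exp 1)] with T hT hTe F hF hsum
  have hT0 : 0 < T := lt_of_lt_of_le (Real.exp_pos 1) hTe
  have hL : 1 ≤ Real.log T := by
    rw [Real.le_log_iff_exp_le hT0]
    exact hTe
  have hL0 : 0 < Real.log T := by linarith
  obtain ⟨hi, hb⟩ := hint (Real.log T) hL F
  have hTL : 0 < T * Real.log T := by positivity
  have hcs := weak_cs F (fun ρ => mx ρ)
    (fun ρ => |Real.log T * ((ρ : ℂ).re - 1 / 2)|) (fun ρ => mx_nonneg ρ) r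
  have hs2 : ∑ ρ ∈ F, mx ρ * Real.exp (2 * r * |Real.log T * ((ρ : ℂ).re - 1 / 2)|) ≤
      C * (T * Real.log T) := by
    calc ∑ ρ ∈ F, mx ρ * Real.exp (2 * r * |Real.log T * ((ρ : ℂ).re - 1 / 2)|)
        ≤ ∑ ρ ∈ F, mx ρ * Real.exp (κ * |Real.log T * ((ρ : ℂ).re - 1 / 2)|) := by
          refine Finset.sum_le_sum fun ρ _ => ?_
          refine mul_le_mul_of_nonneg_left ?_ (mx_nonneg _)
          exact Real.exp_le_exp.2 (mul_le_mul_of_nonneg_right hrκ (abs_nonneg _))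
      _ ≤ ∑ ρ ∈ ZT T, mx ρ * Real.exp (κ * |Real.log T * ((ρ : ℂ).re - 1 / 2)|) :=
          Finset.sum_le_sum_of_subset_of_nonneg hF
            (fun ρ _ _ => mul_nonneg (mx_nonneg _) (Real.exp_pos _).le)
      _ ≤ C * (T * Real.log T) := hT
  have hmain : ∑ ρ ∈ F, mx ρ * Real.exp (r * |Real.log T * ((ρ : ℂ).re - 1 / 2)|) ≤
      ε * η ^ r / C' * (T * Real.log T) := by
    refine le_trans hcs ?_
    calc Real.sqrt (∑ ρ ∈ F, mx ρ) *
          Real.sqrt (∑ ρ ∈ F, mx ρ * Real.exp (2 * r * |Real.log T * ((ρ : ℂ).re - 1 / 2)|))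
        ≤ Real.sqrt ((ε * η ^ r / C') ^ 2 / C * (T * Real.log T)) *
          Real.sqrt (C * (T * Real.log T)) := by
          apply mul_le_mul (Real.sqrt_le_sqrt hsum) (Real.sqrt_le_sqrt hs2) (Real.sqrt_nonneg _)
            (Real.sqrt_nonneg _)
      _ = Real.sqrt ((ε * η ^ r / C' * (T * Real.log T)) ^ 2) := by
          rw [← Real.sqrt_mul (by positivity)]
          congr 1
          field_simp
      _ = ε * η ^ r / C' * (T * Real.log T) := Real.sqrt_sq (by positivity)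
  have hA : ∫ t, (∑ ρ ∈ F, mx ρ * |kz f.h (Real.log T) t ρ|) ^ r ≤ ε * η ^ r * T := by
    refine le_trans hb ?_
    calc C' / Real.log T * ∑ ρ ∈ F, mx ρ * Real.exp (r * |Real.log T * ((ρ : ℂ).re - 1 / 2)|)
        ≤ C' / Real.log T * (ε * η ^ r / C' * (T * Real.log T)) :=
          mul_le_mul_of_nonneg_left hmain (by positivity)
      _ = ε * η ^ r * T := by
          field_simp
  have hfin := weak_cheb (fun t => ∑ ρ ∈ F, mx ρ * |kz f.h (Real.log T) t ρ|)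
    (fun t => Finset.sum_nonneg fun ρ _ => mul_nonneg (mx_nonneg _) (abs_nonneg _)) hr0 hη hi hA
  have e : ε * η ^ r * T / η ^ r = ε * T := by
    field_simp
  rw [e] at hfin
  exact hfin

end Pool.Agent.Helper78.SG
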