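import Pool.Agent.Helper78.SG.Defs

/-!
# SG-KD: decay of the kernel

With `K(z) = ∫ h(y) e^(z y) dy`, `ker h a u = (Re K(a + i u) + Re K(-a + i u)) / 2` and integration by parts
gives `z^k K(z) = (-1)^k ∫ h^(k)(y) e^(z y) dy`, so `|u|^k |K(z)| ≤ C e^(|a|)`.
-/

open MeasureTheory Set Filter Topology
open Pool.Agent.Helper57.Zeta Pool.Agent.Helper57.PC Pool.Agent.Helper57.LH
open scoped ContDiff

namespace Pool.Agent.Helper78.SG

section kdaux

private noncomputable def KK (g : ℝ → ℝ) (z : ℂ) : ℂ := ∫ y : ℝ, (g y : ℂ) * Complex.exp (z * y)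

private theorem integrable_cs {g : ℝ → ℝ} (hg : Continuous g) (hs : HasCompactSupport g) (z : ℂ) :
    Integrable (fun y : ℝ => (g y : ℂ) * Complex.exp (z * y)) := by
  have hc : Continuous (fun y : ℝ => (g y : ℂ) * Complex.exp (z * y)) := by fun_prop
  refine hc.integrable_of_hasCompactSupport ?_
  have h1 : HasCompactSupport (fun y : ℝ => (g y : ℂ)) :=
    hs.comp_left (g := fun x : ℝ => (x : ℂ)) (by simp)
  exact h1.mul_right

private theorem KK_step {g : ℝ → ℝ} (hg : ContDiff ℝ ∞ g) (hs : HasCompactSupport g) (z : ℂ) :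
    z * KK g z = - KK (deriv g) z := by
  have hd : Differentiable ℝ g := hg.differentiable (by simp)
  have hg' : ContDiff ℝ ∞ (deriv g) := by
    have := hg.iterate_deriv 1
    simpa using this
  have hu : ∀ y : ℝ, HasDerivAt (fun y : ℝ => (g y : ℂ)) ((deriv g y : ℝ) : ℂ) y := fun y =>
    (hd y).hasDerivAt.ofReal_comp
  have hv : ∀ y : ℝ, HasDerivAt (fun y : ℝ => Complex.exp (z * y)) (z * Complex.exp (z * y)) y := by
    intro y
    have h1 : HasDerivAt (fun y : ℝ => z * (y : ℂ)) z y := by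
      simpa using (Complex.ofRealCLM.hasDerivAt (x := y)).const_mul z
    have h2 := h1.cexp
    rwa [mul_comm] at h2
  have hi1 : Integrable ((fun y : ℝ => (g y : ℂ)) * fun y : ℝ => z * Complex.exp (z * y)) := by
    have := (integrable_cs hg.continuous hs z).const_mul z
    refine this.congr (Eventually.of_forall fun y => ?_)
    simp only [Pi.mul_apply]
    ring
  have hi2 : Integrable ((fun y : ℝ => ((deriv g y : ℝ) : ℂ)) * fun y : ℝ => Complex.exp (z * y)) :=
    integrable_cs hg'.continuous hs.deriv z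
  have hi3 : Integrable ((fun y : ℝ => (g y : ℂ)) * fun y : ℝ => Complex.exp (z * y)) :=
    integrable_cs hg.continuous hs z
  have key := integral_mul_deriv_eq_deriv_mul_of_integrable (fun y _ => hu y) (fun y _ => hv y) hi1 hi2 hi3
  rw [KK, KK, ← key, ← integral_const_mul]
  congr 1
  ext y
  ring

private theorem KK_iter {g : ℝ → ℝ} (hg : ContDiff ℝ ∞ g) (hs : HasCompactSupport g) (z : ℂ)
    (k : ℕ) : ‖z‖ ^ k * ‖KK g z‖ = ‖KK (deriv^[k] g) z‖ := by
  induction k generalizing g with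
  | zero => simp
  | succ k ih =>
    have hg' : ContDiff ℝ ∞ (deriv g) := by
      have := hg.iterate_deriv 1
      simpa using this
    rw [Function.iterate_succ_apply, ← ih hg' hs.deriv, ← norm_neg (KK (deriv g) z),
      ← KK_step hg hs z, norm_mul]
    ring

private theorem KK_le {g : ℝ → ℝ} (hg : Continuous g) (hs : ∀ y, 1 ≤ |y| → g y = 0) (z : ℂ) :
    ‖KK g z‖ ≤ (∫ y, |g y|) * Real.exp |z.re| := by
  have hcs : HasCompactSupport g := by
    refine HasCompactSupport.of_support_subset_isCompact (isCompact_Icc (a := (-1:ℝ)) (b := 1)) ?_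
    intro y hy
    by_contra hcon
    have : 1 ≤ |y| := by
      rw [Set.mem_Icc, not_and_or] at hcon
      rcases hcon with h | h
      · rw [abs_of_nonpos (by linarith)]; linarith
      · rw [abs_of_nonneg (by linarith)]; linarith
    exact hy (hs y this)
  have h1 : ‖KK g z‖ ≤ ∫ y, ‖(g y : ℂ) * Complex.exp (z * y)‖ := norm_integral_le_integral_norm _
  have h2 : (∫ y, ‖(g y : ℂ) * Complex.exp (z * y)‖) ≤ ∫ y, |g y| * Real.exp |z.re| := by
    refine integral_mono (integrable_cs hg hcs z).norm ?_ ?_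
    · exact ((hg.abs.integrable_of_hasCompactSupport hcs.abs).mul_const _)
    · intro y
      simp only [norm_mul, Complex.norm_real, Real.norm_eq_abs, Complex.norm_exp]
      rcases le_or_gt 1 |y| with h | h
      · rw [hs y h]; simp
      · refine mul_le_mul_of_nonneg_left ?_ (abs_nonneg _)
        rw [Real.exp_le_exp]
        have h3 : (z * (y : ℂ)).re = z.re * y := by simp
        rw [h3]
        refine (le_abs_self _).trans ?_
        rw [abs_mul]
        calc |z.re| * |y| ≤ |z.re| * 1 := mul_le_mul_of_nonneg_left h.le (abs_nonneg _)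
          _ = |z.re| := mul_one _
  rw [integral_mul_const] at h2
  exact h1.trans h2

private theorem iter_zero {g : ℝ → ℝ} {r : ℝ} (hs : ∀ y, r < |y| → g y = 0) (k : ℕ) :
    ∀ y, r < |y| → (deriv^[k] g) y = 0 := by
  induction k generalizing g with
  | zero => exact hs
  | succ k ih =>
    rw [Function.iterate_succ_apply]
    apply ih
    intro y hy
    have h1 : g =ᶠ[𝓝 y] fun _ => 0 := by
      have ho : IsOpen {y : ℝ | r < |y|} := isOpen_lt continuous_const continuous_abs
      filter_upwards [ho.mem_nhds hy] with x hx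
      exact hs x hx
    rw [h1.deriv_eq]
    simp

private theorem ker_eq (h : ℝ → ℝ) (hc : Continuous h) (hs : HasCompactSupport h) (a u : ℝ) :
    ker h a u = ((KK h ⟨a, u⟩).re + (KK h ⟨-a, u⟩).re) / 2 := by
  have h1 := integrable_cs hc hs ⟨a, u⟩
  have h2 := integrable_cs hc hs ⟨-a, u⟩
  have e1 : (KK h ⟨a, u⟩).re = ∫ y : ℝ, ((h y : ℂ) * Complex.exp (⟨a, u⟩ * y)).re := by
    rw [KK]
    exact (integral_re h1).symm
  have e2 : (KK h ⟨-a, u⟩).re = ∫ y : ℝ, ((h y : ℂ) * Complex.exp (⟨-a, u⟩ * y)).re := by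
    rw [KK]
    exact (integral_re h2).symm
  have i1 : Integrable (fun y : ℝ => ((h y : ℂ) * Complex.exp (⟨a, u⟩ * y)).re) := h1.re
  have i2 : Integrable (fun y : ℝ => ((h y : ℂ) * Complex.exp (⟨-a, u⟩ * y)).re) := h2.re
  rw [e1, e2, ← integral_add i1 i2, ← integral_div, ker]
  congr 1
  ext y
  have f1 : ∀ b : ℝ, ((h y : ℂ) * Complex.exp ((⟨b, u⟩ : ℂ) * y)).re =
      h y * (Real.exp (b * y) * Real.cos (u * y)) := by
    intro b
    rw [Complex.re_ofReal_mul, Complex.exp_re]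
    simp
  rw [f1, f1, Real.cosh_eq]
  have : -(a * y) = -a * y := by ring
  rw [this]
  ring

end kdaux

theorem ker_decay (f : TF) (k : ℕ) :
    ∃ C : ℝ, 0 < C ∧ ∀ a u : ℝ, |ker f.h a u| ≤ C * Real.exp |a| / (1 + |u|) ^ k := by
  have hsupp : ∀ y, f.th < |y| → f.h y = 0 := fun y hy => f.supp y hy.le
  have hcs : HasCompactSupport f.h := by
    refine HasCompactSupport.of_support_subset_isCompact (isCompact_Icc (a := -f.th) (b := f.th)) ?_
    intro y hy
    by_contra hcon
    have : f.th ≤ |y| := by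
      rw [Set.mem_Icc, not_and_or] at hcon
      have := f.th0
      rcases hcon with h | h
      · rw [abs_of_nonpos (by linarith)]; linarith
      · rw [abs_of_nonneg (by linarith)]; linarith
    exact hy (f.supp y this)
  obtain ⟨I, hI⟩ : ∃ I : ℕ → ℝ, ∀ j, I j = ∫ y, |(deriv^[j] f.h) y| := ⟨_, fun _ => rfl⟩
  have hI0 : ∀ j, 0 ≤ I j := fun j => by
    rw [hI]
    exact integral_nonneg fun y => abs_nonneg _
  have hK : ∀ (z : ℂ) (j : ℕ), ‖z‖ ^ j * ‖KK f.h z‖ ≤ I j * Real.exp |z.re| := by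
    intro z j
    rw [KK_iter f.smooth hcs z j, hI]
    refine KK_le ?_ ?_ z
    · exact (f.smooth.iterate_deriv j).continuous
    · intro y hy
      refine iter_zero hsupp j y ?_
      have := f.th1
      linarith
  refine ⟨2 ^ k * (I 0 + I k) + 1, by have := hI0 0; have := hI0 k; positivity, ?_⟩
  intro a u
  have hmain : ∀ b : ℝ, |b| = |a| → |(KK f.h ⟨b, u⟩).re| * (1 + |u|) ^ k ≤
      2 ^ k * (I 0 + I k) * Real.exp |a| := by
    intro b hb
    have h0 := hK ⟨b, u⟩ 0
    have h1 := hK ⟨b, u⟩ k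
    simp only [pow_zero, one_mul] at h0
    rw [hb] at h0 h1
    have hre : |(KK f.h ⟨b, u⟩).re| ≤ ‖KK f.h ⟨b, u⟩‖ := Complex.abs_re_le_norm _
    have hu : |u| ≤ ‖(⟨b, u⟩ : ℂ)‖ := Complex.abs_im_le_norm (⟨b, u⟩ : ℂ)
    have hpow : (1 + |u|) ^ k ≤ 2 ^ k * (1 + |u| ^ k) := by
      rcases le_total |u| 1 with h | h
      · calc (1 + |u|) ^ k ≤ (2:ℝ) ^ k := pow_le_pow_left₀ (by positivity) (by linarith) k
          _ = 2 ^ k * 1 := by ring
          _ ≤ _ := mul_le_mul_of_nonneg_left (by have := pow_nonneg (abs_nonneg u) k; linarith)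
              (by positivity)
      · calc (1 + |u|) ^ k ≤ (2 * |u|) ^ k := pow_le_pow_left₀ (by positivity) (by linarith) k
          _ = 2 ^ k * |u| ^ k := by rw [mul_pow]
          _ ≤ _ := mul_le_mul_of_nonneg_left (by linarith) (by positivity)
    have hku : |u| ^ k * ‖KK f.h ⟨b, u⟩‖ ≤ I k * Real.exp |a| :=
      (mul_le_mul_of_nonneg_right (pow_le_pow_left₀ (abs_nonneg u) hu k) (norm_nonneg _)).trans h1
    calc |(KK f.h ⟨b, u⟩).re| * (1 + |u|) ^ k
        ≤ ‖KK f.h ⟨b, u⟩‖ * (2 ^ k * (1 + |u| ^ k)) := by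
          refine mul_le_mul hre hpow (by positivity) (norm_nonneg _)
      _ = 2 ^ k * (‖KK f.h ⟨b, u⟩‖ + |u| ^ k * ‖KK f.h ⟨b, u⟩‖) := by ring
      _ ≤ 2 ^ k * (I 0 * Real.exp |a| + I k * Real.exp |a|) :=
          mul_le_mul_of_nonneg_left (add_le_add h0 hku) (by positivity)
      _ = _ := by ring
  have hm1 := hmain a rfl
  have hm2 := hmain (-a) (abs_neg a)
  rw [le_div_iff₀ (by positivity), ker_eq f.h f.smooth.continuous hcs a u, abs_div]
  have h2 : |(2:ℝ)| = 2 := by norm_num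
  rw [h2]
  have h3 := abs_add_le (KK f.h ⟨a, u⟩).re (KK f.h ⟨-a, u⟩).re
  have hpos : 0 ≤ (1 + |u|) ^ k := by positivity
  have h4 := mul_le_mul_of_nonneg_right h3 hpos
  have h5 := Real.exp_pos |a|
  calc |(KK f.h ⟨a, u⟩).re + (KK f.h ⟨-a, u⟩).re| / 2 * (1 + |u|) ^ k
      = (|(KK f.h ⟨a, u⟩).re + (KK f.h ⟨-a, u⟩).re| * (1 + |u|) ^ k) / 2 := by ring
    _ ≤ (2 ^ k * (I 0 + I k) * Real.exp |a| + 2 ^ k * (I 0 + I k) * Real.exp |a|) / 2 := by
        refine div_le_div_of_nonneg_right ?_ (by norm_num)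
        linarith
    _ = 2 ^ k * (I 0 + I k) * Real.exp |a| := by ring
    _ ≤ (2 ^ k * (I 0 + I k) + 1) * Real.exp |a| := by nlinarith

end Pool.Agent.Helper78.SG
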