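import Pool.Agent.Helper78.SG.Defs

/-!
# SG-PA: Parseval

`F(u) = ker f.h 0 u = ∫ h(y) cos(u y) dy = ∫ h(y) e^(i u y) dy` (`h` even) is the Fourier transform of a smooth compactly supported function,
so it is integrable and square integrable, and `∫ F(u - a) F(u - b) du = 2π ∫ h(y)² cos((a - b) y) dy = 2π ker (h²) 0 (a - b)` (Plancherel).
Substitute `u = L t`: `∫ ker f.h 0 (L(t - g)) ker f.h 0 (L(t - g')) dt = (2π/L) ker (h²) 0 (L(g - g'))`. Expand the square.
(Mathlib: Plancherel/Parseval for Schwartz functions or for L¹ ∩ L²; or use the multiplication formula and Fourier inversion; the library does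
a similar thing for the Fejer kernel: `gs_pair`, `inv_even`, `conv_tri`.)
-/

open MeasureTheory Set Filter Topology
open Pool.Agent.Helper57.Zeta Pool.Agent.Helper57.PC Pool.Agent.Helper57.LH
open scoped ContDiff FourierTransform SchwartzMap

namespace Pool.Agent.Helper78.SG

/-- a test function has compact support -/
lemma pa_hcs (f : TF) : HasCompactSupport f.h := by
  refine HasCompactSupport.of_support_subset_isCompact (isCompact_Icc (a := -f.th) (b := f.th)) ?_
  intro x hx
  by_contra hne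
  apply hx
  apply f.supp
  by_contra h
  push Not at h
  exact hne ⟨(abs_lt.mp h).1.le, (abs_lt.mp h).2.le⟩

/-- an even continuous compactly supported function against the exponential -/
lemma pa_even {h : ℝ → ℝ} (hc : Continuous h) (hs : HasCompactSupport h) (he : ∀ x, h (-x) = h x) (c : ℝ) :
    Integrable (fun v : ℝ => (h v : ℂ) * Complex.exp ((c * v : ℝ) * Complex.I)) ∧
    ∫ v : ℝ, (h v : ℂ) * Complex.exp ((c * v : ℝ) * Complex.I) = ((ker h 0 c : ℝ) : ℂ) := by
  have hi1 : Integrable (fun v : ℝ => h v * Real.cos (c * v)) :=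
    (hc.mul (by fun_prop)).integrable_of_hasCompactSupport hs.mul_right
  have hi2 : Integrable (fun v : ℝ => h v * Real.sin (c * v)) :=
    (hc.mul (by fun_prop)).integrable_of_hasCompactSupport hs.mul_right
  have hodd : ∫ v : ℝ, h v * Real.sin (c * v) = 0 := by
    have h1 : ∫ v : ℝ, h v * Real.sin (c * v) = ∫ v : ℝ, h (-v) * Real.sin (c * (-v)) :=
      (integral_neg_eq_self (fun v : ℝ => h v * Real.sin (c * v)) volume).symm
    have h2 : ∫ v : ℝ, h (-v) * Real.sin (c * (-v)) = - ∫ v : ℝ, h v * Real.sin (c * v) := by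
      rw [← integral_neg]
      refine integral_congr_ae (Eventually.of_forall fun v => ?_)
      simp only [he, mul_neg, Real.sin_neg]
    linarith
  have hpt : ∀ v : ℝ, (h v : ℂ) * Complex.exp ((c * v : ℝ) * Complex.I) =
      ((h v * Real.cos (c * v) : ℝ) : ℂ) + ((h v * Real.sin (c * v) : ℝ) : ℂ) * Complex.I := by
    intro v
    rw [Complex.exp_mul_I]
    push_cast
    ring
  constructor
  · simp_rw [hpt]
    exact hi1.ofReal.add (hi2.ofReal.mul_const _)
  · simp_rw [hpt]
    rw [integral_add hi1.ofReal (hi2.ofReal.mul_const _), integral_mul_const, integral_complex_ofReal,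
      integral_complex_ofReal, hodd]
    simp only [Complex.ofReal_zero, zero_mul, add_zero]
    congr 1
    unfold ker
    refine integral_congr_ae (Eventually.of_forall fun v => ?_)
    simp

/-- the function whose Fourier transform is the sum -/
noncomputable def paK (f : TF) {ι : Type*} (s : Finset ι) (c : ι → ℝ) (y : ℝ) : ℂ :=
  (f.h y : ℂ) * ∑ i ∈ s, Complex.exp ((c i * y : ℝ) * Complex.I)

lemma paK_cs (f : TF) {ι : Type*} (s : Finset ι) (c : ι → ℝ) : HasCompactSupport (paK f s c) := by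
  have : HasCompactSupport (fun y : ℝ => (f.h y : ℂ)) := (pa_hcs f).comp_left (g := fun x : ℝ => (x : ℂ)) (by simp)
  exact this.mul_right

lemma paK_smooth (f : TF) {ι : Type*} (s : Finset ι) (c : ι → ℝ) : ContDiff ℝ ∞ (paK f s c) := by
  unfold paK
  refine ContDiff.mul ?_ ?_
  · exact Complex.ofRealCLM.contDiff.comp f.smooth
  · refine ContDiff.sum fun i _ => ?_
    refine ContDiff.cexp ?_
    refine ContDiff.mul ?_ contDiff_const
    exact Complex.ofRealCLM.contDiff.comp (contDiff_const.mul contDiff_id)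

/-- the Fourier transform -/
lemma paK_fourier (f : TF) {ι : Type*} (s : Finset ι) (c : ι → ℝ) (ξ : ℝ) :
    𝓕 (paK f s c) ξ = ((∑ i ∈ s, ker f.h 0 (2 * Real.pi * ξ - c i) : ℝ) : ℂ) := by
  rw [Real.fourier_real_eq_integral_exp_smul]
  have hpt : ∀ v : ℝ, Complex.exp ((-2 * Real.pi * v * ξ : ℝ) * Complex.I) • paK f s c v =
      ∑ i ∈ s, (f.h v : ℂ) * Complex.exp (((c i - 2 * Real.pi * ξ) * v : ℝ) * Complex.I) := by
    intro v
    unfold paK
    rw [smul_eq_mul, Finset.mul_sum, Finset.mul_sum]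
    refine Finset.sum_congr rfl fun i _ => ?_
    rw [mul_left_comm, ← Complex.exp_add]
    congr 2
    push_cast
    ring
  simp_rw [hpt]
  rw [integral_finsetSum]
  · rw [Complex.ofReal_sum]
    refine Finset.sum_congr rfl fun i _ => ?_
    rw [(pa_even f.smooth.continuous (pa_hcs f) f.even _).2]
    congr 1
    unfold ker
    refine integral_congr_ae (Eventually.of_forall fun v => ?_)
    have : (c i - 2 * Real.pi * ξ) * v = -((2 * Real.pi * ξ - c i) * v) := by ring
    simp only [this, Real.cos_neg]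
  · intro i _
    exact (pa_even f.smooth.continuous (pa_hcs f) f.even _).1

/-- the square of the norm -/
lemma paK_norm (f : TF) {ι : Type*} (s : Finset ι) (c : ι → ℝ) (y : ℝ) :
    ((‖paK f s c y‖ ^ 2 : ℝ) : ℂ) =
      ∑ i ∈ s, ∑ j ∈ s, ((f.h y ^ 2 : ℝ) : ℂ) * Complex.exp (((c i - c j) * y : ℝ) * Complex.I) := by
  have h1 : ((‖paK f s c y‖ ^ 2 : ℝ) : ℂ) = paK f s c y * (starRingEnd ℂ) (paK f s c y) := by
    rw [Complex.mul_conj, Complex.normSq_eq_norm_sq]
  rw [h1]
  unfold paK
  rw [map_mul, map_sum, Complex.conj_ofReal]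
  have h2 : ∀ j, (starRingEnd ℂ) (Complex.exp ((c j * y : ℝ) * Complex.I)) = Complex.exp (-((c j * y : ℝ) * Complex.I)) := by
    intro j
    rw [← Complex.exp_conj, map_mul, Complex.conj_ofReal, Complex.conj_I, mul_neg]
  simp_rw [h2]
  have h3 : (f.h y : ℂ) * ∑ i ∈ s, Complex.exp ((c i * y : ℝ) * Complex.I) *
      ((f.h y : ℂ) * ∑ j ∈ s, Complex.exp (-((c j * y : ℝ) * Complex.I))) =
      ((f.h y ^ 2 : ℝ) : ℂ) * ((∑ i ∈ s, Complex.exp ((c i * y : ℝ) * Complex.I)) *
        ∑ j ∈ s, Complex.exp (-((c j * y : ℝ) * Complex.I))) := by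
    rw [← Finset.sum_mul]
    push_cast
    ring
  have h4 : (f.h y : ℂ) * (∑ i ∈ s, Complex.exp ((c i * y : ℝ) * Complex.I)) *
      ((f.h y : ℂ) * ∑ j ∈ s, Complex.exp (-((c j * y : ℝ) * Complex.I))) =
      ((f.h y ^ 2 : ℝ) : ℂ) * ((∑ i ∈ s, Complex.exp ((c i * y : ℝ) * Complex.I)) *
        ∑ j ∈ s, Complex.exp (-((c j * y : ℝ) * Complex.I))) := by
    push_cast
    ring
  rw [h4, Finset.sum_mul_sum, Finset.mul_sum]
  refine Finset.sum_congr rfl fun i _ => ?_
  rw [Finset.mul_sum]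
  refine Finset.sum_congr rfl fun j _ => ?_
  rw [← Complex.exp_add]
  congr 2
  push_cast
  ring

theorem parseval (f : TF) {L : ℝ} (hL : 0 < L) {ι : Type*} (s : Finset ι) (g : ι → ℝ) :
    Integrable (fun t => (∑ i ∈ s, ker f.h 0 (L * (t - g i))) ^ 2) ∧
    ∫ t, (∑ i ∈ s, ker f.h 0 (L * (t - g i))) ^ 2 =
      2 * Real.pi / L * ∑ i ∈ s, ∑ j ∈ s, ker (fun y => f.h y ^ 2) 0 (L * (g i - g j)) := by
  set c : ι → ℝ := fun i => L * g i with hcdef
  set K : 𝓢(ℝ, ℂ) := (paK_cs f s c).toSchwartzMap (paK_smooth f s c) with hK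
  have hKc : (K : ℝ → ℂ) = paK f s c := rfl
  have hF : ∀ ξ : ℝ, 𝓕 K ξ = ((∑ i ∈ s, ker f.h 0 (2 * Real.pi * ξ - c i) : ℝ) : ℂ) := by
    intro ξ
    rw [SchwartzMap.fourier_coe, hKc]
    exact paK_fourier f s c ξ
  have hsq : ∀ ξ : ℝ, ‖𝓕 K ξ‖ ^ 2 = (∑ i ∈ s, ker f.h 0 (2 * Real.pi * ξ - c i)) ^ 2 := by
    intro ξ
    rw [hF, Complex.norm_real, Real.norm_eq_abs, sq_abs]
  have hpl := SchwartzMap.integral_norm_sq_fourier K
  have hint0 : Integrable (fun ξ : ℝ => ‖𝓕 K ξ‖ ^ 2) := by
    have := (𝓕 K).memLp 2 (volume : Measure ℝ)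
    exact this.integrable_norm_pow (by norm_num)
  have hint1 : Integrable (fun ξ : ℝ => (∑ i ∈ s, ker f.h 0 (2 * Real.pi * ξ - c i)) ^ 2) := by
    simpa only [hsq] using hint0
  have hpi : 0 < 2 * Real.pi := by positivity
  have hLp : 0 < L / (2 * Real.pi) := by positivity
  have hrew : ∀ t : ℝ, (∑ i ∈ s, ker f.h 0 (L * (t - g i))) ^ 2 =
      (fun ξ : ℝ => (∑ i ∈ s, ker f.h 0 (2 * Real.pi * ξ - c i)) ^ 2) (L / (2 * Real.pi) * t) := by
    intro t
    simp only [hcdef]
    congr 1
    refine Finset.sum_congr rfl fun i _ => ?_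
    congr 1
    field_simp
  constructor
  · simp_rw [hrew]
    exact hint1.comp_mul_left' hLp.ne'
  · simp_rw [hrew]
    rw [Measure.integral_comp_mul_left (fun ξ : ℝ => (∑ i ∈ s, ker f.h 0 (2 * Real.pi * ξ - c i)) ^ 2)]
    have hval : ∫ ξ : ℝ, (∑ i ∈ s, ker f.h 0 (2 * Real.pi * ξ - c i)) ^ 2 =
        ∑ i ∈ s, ∑ j ∈ s, ker (fun y => f.h y ^ 2) 0 (L * (g i - g j)) := by
      have e1 : ∫ ξ : ℝ, (∑ i ∈ s, ker f.h 0 (2 * Real.pi * ξ - c i)) ^ 2 = ∫ x : ℝ, ‖paK f s c x‖ ^ 2 := by
        rw [← hKc, ← hpl]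
        simp_rw [hsq]
      rw [e1]
      apply Complex.ofReal_injective
      rw [← integral_complex_ofReal]
      simp_rw [paK_norm]
      have hc2 : Continuous (fun y => f.h y ^ 2) := f.smooth.continuous.pow 2
      have hs2 : HasCompactSupport (fun y => f.h y ^ 2) := (pa_hcs f).comp_left (g := fun x : ℝ => x ^ 2) (by simp)
      have he2 : ∀ x, (fun y => f.h y ^ 2) (-x) = (fun y => f.h y ^ 2) x := by
        intro x
        simp only [f.even]
      rw [integral_finsetSum]
      · rw [Complex.ofReal_sum]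
        refine Finset.sum_congr rfl fun i _ => ?_
        rw [integral_finsetSum, Complex.ofReal_sum]
        · refine Finset.sum_congr rfl fun j _ => ?_
          have := (pa_even hc2 hs2 he2 (c i - c j)).2
          rw [mul_sub]
          exact this
        · intro j _
          exact (pa_even hc2 hs2 he2 (c i - c j)).1
      · intro i _
        refine integrable_finsetSum _ fun j _ => ?_
        exact (pa_even hc2 hs2 he2 (c i - c j)).1
    rw [hval, abs_of_pos (by positivity), smul_eq_mul]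
    congr 1
    field_simp

end Pool.Agent.Helper78.SG
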