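import Pool.Agent.Helper78.SG.Defs

/-!
# SG-IS: isolated zeros are simple, on the line, and separated

If `(ρ:ℂ).re ≠ 1/2` then `refl ρ ≠ ρ` has the same ordinate (`refl_re`, `refl_im`), so `ρ` is close (`log T > 0`).
`mx ρ = analyticOrderNatAt xi ρ` is at least `1` because `xi ρ = 0` and `xi` is entire and not identically zero (the order is neither `0`
nor `⊤`; see the uses in the library), and `< 2` since `ρ` is not close.
-/

open MeasureTheory Set Filter Topology
open Pool.Agent.Helper57.Zeta Pool.Agent.Helper57.PC Pool.Agent.Helper57.LH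
open scoped ContDiff

namespace Pool.Agent.Helper78.SG

theorem mx_one_le (ρ : ZS) : 1 ≤ mx ρ := by
  obtain ⟨g, -, hfg, hga⟩ := div_point differentiable_xi xi_two_ne (ρ : ℂ)
  have hn : analyticOrderNatAt xi (ρ : ℂ) ≠ 0 := by
    intro h0
    have h1 := hfg (ρ : ℂ)
    rw [h0, pow_zero, one_mul, ρ.2] at h1
    exact hga h1.symm
  unfold mx
  exact_mod_cast Nat.one_le_iff_ne_zero.2 hn

theorem iso_props {T : ℝ} (hT : 1 < T) {ρ : ZS} (h : ¬ Close T ρ) :
    (ρ : ℂ).re = 1 / 2 ∧ mx ρ = 1 ∧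
      ∀ ρ' : ZS, ρ' ≠ ρ → 83 / 100 < |(ρ : ℂ).im - (ρ' : ℂ).im| * Real.log T / (2 * Real.pi) := by
  unfold Close at h
  push Not at h
  obtain ⟨h1, h2⟩ := h
  refine ⟨?_, ?_, h2⟩
  · by_contra hre
    have hne : refl ρ ≠ ρ := by
      intro he
      have h3 := refl_re ρ
      rw [he] at h3
      exact hre (by linarith)
    have h4 := h2 (refl ρ) hne
    rw [refl_im, sub_self, abs_zero, zero_mul, zero_div] at h4
    norm_num at h4
  · have h3 := mx_one_le ρ
    unfold mx at h3 ⊢
    have h4 : 1 ≤ analyticOrderNatAt xi (ρ : ℂ) := by exact_mod_cast h3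
    have h5 : analyticOrderNatAt xi (ρ : ℂ) = 1 := by omega
    rw [h5]
    norm_num

end Pool.Agent.Helper78.SG
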