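import Pool.Agent.Helper57.M.H

/-!
# SG: unconditional small gaps (MP_8958e8). Definitions.
See the README /team-store/h78_SG_README.md.
-/

open MeasureTheory Set Filter Topology
open Pool.Agent.Helper57.Zeta Pool.Agent.Helper57.PC Pool.Agent.Helper57.LH
open scoped ContDiff

namespace Pool.Agent.Helper78.SG

/-- Test functions on the frequency side: smooth, even, supported in `[-th, th]`, `th < 1/2`. -/
structure TF where
  h : ℝ → ℝ
  th : ℝ
  smooth : ContDiff ℝ ∞ h
  even : ∀ x, h (-x) = h x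
  th0 : 0 < th
  th1 : th < 1 / 2
  supp : ∀ x, th ≤ |x| → h x = 0

/-- The kernel at depth `a` and distance `u`. -/
noncomputable def ker (h : ℝ → ℝ) (a u : ℝ) : ℝ := ∫ y, h y * (Real.cosh (a * y) * Real.cos (u * y))

/-- The contribution of a zero `ρ` seen from height `t`. -/
noncomputable def kz (h : ℝ → ℝ) (L t : ℝ) (ρ : ℂ) : ℝ := ker h (L * (ρ.re - 1 / 2)) (L * (t - ρ.im))

/-- The coefficients of the prime sum. -/
noncomputable def co (h : ℝ → ℝ) (L : ℝ) (n : ℕ) : ℝ :=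
  2 / L * (ArithmeticFunction.vonMangoldt n / Real.sqrt n * h (Real.log n / L))

/-- The prime sum. -/
noncomputable def prs (h : ℝ → ℝ) (L t : ℝ) : ℝ :=
  ∑ n ∈ Finset.range (NX (L / 2) + 1), co h L n * Real.cos (Real.log n * t)

/-- The sum over all zeros, evaluated by the explicit formula. -/
noncomputable def Xf (h : ℝ → ℝ) (L t : ℝ) : ℝ :=
  1 / L * (∫ y in (0:ℝ)..(1 / 2), y * deriv (deriv h) y * MT (L * y) t) - prs h L t

/-- The constant `κ`. -/
noncomputable def kap0 (h : ℝ → ℝ) : ℝ := h 0 ^ 2 + 2 * ∫ y in (0:ℝ)..(1 / 2), y * h y ^ 2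

/-- Close zeros at height `T`: multiple, or another zero within `0.83` mean spacings. -/
def Close (T : ℝ) (ρ : ZS) : Prop :=
  2 ≤ analyticOrderNatAt xi (ρ : ℂ) ∨
    ∃ ρ' : ZS, ρ' ≠ ρ ∧ |(ρ : ℂ).im - (ρ' : ℂ).im| * Real.log T / (2 * Real.pi) ≤ 83 / 100

end Pool.Agent.Helper78.SG
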