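import Pool.Agent.Helper78.SG.Taylor

/-!
# SG-PR: the prime side of the explicit formula

For `0 < y ≤ 1/2`: `PS (L y) t = ∑_{n < NX(L/2)+1} ap (L y) n cos(t log n)` (`PS_eq`, `ap_zero_ge`, `NX (L y) ≤ NX (L/2)`) and
`ap (L y) n = (2/(L y)) (Λ n/√n) max(0, 1 - log n/(L y))` for `n ≥ 1` (from the definition `ap X n = cV n * kpp X (log n)`;
`ap _ 0 = 0`). So `∫_0^{1/2} y² h''(y) ap (L y) n dy = (2/L)(Λ n/√n) ∫_{ξ}^{1/2} (y - ξ) h''(y) dy = (2/L)(Λ n/√n) h(ξ)` with
`ξ = log n/L ∈ [0, 1/2]` (`taylor`), for `1 ≤ n ≤ NX (L/2)`.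
-/

open MeasureTheory Set Filter Topology
open Pool.Agent.Helper57.Zeta Pool.Agent.Helper57.PC Pool.Agent.Helper57.LH
open scoped ContDiff

namespace Pool.Agent.Helper78.SG

/-- the integrand on `(0, 1/2]` as a finite sum of continuous functions -/
noncomputable def psG (f : TF) (L t y : ℝ) : ℝ :=
  ∑ n ∈ Finset.range (NX (L / 2) + 1),
    (2 / L * (ArithmeticFunction.vonMangoldt n / Real.sqrt n) * Real.cos (Real.log n * t)) *
      (max 0 (y - Real.log n / L) * deriv (deriv f.h) y)

theorem psG_cont (f : TF) (L t : ℝ) : Continuous (psG f L t) := by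
  unfold psG
  have h := d2_cont f
  fun_prop

theorem ps_ap {L y : ℝ} (hL : 0 < L) (hy0 : 0 < y) (n : ℕ) :
    y ^ 2 * ap (L * y) n =
      2 / L * (ArithmeticFunction.vonMangoldt n / Real.sqrt n) * max 0 (y - Real.log n / L) := by
  have hX : 0 < L * y := by positivity
  rcases Nat.lt_or_ge n 1 with h | h
  · rw [ap_zero_lt (by omega)]
    have : n = 0 := by omega
    subst this
    simp
  have hn0 : (0:ℝ) < n := by exact_mod_cast h
  rcases lt_or_ge (NX (L * y)) n with h2 | h2
  · rw [ap_zero_ge hX h2]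
    have h3 : Real.exp (L * y) < n := (Nat.floor_lt (Real.exp_pos _).le).mp h2
    have h4 : L * y < Real.log n := by rwa [Real.lt_log_iff_exp_lt hn0]
    have h5 : y - Real.log n / L ≤ 0 := by
      rw [sub_nonpos, le_div_iff₀ hL]; linarith
    rw [max_eq_left h5]; ring
  · rw [ap_eq hX h h2]
    have h3 : (n:ℝ) ≤ Real.exp (L * y) := (Nat.le_floor_iff (Real.exp_pos _).le).mp h2
    have h4 : Real.log n ≤ L * y := by rwa [Real.log_le_iff_le_exp hn0]
    have h5 : 0 ≤ y - Real.log n / L := by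
      rw [sub_nonneg, div_le_iff₀ hL]; linarith
    rw [max_eq_right h5]
    have hs0 := Real.sqrt_pos.mpr hn0
    field_simp

theorem ps_integrand (f : TF) {L y : ℝ} (hL : 0 < L) (t : ℝ) (hy0 : 0 < y) (hy1 : y ≤ 1 / 2) :
    y ^ 2 * deriv (deriv f.h) y * PS (L * y) t = psG f L t y := by
  have hX : 0 < L * y := by positivity
  have hle : NX (L * y) ≤ NX (L / 2) := by
    unfold NX
    exact Nat.floor_le_floor (Real.exp_le_exp.mpr (by nlinarith))
  have h1 : PS (L * y) t = ∑ n ∈ Finset.range (NX (L / 2) + 1), ap (L * y) n * Real.cos (Real.log n * t) := by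
    rw [PS_eq hX]
    apply Finset.sum_subset
    · intro n hn
      rw [Finset.mem_range] at hn ⊢
      omega
    · intro n _ hn
      rw [Finset.mem_range] at hn
      rw [ap_zero_ge hX (by omega)]
      ring
  rw [h1, psG, Finset.mul_sum]
  refine Finset.sum_congr rfl fun n _ => ?_
  have h2 := ps_ap hL hy0 n
  calc y ^ 2 * deriv (deriv f.h) y * (ap (L * y) n * Real.cos (Real.log n * t))
      = (y ^ 2 * ap (L * y) n) * (deriv (deriv f.h) y * Real.cos (Real.log n * t)) := by ring
    _ = _ := by rw [h2]; ring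

theorem prime_integrable (f : TF) {L : ℝ} (hL : 0 < L) (t : ℝ) :
    IntervalIntegrable (fun y => y ^ 2 * deriv (deriv f.h) y * PS (L * y) t) volume 0 (1 / 2) := by
  have h := (psG_cont f L t).intervalIntegrable (μ := volume) 0 (1 / 2)
  refine h.congr ?_
  intro y hy
  rw [Set.uIoc_of_le (by norm_num)] at hy
  exact (ps_integrand f hL t hy.1 hy.2).symm

theorem ps_taylor (f : TF) {z : ℝ} (hz0 : 0 ≤ z) (hz : z ≤ 1 / 2) :
    ∫ y in (0:ℝ)..(1 / 2), max 0 (y - z) * deriv (deriv f.h) y = f.h z := by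
  have hd := d2_cont f
  have hc : Continuous fun y => max 0 (y - z) * deriv (deriv f.h) y := by fun_prop
  rw [← intervalIntegral.integral_add_adjacent_intervals (hc.intervalIntegrable 0 z)
    (hc.intervalIntegrable z (1 / 2))]
  have h1 : ∫ y in (0:ℝ)..z, max 0 (y - z) * deriv (deriv f.h) y = 0 := by
    have h0 : ∫ y in (0:ℝ)..z, max 0 (y - z) * deriv (deriv f.h) y = ∫ _y in (0:ℝ)..z, (0:ℝ) := by
      refine intervalIntegral.integral_congr fun y hy => ?_
      rw [Set.uIcc_of_le hz0] at hy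
      change max 0 (y - z) * deriv (deriv f.h) y = 0
      rw [max_eq_left (by linarith [hy.2]), zero_mul]
    rw [h0, intervalIntegral.integral_zero]
  have h2 : ∫ y in z..(1 / 2), max 0 (y - z) * deriv (deriv f.h) y = f.h z := by
    rw [← taylor f hz]
    refine intervalIntegral.integral_congr fun y hy => ?_
    rw [Set.uIcc_of_le hz] at hy
    change max 0 (y - z) * deriv (deriv f.h) y = (y - z) * deriv (deriv f.h) y
    rw [max_eq_right (by linarith [hy.1])]
  rw [h1, h2, zero_add]

theorem prime_side (f : TF) {L : ℝ} (hL : 0 < L) (t : ℝ) :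
    ∫ y in (0:ℝ)..(1 / 2), y ^ 2 * deriv (deriv f.h) y * PS (L * y) t = prs f.h L t := by
  have h1 : ∫ y in (0:ℝ)..(1 / 2), y ^ 2 * deriv (deriv f.h) y * PS (L * y) t =
      ∫ y in (0:ℝ)..(1 / 2), psG f L t y := by
    refine intervalIntegral.integral_congr_ae ?_
    refine Filter.Eventually.of_forall fun y hy => ?_
    rw [Set.uIoc_of_le (by norm_num)] at hy
    exact ps_integrand f hL t hy.1 hy.2
  rw [h1]
  unfold psG prs
  have hd := d2_cont f
  rw [intervalIntegral.integral_finsetSum]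
  · refine Finset.sum_congr rfl fun n hn => ?_
    rw [intervalIntegral.integral_const_mul]
    rw [Finset.mem_range] at hn
    rcases Nat.lt_or_ge n 1 with h | h
    · have : n = 0 := by omega
      subst this
      simp [co]
    · have hn0 : (0:ℝ) < n := by exact_mod_cast h
      have hn1 : (1:ℝ) ≤ n := by exact_mod_cast h
      have h3 : (n:ℝ) ≤ Real.exp (L / 2) := (Nat.le_floor_iff (Real.exp_pos _).le).mp (by unfold NX at hn; omega)
      have h4 : Real.log n ≤ L / 2 := by rwa [Real.log_le_iff_le_exp hn0]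
      rw [ps_taylor f (div_nonneg (Real.log_nonneg hn1) hL.le) (by rw [div_le_iff₀ hL]; linarith)]
      unfold co
      ring
  · intro n _
    exact Continuous.intervalIntegrable (by fun_prop) _ _

end Pool.Agent.Helper78.SG
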