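import Pool.Agent.Helper78.SG.Super
import Pool.Agent.Helper78.SG.PrimeSide

/-!
# SG-EX: the explicit formula for smooth test functions

Library: `explicit (hX : 0 < X) t : HasSum (fun ρ : ZS => mx ρ * gs X ((ρ:ℂ).re - 1/2) (t - (ρ:ℂ).im)) (MT X t / X - PS X t)`.
Put `X = L y`, multiply by `y² h''(y)` and integrate over `y ∈ (0, 1/2]` (`hasSum_integral_of_summable_integral_norm`);
`ker_super` identifies the terms. Norm bound: for `0 < y ≤ 1/2`, `|v| ≤ 1/2`:
`y² |gs (L y) v w| ≤ C_L / (1 + w²)` (`gs X v w = (1/X)(Re JJ X (v+iw) + Re JJ X (-v+iw))`, `JJ_re_le` for `|w| ≥ 1`, and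
`|gs X v w| ≤ e^(|v| X)` from `gs_eq` for `|w| ≤ 1`), and `∑ mx ρ/(1 + (t-γ)²) < ∞` from `fz_hasSum`
(`fz ρ u = mx ρ (2-β)/((2-β)²+(u-γ)²)`, `0 < β < 1`: `zs_re`). The limit is
`∫ y² h''(y) (MT (L y) t/(L y) - PS (L y) t) dy = (1/L) ∫ y h''(y) MT (L y) t dy - prs h L t` by `prime_side`
(the total is integrable by the summation theorem, the prime part by `prime_integrable`, so the `MT` part is integrable).
-/

open MeasureTheory Set Filter Topology
open Pool.Agent.Helper57.Zeta Pool.Agent.Helper57.PC Pool.Agent.Helper57.LH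
open scoped ContDiff

namespace Pool.Agent.Helper78.SG

/-- rescaled form of the kernel of the library, continuous in `X` -/
noncomputable def gt31 (X v w : ℝ) : ℝ :=
  2 * ∫ s in (0:ℝ)..1, (1 - s) * (Real.cosh (v * (X * s)) * Real.cos (w * (X * s)))

theorem gs_eq31 {X : ℝ} (hX : 0 < X) (v w : ℝ) : gs X v w = gt31 X v w := by
  rw [gs_eq, gt31]
  have h := intervalIntegral.integral_comp_mul_left (a := 0) (b := 1)
    (fun x : ℝ => (1 - x / X) * (Real.cosh (v * x) * Real.cos (w * x))) hX.ne'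
  rw [mul_zero, mul_one] at h
  have e : ∀ s : ℝ, (1 - X * s / X) * (Real.cosh (v * (X * s)) * Real.cos (w * (X * s))) =
      (1 - s) * (Real.cosh (v * (X * s)) * Real.cos (w * (X * s))) := by
    intro s
    rw [mul_div_cancel_left₀ _ hX.ne']
  simp_rw [e] at h
  rw [h, smul_eq_mul]
  ring

theorem gt31_cont (v w : ℝ) : Continuous (fun X : ℝ => gt31 X v w) := by
  unfold gt31
  apply Continuous.mul continuous_const
  apply intervalIntegral.continuous_parametric_intervalIntegral_of_continuous'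
  fun_prop

theorem gt31_bound {X v w : ℝ} (hX : 0 ≤ X) : |gt31 X v w| ≤ Real.exp (|v| * X) := by
  unfold gt31
  have h1 : |∫ s in (0:ℝ)..1, (1 - s) * (Real.cosh (v * (X * s)) * Real.cos (w * (X * s)))| ≤
      ∫ s in (0:ℝ)..1, (1 - s) * Real.exp (|v| * X) := by
    refine (intervalIntegral.abs_integral_le_integral_abs zero_le_one).trans ?_
    apply intervalIntegral.integral_mono_on zero_le_one
    · apply Continuous.intervalIntegrable; fun_prop
    · apply Continuous.intervalIntegrable; fun_prop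
    · intro s hs
      rw [abs_mul, abs_mul, abs_of_nonneg (sub_nonneg.mpr hs.2), abs_of_pos (Real.cosh_pos _)]
      apply mul_le_mul_of_nonneg_left _ (sub_nonneg.mpr hs.2)
      have h2 : Real.cosh (v * (X * s)) ≤ Real.exp (|v| * X) := by
        rw [← Real.cosh_abs]
        have h3 : |v * (X * s)| ≤ |v| * X := by
          rw [abs_mul, abs_of_nonneg (mul_nonneg hX hs.1)]
          apply mul_le_mul_of_nonneg_left _ (abs_nonneg _)
          nlinarith [hs.2]
        have h4 : Real.cosh |v * (X * s)| ≤ Real.exp |v * (X * s)| := by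
          rw [Real.cosh_eq]
          have h5 : Real.exp (-|v * (X * s)|) ≤ Real.exp |v * (X * s)| :=
            Real.exp_le_exp.mpr (by have := abs_nonneg (v * (X * s)); linarith)
          linarith
        exact h4.trans (Real.exp_le_exp.mpr h3)
      calc Real.cosh (v * (X * s)) * |Real.cos (w * (X * s))| ≤ Real.exp (|v| * X) * 1 :=
            mul_le_mul h2 (Real.abs_cos_le_one _) (abs_nonneg _) (Real.exp_pos _).le
        _ = _ := mul_one _
  have h6 : ∫ s in (0:ℝ)..1, (1 - s) * Real.exp (|v| * X) = 1 / 2 * Real.exp (|v| * X) := by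
    rw [intervalIntegral.integral_mul_const]
    congr 1
    rw [intervalIntegral.integral_sub (by simp) (by simp), integral_id]
    norm_num
  rw [abs_mul, abs_two]
  rw [h6] at h1
  linarith

/-- the constant of the norm bound -/
noncomputable def CL31 (L : ℝ) : ℝ :=
  Real.exp (L / 4) + 2 * (1 / (2 * L) + 2 * (Real.exp (L / 4) + 1) / L ^ 2)

theorem CL31_pos {L : ℝ} (hL : 0 < L) : 0 < CL31 L := by
  unfold CL31
  have := Real.exp_pos (L / 4)
  positivity

theorem JJ31 {L y v w : ℝ} (hL : 0 < L) (hy : 0 < y) (hy2 : y ≤ 1 / 2) (hv : |v| ≤ 1 / 2)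
    (hw : 1 ≤ |w|) : |(JJ (L * y) ((v : ℝ) + w * Complex.I)).re| ≤
      (1 / 2 + (Real.exp (L / 4) + 1) / (L * y)) / w ^ 2 := by
  have hX : 0 < L * y := mul_pos hL hy
  have hw0 : w ≠ 0 := by
    rintro rfl
    simp at hw
    linarith
  have hw2 : 0 < w ^ 2 := by positivity
  have hz : ((v : ℝ) : ℂ) + w * Complex.I ≠ 0 := by
    intro h
    have := congrArg Complex.im h
    simp at this
    exact hw0 this
  have h := JJ_re_le hX hz
  have e1 : (((v : ℝ) : ℂ) + w * Complex.I).re = v := by simp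
  have e2 : Complex.normSq (((v : ℝ) : ℂ) + w * Complex.I) = v ^ 2 + w ^ 2 := by
    rw [Complex.normSq_apply]
    simp
    ring
  rw [e1, e2] at h
  refine h.trans ?_
  have h1 : Real.exp (v * (L * y)) ≤ Real.exp (L / 4) := by
    apply Real.exp_le_exp.mpr
    have h2 : v ≤ 1 / 2 := (le_abs_self v).trans hv
    have h3 : L * y ≤ L * (1 / 2) := mul_le_mul_of_nonneg_left hy2 hL.le
    nlinarith
  apply div_le_div₀
  · have := Real.exp_pos (L / 4)
    positivity
  · gcongr
  · exact hw2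
  · nlinarith [sq_nonneg v]

theorem gs_bound31 {L y v w : ℝ} (hL : 0 < L) (hy : 0 < y) (hy2 : y ≤ 1 / 2) (hv : |v| ≤ 1 / 2) :
    y ^ 2 * |gs (L * y) v w| ≤ CL31 L * (1 / (1 + w ^ 2)) := by
  have hX : 0 < L * y := mul_pos hL hy
  have hE := Real.exp_pos (L / 4)
  rcases le_or_gt 1 |w| with hw | hw
  · have h1 := JJ31 hL hy hy2 hv hw
    have h2 := JJ31 hL hy hy2 (by rwa [abs_neg] : |-v| ≤ 1 / 2) hw
    have hw1 : 1 ≤ w ^ 2 := by
      rw [← sq_abs]; nlinarith
    have hw2 : 0 < w ^ 2 := by linarith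
    set M := (1 / 2 + (Real.exp (L / 4) + 1) / (L * y)) / w ^ 2 with hM
    have h3 : |gs (L * y) v w| ≤ 1 / (L * y) * (2 * M) := by
      unfold gs
      rw [abs_mul, abs_of_pos (by positivity : 0 < 1 / (L * y))]
      apply mul_le_mul_of_nonneg_left _ (by positivity)
      refine (abs_add_le _ _).trans ?_
      linarith
    have h4 : y ^ 2 * (1 / (L * y) * (2 * M)) = (y / L + 2 * (Real.exp (L / 4) + 1) / L ^ 2) / w ^ 2 := by
      rw [hM]
      field_simp
    have h5 : (y / L + 2 * (Real.exp (L / 4) + 1) / L ^ 2) / w ^ 2 ≤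
        (1 / (2 * L) + 2 * (Real.exp (L / 4) + 1) / L ^ 2) * (2 * (1 / (1 + w ^ 2))) := by
      rw [div_eq_mul_one_div]
      apply mul_le_mul
      · have : y / L ≤ 1 / (2 * L) := by
          rw [div_le_div_iff₀ hL (by positivity)]
          nlinarith
        linarith
      · rw [mul_one_div, div_le_div_iff₀ hw2 (by positivity)]
        linarith
      · positivity
      · positivity
    calc y ^ 2 * |gs (L * y) v w| ≤ y ^ 2 * (1 / (L * y) * (2 * M)) :=
          mul_le_mul_of_nonneg_left h3 (by positivity)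
      _ ≤ _ := by
          rw [h4]
          refine h5.trans ?_
          unfold CL31
          have h6 : 0 ≤ Real.exp (L / 4) * (1 / (1 + w ^ 2)) := by positivity
          nlinarith
  · rw [gs_eq31 hX]
    have h1 := gt31_bound (v := v) (w := w) hX.le
    have h2 : Real.exp (|v| * (L * y)) ≤ Real.exp (L / 4) := by
      apply Real.exp_le_exp.mpr
      have h3 : L * y ≤ L * (1 / 2) := mul_le_mul_of_nonneg_left hy2 hL.le
      have := abs_nonneg v
      nlinarith
    have hw1 : w ^ 2 < 1 := by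
      rw [← sq_abs]
      have := abs_nonneg w
      nlinarith
    have h4 : y ^ 2 ≤ 1 / 4 := by nlinarith
    have h5 : (1:ℝ) / 2 ≤ 1 / (1 + w ^ 2) := by
      apply one_div_le_one_div_of_le (by positivity)
      linarith
    have h7 : 0 ≤ 2 * (1 / (2 * L) + 2 * (Real.exp (L / 4) + 1) / L ^ 2) := by positivity
    calc y ^ 2 * |gt31 (L * y) v w| ≤ 1 / 4 * Real.exp (L / 4) := by
          apply mul_le_mul h4 (h1.trans h2) (abs_nonneg _) (by norm_num)
      _ ≤ Real.exp (L / 4) * (1 / (1 + w ^ 2)) := by nlinarith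
      _ ≤ _ := by
          unfold CL31
          apply mul_le_mul_of_nonneg_right _ (by positivity)
          linarith

theorem v31 (ρ : ZS) : |(ρ:ℂ).re - 1 / 2| ≤ 1 / 2 := by
  have h := zs_re ρ
  rw [abs_le]
  constructor <;> linarith [h.1, h.2]

/-- the weights are summable -/
theorem summ31 (t : ℝ) : Summable (fun ρ : ZS => mx ρ * (1 / (1 + (t - (ρ:ℂ).im) ^ 2))) := by
  apply Summable.of_nonneg_of_le _ _ ((fz_hasSum t).summable.mul_left 4)
  · intro ρ
    exact mul_nonneg (mx_nonneg _) (by positivity)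
  · intro ρ
    unfold fz
    have h := zs_re ρ
    have hm := mx_nonneg (ρ:ℂ)
    have h1 : 1 / (1 + (t - (ρ:ℂ).im) ^ 2) ≤
        4 * ((2 - (ρ:ℂ).re) / ((2 - (ρ:ℂ).re) ^ 2 + (t - (ρ:ℂ).im) ^ 2)) := by
      have hb1 : 1 < 2 - (ρ:ℂ).re := by linarith [h.2]
      have hb2 : 2 - (ρ:ℂ).re < 2 := by linarith [h.1]
      set b := 2 - (ρ:ℂ).re
      rw [mul_div_assoc', div_le_div_iff₀ (by positivity) (by positivity)]
      nlinarith [sq_nonneg (t - (ρ:ℂ).im)]
    calc mx ρ * (1 / (1 + (t - (ρ:ℂ).im) ^ 2)) ≤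
          mx ρ * (4 * ((2 - (ρ:ℂ).re) / ((2 - (ρ:ℂ).re) ^ 2 + (t - (ρ:ℂ).im) ^ 2))) :=
          mul_le_mul_of_nonneg_left h1 hm
      _ = _ := by ring

/-- the terms -/
noncomputable def G31 (f : TF) (L t : ℝ) (ρ : ZS) (y : ℝ) : ℝ :=
  mx ρ * (y ^ 2 * deriv (deriv f.h) y * gs (L * y) ((ρ:ℂ).re - 1 / 2) (t - (ρ:ℂ).im))

/-- the limit -/
noncomputable def S31 (f : TF) (L t y : ℝ) : ℝ :=
  y ^ 2 * deriv (deriv f.h) y * (MT (L * y) t / (L * y) - PS (L * y) t)

theorem G31_meas (f : TF) {L : ℝ} (hL : 0 < L) (t : ℝ) (ρ : ZS) :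
    AEStronglyMeasurable (G31 f L t ρ) (volume.restrict (Ioc 0 (1 / 2))) := by
  have h1 : Continuous (fun y : ℝ => mx ρ * (y ^ 2 * deriv (deriv f.h) y *
      gt31 (L * y) ((ρ:ℂ).re - 1 / 2) (t - (ρ:ℂ).im))) := by
    have h2 := d2_cont f
    have h3 := (gt31_cont ((ρ:ℂ).re - 1 / 2) (t - (ρ:ℂ).im)).comp (continuous_const.mul continuous_id : Continuous (fun y : ℝ => L * y))
    exact continuous_const.mul (((continuous_pow 2).mul h2).mul h3)
  refine h1.aestronglyMeasurable.congr ?_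
  filter_upwards [ae_restrict_mem measurableSet_Ioc] with y hy
  unfold G31
  rw [gs_eq31 (mul_pos hL hy.1)]

theorem G31_bound (f : TF) {L : ℝ} (hL : 0 < L) (t : ℝ) (ρ : ZS) {y : ℝ} (hy : y ∈ Ioc (0:ℝ) (1 / 2)) :
    ‖G31 f L t ρ y‖ ≤ mx ρ * (1 / (1 + (t - (ρ:ℂ).im) ^ 2)) * (CL31 L * |deriv (deriv f.h) y|) := by
  unfold G31
  have hm := mx_nonneg (ρ:ℂ)
  have h := gs_bound31 (w := t - (ρ:ℂ).im) hL hy.1 hy.2 (v31 ρ)
  rw [Real.norm_eq_abs, abs_mul, abs_of_nonneg hm, abs_mul, abs_mul, abs_of_nonneg (sq_nonneg y)]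
  calc mx ρ * (y ^ 2 * |deriv (deriv f.h) y| * |gs (L * y) ((ρ:ℂ).re - 1 / 2) (t - (ρ:ℂ).im)|) =
        mx ρ * |deriv (deriv f.h) y| * (y ^ 2 * |gs (L * y) ((ρ:ℂ).re - 1 / 2) (t - (ρ:ℂ).im)|) := by ring
    _ ≤ mx ρ * |deriv (deriv f.h) y| * (CL31 L * (1 / (1 + (t - (ρ:ℂ).im) ^ 2))) :=
        mul_le_mul_of_nonneg_left h (mul_nonneg hm (abs_nonneg _))
    _ = _ := by ring

theorem S31_hasSum (f : TF) {L : ℝ} (hL : 0 < L) (t : ℝ) {y : ℝ} (hy : y ∈ Ioc (0:ℝ) (1 / 2)) :
    HasSum (fun ρ : ZS => G31 f L t ρ y) (S31 f L t y) := by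
  have h := (explicit (mul_pos hL hy.1) t).mul_left (y ^ 2 * deriv (deriv f.h) y)
  unfold S31
  refine h.congr_fun ?_
  intro ρ
  unfold G31
  ring

theorem bd31_integrable (f : TF) (L : ℝ) :
    Integrable (fun y => CL31 L * |deriv (deriv f.h) y|) (volume.restrict (Ioc (0:ℝ) (1 / 2))) := by
  have h2 := d2_cont f
  have : Continuous (fun y => CL31 L * |deriv (deriv f.h) y|) := continuous_const.mul h2.abs
  exact (this.integrableOn_Icc (a := 0) (b := 1 / 2)).mono_set Ioc_subset_Icc_self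

theorem S31_bound (f : TF) {L : ℝ} (hL : 0 < L) (t : ℝ) {y : ℝ} (hy : y ∈ Ioc (0:ℝ) (1 / 2)) :
    ‖S31 f L t y‖ ≤ (∑' ρ : ZS, mx ρ * (1 / (1 + (t - (ρ:ℂ).im) ^ 2))) * (CL31 L * |deriv (deriv f.h) y|) := by
  have hs := S31_hasSum f hL t hy
  have hb : Summable (fun ρ : ZS => mx ρ * (1 / (1 + (t - (ρ:ℂ).im) ^ 2)) * (CL31 L * |deriv (deriv f.h) y|)) :=
    (summ31 t).mul_right _
  have hn : Summable (fun ρ : ZS => ‖G31 f L t ρ y‖) :=
    Summable.of_nonneg_of_le (fun ρ => norm_nonneg _) (fun ρ => G31_bound f hL t ρ hy) hb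
  rw [← hs.tsum_eq, ← tsum_mul_right]
  exact (norm_tsum_le_tsum_norm hn).trans (hn.tsum_le_tsum (fun ρ => G31_bound f hL t ρ hy) hb)

theorem S31_integrable (f : TF) {L : ℝ} (hL : 0 < L) (t : ℝ) :
    Integrable (S31 f L t) (volume.restrict (Ioc (0:ℝ) (1 / 2))) := by
  have hm : AEStronglyMeasurable (S31 f L t) (volume.restrict (Ioc (0:ℝ) (1 / 2))) := by
    apply aestronglyMeasurable_of_tendsto_ae (u := (atTop : Filter (Finset ZS)))
      (f := fun F y => ∑ ρ ∈ F, G31 f L t ρ y)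
    · intro F
      exact Finset.aestronglyMeasurable_fun_sum F (fun ρ _ => G31_meas f hL t ρ)
    · filter_upwards [ae_restrict_mem measurableSet_Ioc] with y hy
      exact S31_hasSum f hL t hy
  refine ((bd31_integrable f L).const_mul (∑' ρ : ZS, mx ρ * (1 / (1 + (t - (ρ:ℂ).im) ^ 2)))).mono' hm ?_
  filter_upwards [ae_restrict_mem measurableSet_Ioc] with y hy
  exact S31_bound f hL t hy

theorem S31_split (f : TF) {L : ℝ} (hL : 0 < L) (t : ℝ) {y : ℝ} (hy : y ∈ Ioc (0:ℝ) (1 / 2)) :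
    y * deriv (deriv f.h) y * MT (L * y) t =
      L * (S31 f L t y + y ^ 2 * deriv (deriv f.h) y * PS (L * y) t) := by
  unfold S31
  have hy0 : y ≠ 0 := hy.1.ne'
  have hL0 : L ≠ 0 := hL.ne'
  field_simp
  ring

theorem mt_integrable (f : TF) {L : ℝ} (hL : 0 < L) (t : ℝ) :
    IntervalIntegrable (fun y => y * deriv (deriv f.h) y * MT (L * y) t) volume 0 (1 / 2) := by
  have h1 := prime_integrable f hL t
  rw [intervalIntegrable_iff_integrableOn_Ioc_of_le (by norm_num)] at h1 ⊢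
  have h2 := ((S31_integrable f hL t).add h1).const_mul L
  refine h2.congr ?_
  filter_upwards [ae_restrict_mem measurableSet_Ioc] with y hy
  exact (S31_split f hL t hy).symm

theorem explicit_h (f : TF) {L : ℝ} (hL : 0 < L) (t : ℝ) :
    HasSum (fun ρ : ZS => mx ρ * kz f.h L t ρ) (Xf f.h L t) := by
  have hmain := hasSum_integral_of_dominated_convergence (μ := volume.restrict (Ioc (0:ℝ) (1 / 2)))
    (F := fun ρ : ZS => G31 f L t ρ) (f := S31 f L t)
    (fun ρ y => mx ρ * (1 / (1 + (t - (ρ:ℂ).im) ^ 2)) * (CL31 L * |deriv (deriv f.h) y|))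
    (fun ρ => G31_meas f hL t ρ)
    (fun ρ => by
      filter_upwards [ae_restrict_mem measurableSet_Ioc] with y hy
      exact G31_bound f hL t ρ hy)
    (by
      filter_upwards with y
      exact (summ31 t).mul_right _)
    (by
      have e : (fun y => ∑' ρ : ZS, mx ρ * (1 / (1 + (t - (ρ:ℂ).im) ^ 2)) * (CL31 L * |deriv (deriv f.h) y|)) =
          fun y => (∑' ρ : ZS, mx ρ * (1 / (1 + (t - (ρ:ℂ).im) ^ 2))) * (CL31 L * |deriv (deriv f.h) y|) := by
        funext y
        rw [tsum_mul_right]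
      rw [e]
      exact (bd31_integrable f L).const_mul _)
    (by
      filter_upwards [ae_restrict_mem measurableSet_Ioc] with y hy
      exact S31_hasSum f hL t hy)
  have hlim : ∫ y in Ioc (0:ℝ) (1 / 2), S31 f L t y = Xf f.h L t := by
    unfold Xf
    have hp := prime_side f hL t
    have hpi := prime_integrable f hL t
    rw [intervalIntegrable_iff_integrableOn_Ioc_of_le (by norm_num)] at hpi
    rw [← hp, intervalIntegral.integral_of_le (by norm_num), intervalIntegral.integral_of_le (by norm_num)]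
    have e1 : ∫ y in Ioc (0:ℝ) (1 / 2), y * deriv (deriv f.h) y * MT (L * y) t =
        ∫ y in Ioc (0:ℝ) (1 / 2), L * (S31 f L t y + y ^ 2 * deriv (deriv f.h) y * PS (L * y) t) :=
      setIntegral_congr_fun measurableSet_Ioc (fun y hy => S31_split f hL t hy)
    rw [e1, integral_const_mul, integral_add (S31_integrable f hL t) hpi]
    field_simp
    ring
  rw [hlim] at hmain
  refine hmain.congr_fun ?_
  intro ρ
  unfold kz
  rw [ker_super f hL, intervalIntegral.integral_of_le (by norm_num), ← integral_const_mul]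
  rfl

end Pool.Agent.Helper78.SG
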