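import Pool.Agent.Helper78.SG.Defs

/-!
# SG-MS: the archimedean term for small `X`

`MT X t = 2 Re JJ X (-1/2 + it) + 2 Re JJ X (1/2 + it) - c + ∑_n (1/(n+1) - 2 Re JJ X (3/2 - 2(n+1) + it))`. The library proves
`|MT X t - log t| ≤ CM` for `X ≥ 1` (`MT_bound`, `term_diff`, `Dn_sum`). Here the same for `0 < X ≤ 1` with a factor `1/X`:
`JJ X z = -1/z + (e^(zX) - 1)/(X z²)` (`JJ_eq`), so termwise
`|(1/(n+1) - 2 Re JJ X (3/2-2(n+1)+it)) - Dn n t| ≤ C/(X (n+1)²)` (copy the proof of `term_diff`, C.lean line 647 ff.), the two first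
terms are bounded (`|JJ X z| ≤ X e^(|Re z| X)`), and `|∑ Dn n t - log t| ≤ 20` (`Dn_sum`).
-/

open MeasureTheory Set Filter Topology
open Pool.Agent.Helper57.Zeta Pool.Agent.Helper57.PC Pool.Agent.Helper57.LH
open scoped ContDiff

namespace Pool.Agent.Helper78.SG

open Complex in
/-- difference of the two main sums, termwise, for small `X` -/
lemma term_small7 {X t : ℝ} (hX0 : 0 < X) (hX : X ≤ 1) (ht : 1 ≤ t) (n : ℕ) :
    |(1 / ((n:ℝ) + 1) - 2 * (JJ X ((3 / 2 - 2 * ((n:ℝ) + 1) : ℝ) + t * I)).re) - Dn n t| ≤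
      1 / X * (14 * (1 / ((n:ℝ) + 1) ^ 2)) := by
  have hn0 : (0:ℝ) ≤ n := Nat.cast_nonneg n
  set b : ℝ := 2 * ((n:ℝ) + 1) - 3 / 2 with hb
  have hb0 : 0 < b := by rw [hb]; linarith only [hn0]
  have hz : (((3 / 2 - 2 * ((n:ℝ) + 1) : ℝ) : ℂ) + t * I) = ((-b : ℝ) : ℂ) + t * I := by
    congr 2; rw [hb]; ring
  rw [hz]
  have hz0 : ((-b : ℝ) : ℂ) + t * I ≠ 0 := z_ne (by linarith only [hb0]) t
  rw [JJ_eq hX0 hz0, Complex.add_re, Complex.neg_re, one_div, one_div, Complex.inv_re, normSq_z]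
  have e1 : (((-b : ℝ) : ℂ) + t * I).re = -b := by simp
  rw [e1]
  set q := ((cexp ((((-b : ℝ) : ℂ) + t * I) * X) - 1) / (X * (((-b : ℝ) : ℂ) + t * I) ^ 2)).re with hq
  have hq1 : |q| ≤ 2 / (X * (b ^ 2 + t ^ 2)) := by
    rw [hq]
    refine (Complex.abs_re_le_norm _).trans ?_
    rw [norm_div, norm_mul, norm_pow, Complex.norm_real, Real.norm_of_nonneg hX0.le,
      ← Complex.normSq_eq_norm_sq, normSq_z, neg_sq]
    have h1 : ‖cexp ((((-b : ℝ) : ℂ) + t * I) * X) - 1‖ ≤ 2 := by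
      refine (norm_sub_le _ _).trans ?_
      rw [Complex.norm_exp, norm_one]
      have : ((((-b : ℝ) : ℂ) + t * I) * X).re ≤ 0 := by
        simp
        positivity
      have := Real.exp_le_one_iff.mpr this
      linarith only [this]
    gcongr
  unfold Dn
  have hab : 2 * ((n:ℝ) + 1) = b + 3 / 2 := by rw [hb]; ring
  rw [hab]
  have e2 : (((n:ℝ) + 1)⁻¹ - 2 * (-(-b / ((-b) ^ 2 + t ^ 2)) + q)) - (1 / ((n:ℝ) + 1) - 2 * ((b + 3 / 2) / ((b + 3 / 2) ^ 2 + t ^ 2))) =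
      -(3 * (b * (b + 3 / 2) - t ^ 2) / ((b ^ 2 + t ^ 2) * ((b + 3 / 2) ^ 2 + t ^ 2))) - 2 * q := by
    field_simp
    ring
  rw [e2]
  have h3 : |3 * (b * (b + 3 / 2) - t ^ 2) / ((b ^ 2 + t ^ 2) * ((b + 3 / 2) ^ 2 + t ^ 2))| ≤ 3 / (b ^ 2 + t ^ 2) := by
    rw [abs_div, abs_of_pos (by positivity : 0 < (b ^ 2 + t ^ 2) * ((b + 3 / 2) ^ 2 + t ^ 2)), div_le_div_iff₀ (by positivity) (by positivity), abs_mul,
      abs_of_pos (by norm_num : (0:ℝ) < 3)]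
    have h4 : |b * (b + 3 / 2) - t ^ 2| ≤ (b + 3 / 2) ^ 2 + t ^ 2 := by
      rw [abs_le]
      constructor <;> nlinarith only [hb0, sq_nonneg t, mul_pos hb0 hb0]
    calc 3 * |b * (b + 3 / 2) - t ^ 2| * (b ^ 2 + t ^ 2) ≤ 3 * ((b + 3 / 2) ^ 2 + t ^ 2) * (b ^ 2 + t ^ 2) := by gcongr
      _ = _ := by ring
  have h3' : 3 / (b ^ 2 + t ^ 2) ≤ 3 / (X * (b ^ 2 + t ^ 2)) := by
    apply div_le_div_of_nonneg_left (by norm_num) (by positivity)
    exact mul_le_of_le_one_left (by positivity) hX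
  have h5 : 7 / (b ^ 2 + t ^ 2) ≤ 14 * (1 / ((n:ℝ) + 1) ^ 2) := by
    rw [mul_one_div, div_le_div_iff₀ (by positivity) (by positivity)]
    rw [hb]
    nlinarith
  calc |-(3 * (b * (b + 3 / 2) - t ^ 2) / ((b ^ 2 + t ^ 2) * ((b + 3 / 2) ^ 2 + t ^ 2))) - 2 * q|
      ≤ |-(3 * (b * (b + 3 / 2) - t ^ 2) / ((b ^ 2 + t ^ 2) * ((b + 3 / 2) ^ 2 + t ^ 2)))| + |2 * q| := abs_sub _ _
    _ ≤ 3 / (X * (b ^ 2 + t ^ 2)) + 2 * (2 / (X * (b ^ 2 + t ^ 2))) := by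
        rw [abs_neg, abs_mul, abs_of_pos (by norm_num : (0:ℝ) < 2)]
        have := h3.trans h3'
        gcongr
    _ = 1 / X * (7 / (b ^ 2 + t ^ 2)) := by field_simp; ring
    _ ≤ _ := by gcongr

open Complex in
lemma JJ_small7 {X t a : ℝ} (hX0 : 0 < X) (hX : X ≤ 1) (ht : 1 ≤ t) (ha : |a| = 1 / 2) :
    |(JJ X ((a : ℝ) + t * I)).re| ≤ 4 / X := by
  have ha0 : a ≠ 0 := by
    rintro rfl
    norm_num at ha
  have h := JJ_re_le hX0 (z_ne (a := a) ha0 t)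
  rw [normSq_z] at h
  refine h.trans ?_
  have e1 : ((a : ℂ) + t * I).re = a := by simp
  rw [e1, ha, div_le_iff₀ (by positivity)]
  have hae : a * X ≤ 1 / 2 := by
    have := le_abs_self (a * X)
    rw [abs_mul, ha, abs_of_pos hX0] at this
    linarith
  have h2 : Real.exp (a * X) ≤ 2.72 := by
    have h3 : Real.exp (a * X) ≤ Real.exp 1 := Real.exp_le_exp.mpr (by linarith)
    have := Real.exp_one_lt_d9
    linarith
  have h4 : 1 / 2 ≤ (1 / 2) / X := by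
    rw [le_div_iff₀ hX0]; linarith
  have h5 : (Real.exp (a * X) + 1) / X ≤ 3.72 / X - 0 := by
    rw [sub_zero]
    gcongr
    linarith
  have h6 : 4 / X ≤ 4 / X * (a ^ 2 + t ^ 2) := by
    have : 0 < 4 / X := by positivity
    have h7 : 1 ≤ a ^ 2 + t ^ 2 := by nlinarith [sq_nonneg a]
    exact le_mul_of_one_le_right this.le h7
  have ha2 : a ^ 2 = 1 / 4 := by rw [← sq_abs, ha]; norm_num
  have h8 : (4 / X) * (1 + 1 / 4) ≤ 4 / X * (a ^ 2 + t ^ 2) := by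
    have : 0 < 4 / X := by positivity
    have h7 : 1 + 1 / 4 ≤ a ^ 2 + t ^ 2 := by nlinarith
    gcongr
  have h9 : 1 / 2 / X + 3.72 / X ≤ (4 / X) * (1 + 1 / 4) := by
    rw [← add_div, div_mul_eq_mul_div]
    gcongr
    norm_num
  linarith

theorem MT_small : ∃ C : ℝ, 0 < C ∧ ∀ X t : ℝ, 0 < X → X ≤ 1 → 1 ≤ t → |MT X t - Real.log t| ≤ C / X := by
  refine ⟨64 + |Real.log Real.pi + Real.eulerMascheroniConstant|, by positivity, ?_⟩
  intro X t hX0 hX ht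
  have hX1 : 1 ≤ 1 / X := by rw [le_div_iff₀ hX0]; linarith
  have hJ1 : |(JJ X ((3 / 2 - 2 : ℝ) + t * Complex.I)).re| ≤ 4 / X :=
    JJ_small7 (a := 3 / 2 - 2) hX0 hX ht (by norm_num)
  have hJ2 : |(JJ X ((3 / 2 - 1 : ℝ) + t * Complex.I)).re| ≤ 4 / X :=
    JJ_small7 (a := 3 / 2 - 1) hX0 hX ht (by norm_num)
  obtain ⟨hs28, hs⟩ := sum_inv_sq
  have hs' : Summable (fun n : ℕ => 1 / X * (14 * (1 / ((n:ℝ) + 1) ^ 2))) := hs.mul_left _
  have hs28' : ∑' n : ℕ, 1 / X * (14 * (1 / ((n:ℝ) + 1) ^ 2)) ≤ 1 / X * 28 := by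
    rw [tsum_mul_left]
    gcongr
  set Tn : ℕ → ℝ := fun n => 1 / ((n:ℝ) + 1) - 2 * (JJ X ((3 / 2 - 2 * ((n:ℝ) + 1) : ℝ) + t * Complex.I)).re with hTn
  have hd : Summable (fun n => Tn n - Dn n t) := Summable.of_norm_bounded hs' (fun n => by
    rw [Real.norm_eq_abs]; exact term_small7 hX0 hX ht n)
  have hTs : Summable Tn := by
    have := hd.add (Dn_summable t)
    refine this.congr fun n => by ring
  have h1 : |∑' n, Tn n - ∑' n, Dn n t| ≤ 1 / X * 28 := by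
    rw [← hTs.tsum_sub (Dn_summable t), ← Real.norm_eq_abs]
    refine (tsum_of_norm_bounded hs'.hasSum (fun n => ?_)).trans hs28'
    rw [Real.norm_eq_abs]; exact term_small7 hX0 hX ht n
  have h2 := Dn_sum ht
  unfold MT
  have e : (2 * (JJ X ((3 / 2 - 2 : ℝ) + t * Complex.I)).re + 2 * (JJ X ((3 / 2 - 1 : ℝ) + t * Complex.I)).re -
      (Real.log Real.pi + Real.eulerMascheroniConstant) + ∑' n, Tn n) - Real.log t =
      2 * (JJ X ((3 / 2 - 2 : ℝ) + t * Complex.I)).re + 2 * (JJ X ((3 / 2 - 1 : ℝ) + t * Complex.I)).re -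
      (Real.log Real.pi + Real.eulerMascheroniConstant) + (∑' n, Tn n - ∑' n, Dn n t) + (∑' n, Dn n t - Real.log t) := by ring
  have hTT : (∑' n : ℕ, (1 / ((n:ℝ) + 1) - 2 * (JJ X ((3 / 2 - 2 * ((n:ℝ) + 1) : ℝ) + t * Complex.I)).re)) = ∑' n, Tn n := rfl
  rw [hTT, e]
  set A1 := (JJ X ((3 / 2 - 2 : ℝ) + t * Complex.I)).re
  set A2 := (JJ X ((3 / 2 - 1 : ℝ) + t * Complex.I)).re
  set A3 := Real.log Real.pi + Real.eulerMascheroniConstant
  have g1 := abs_le.mp hJ1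
  have g2 := abs_le.mp hJ2
  have g3 := le_abs_self A3
  have g4 := neg_abs_le A3
  have g5 := abs_le.mp h1
  have g6 := abs_le.mp h2
  have k1 : (64 + |A3|) / X = 64 * (1 / X) + |A3| * (1 / X) := by ring
  have k2 : |A3| ≤ |A3| * (1 / X) := le_mul_of_one_le_right (abs_nonneg _) hX1
  have k3 : 4 / X = 4 * (1 / X) := by ring
  rw [k3] at g1 g2
  rw [k1, abs_le]
  constructor <;> linarith [g1.1, g1.2, g2.1, g2.2, g5.1, g5.2, g6.1, g6.2]

end Pool.Agent.Helper78.SG
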