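import Pool.Agent.Helper78.SG.Defs

/-!
# SG: the sharper kernel `sin²(πx)/(π²x²(1-x²))` and positivity
-/

open MeasureTheory Set Filter Topology
open Pool.Agent.Helper57.Zeta Pool.Agent.Helper57.PC Pool.Agent.Helper57.LH
open scoped ContDiff

namespace Pool.Agent.Helper78.SG

/-- the transform of the kernel on `[0,1]` -/
noncomputable def qg (t : ℝ) : ℝ := 1 - t + Real.sin (2 * Real.pi * t) / (2 * Real.pi)

/-- even extension by zero -/
noncomputable def qf (y : ℝ) : ℝ := if |y| ≤ 1 then qg |y| else 0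

/-- the kernel -/
noncomputable def Kq (x : ℝ) : ℝ := 2 * ∫ t in (0:ℝ)..1, qg t * Real.cos (2 * Real.pi * x * t)

lemma qg_cont : Continuous qg := by unfold qg; fun_prop

lemma int_cos_ab (a : ℝ) (ha : a ≠ 0) : ∫ t in (0:ℝ)..1, Real.cos (a * t) = Real.sin a / a := by
  rw [intervalIntegral.integral_comp_mul_left (fun x => Real.cos x) ha, integral_cos]
  simp [smul_eq_mul]
  ring

lemma int_sin_ab (a : ℝ) (ha : a ≠ 0) : ∫ t in (0:ℝ)..1, Real.sin (a * t) = (1 - Real.cos a) / a := by
  rw [intervalIntegral.integral_comp_mul_left (fun x => Real.sin x) ha, integral_sin]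
  simp [smul_eq_mul]
  ring

lemma int_t_cos (a : ℝ) (ha : a ≠ 0) : ∫ t in (0:ℝ)..1, (1 - t) * Real.cos (a * t) = (1 - Real.cos a) / a ^ 2 := by
  have h1 : ∀ t ∈ uIcc (0:ℝ) 1, HasDerivAt (fun t => (1 - t) * (Real.sin (a * t) / a) - Real.cos (a * t) / a ^ 2)
      ((1 - t) * Real.cos (a * t)) t := by
    intro t _
    have e1 : HasDerivAt (fun t => Real.sin (a * t)) (Real.cos (a * t) * (a * 1)) t :=
      (Real.hasDerivAt_sin _).comp t ((hasDerivAt_id t).const_mul a)
    have e2 : HasDerivAt (fun t => Real.cos (a * t)) (-Real.sin (a * t) * (a * 1)) t :=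
      (Real.hasDerivAt_cos _).comp t ((hasDerivAt_id t).const_mul a)
    have e3 : HasDerivAt (fun t : ℝ => 1 - t) (-1) t := (hasDerivAt_id t).const_sub 1
    have e4 := (e3.mul (e1.div_const a)).sub (e2.div_const (a ^ 2))
    have e5 : -1 * (Real.sin (a * t) / a) + (1 - t) * (Real.cos (a * t) * (a * 1) / a) - -Real.sin (a * t) * (a * 1) / a ^ 2 = (1 - t) * Real.cos (a * t) := by
      field_simp
      ring
    rw [e5] at e4
    exact e4
  rw [intervalIntegral.integral_eq_sub_of_hasDerivAt h1 (by apply Continuous.intervalIntegrable; fun_prop)]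
  simp
  field_simp
  ring

lemma Kq_zero : Kq 0 = 1 := by
  unfold Kq
  have h1 : ∀ t ∈ uIcc (0:ℝ) 1, HasDerivAt (fun t => t - t ^ 2 / 2 - Real.cos (2 * Real.pi * t) / (2 * Real.pi) ^ 2) (qg t * Real.cos (2 * Real.pi * 0 * t)) t := by
    intro t _
    have e2 : HasDerivAt (fun t => Real.cos (2 * Real.pi * t)) (-Real.sin (2 * Real.pi * t) * (2 * Real.pi * 1)) t :=
      (Real.hasDerivAt_cos _).comp t ((hasDerivAt_id t).const_mul (2 * Real.pi))
    have e3 : HasDerivAt (fun t : ℝ => t ^ 2 / 2) (2 * t / 2) t := by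
      simpa using (hasDerivAt_pow 2 t).div_const 2
    have e4 := (((hasDerivAt_id t).sub e3).sub (e2.div_const ((2 * Real.pi) ^ 2)))
    have e5 : 1 - 2 * t / 2 - -Real.sin (2 * Real.pi * t) * (2 * Real.pi * 1) / (2 * Real.pi) ^ 2 = qg t * Real.cos (2 * Real.pi * 0 * t) := by
      unfold qg
      rw [mul_zero, zero_mul, Real.cos_zero]
      field_simp
      ring
    rw [e5] at e4
    exact e4
  rw [intervalIntegral.integral_eq_sub_of_hasDerivAt h1 (by apply Continuous.intervalIntegrable; have := qg_cont; fun_prop)]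
  simp
  norm_num

lemma Kq_eq {x : ℝ} (h0 : x ≠ 0) (h1 : x ≠ 1) (h2 : x ≠ -1) :
    Kq x = Real.sin (Real.pi * x) ^ 2 / (Real.pi ^ 2 * x ^ 2 * (1 - x ^ 2)) := by
  have hpi := Real.pi_pos
  have hx1 : 1 - x ≠ 0 := sub_ne_zero.mpr (Ne.symm h1)
  have hx2 : 1 + x ≠ 0 := fun h => h2 (by linarith)
  unfold Kq
  have e1 : ∀ t, qg t * Real.cos (2 * Real.pi * x * t) = (1 - t) * Real.cos (2 * Real.pi * x * t) +
      1 / (4 * Real.pi) * (Real.sin (2 * Real.pi * (1 + x) * t) + Real.sin (2 * Real.pi * (1 - x) * t)) := by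
    intro t
    have : Real.sin (2 * Real.pi * (1 + x) * t) + Real.sin (2 * Real.pi * (1 - x) * t) =
        2 * (Real.sin (2 * Real.pi * t) * Real.cos (2 * Real.pi * x * t)) := by
      rw [show 2 * Real.pi * (1 + x) * t = 2 * Real.pi * t + 2 * Real.pi * x * t by ring,
        show 2 * Real.pi * (1 - x) * t = 2 * Real.pi * t - 2 * Real.pi * x * t by ring, Real.sin_add, Real.sin_sub]
      ring
    rw [this]
    unfold qg
    field_simp
    ring
  rw [intervalIntegral.integral_congr (g := fun t => (1 - t) * Real.cos (2 * Real.pi * x * t) +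
      1 / (4 * Real.pi) * (Real.sin (2 * Real.pi * (1 + x) * t) + Real.sin (2 * Real.pi * (1 - x) * t))) (fun t _ => e1 t),
    intervalIntegral.integral_add (by apply Continuous.intervalIntegrable; fun_prop) (by apply Continuous.intervalIntegrable; fun_prop),
    intervalIntegral.integral_const_mul,
    intervalIntegral.integral_add (by apply Continuous.intervalIntegrable; fun_prop) (by apply Continuous.intervalIntegrable; fun_prop),
    int_t_cos _ (by positivity), int_sin_ab _ (by positivity), int_sin_ab _ (by positivity)]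
  have c1 : Real.cos (2 * Real.pi * (1 + x)) = Real.cos (2 * Real.pi * x) := by
    rw [show 2 * Real.pi * (1 + x) = 2 * Real.pi * x + 2 * Real.pi by ring, Real.cos_add_two_pi]
  have c2 : Real.cos (2 * Real.pi * (1 - x)) = Real.cos (2 * Real.pi * x) := by
    rw [show 2 * Real.pi * (1 - x) = 2 * Real.pi - 2 * Real.pi * x by ring, Real.cos_two_pi_sub]
  have c3 : 1 - Real.cos (2 * Real.pi * x) = 2 * Real.sin (Real.pi * x) ^ 2 := by
    rw [show 2 * Real.pi * x = 2 * (Real.pi * x) by ring, Real.cos_two_mul, Real.sin_sq]; ring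
  rw [c1, c2, c3]
  have hx3 : 1 - x ^ 2 ≠ 0 := by
    rw [show 1 - x ^ 2 = (1 - x) * (1 + x) by ring]
    exact mul_ne_zero hx1 hx2
  field_simp
  ring

lemma Kq_nonpos {x : ℝ} (hx : 1 < |x|) : Kq x ≤ 0 := by
  have h0 : x ≠ 0 := fun h => by rw [h, abs_zero] at hx; linarith
  have h1 : x ≠ 1 := fun h => by rw [h, abs_one] at hx; linarith
  have h2 : x ≠ -1 := fun h => by rw [h, abs_neg, abs_one] at hx; linarith
  rw [Kq_eq h0 h1 h2]
  apply div_nonpos_of_nonneg_of_nonpos (sq_nonneg _)
  have : 1 < x ^ 2 := by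
    rw [← sq_abs]
    nlinarith
  apply mul_nonpos_of_nonneg_of_nonpos (by positivity)
  linarith

lemma qf_even (y : ℝ) : qf (-y) = qf y := by unfold qf; rw [abs_neg]

lemma qf_zero_of {y : ℝ} (hy : 1 < |y|) : qf y = 0 := by unfold qf; rw [if_neg (not_le.mpr hy)]

lemma qg_one : qg 1 = 0 := by unfold qg; simp

lemma qf_eq (y : ℝ) : qf y = qg (min |y| 1) := by
  unfold qf
  split_ifs with h
  · rw [min_eq_left h]
  · rw [min_eq_right (not_le.mp h).le, qg_one]

lemma qf_cont : Continuous qf := by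
  have : qf = fun y => qg (min |y| 1) := by funext y; exact qf_eq y
  rw [this]
  exact qg_cont.comp (by fun_prop)

lemma qf_compact : HasCompactSupport qf := by
  refine HasCompactSupport.of_support_subset_isCompact (isCompact_Icc (a := -1) (b := 1)) ?_
  intro x hx
  by_contra hn
  apply hx
  apply qf_zero_of
  rw [Set.mem_Icc, ← abs_le, not_le] at hn
  exact hn

/-- Fourier representation of the kernel -/
lemma Kq_FT {β : ℝ} (hβ : 0 < β) (u : ℝ) :
    ∫ y, β * qf (β * y) * Real.cos (u * y) = Kq (u / (2 * Real.pi * β)) := by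
  have hpi := Real.pi_pos
  have h1 : ∫ y, β * qf (β * y) * Real.cos (u * y) = ∫ x, qf x * Real.cos (u / β * x) := by
    have := Measure.integral_comp_mul_left (fun x => qf x * Real.cos (u / β * x)) β
    rw [abs_of_pos (inv_pos.mpr hβ), smul_eq_mul] at this
    have e : (fun y => β * qf (β * y) * Real.cos (u * y)) = fun y => β * (qf (β * y) * Real.cos (u / β * (β * y))) := by
      funext y
      rw [show u / β * (β * y) = u * y by field_simp]
      ring
    rw [e, integral_const_mul, this, ← mul_assoc, mul_inv_cancel₀ hβ.ne', one_mul]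
  rw [h1]
  have hf : Integrable (fun x => qf x * Real.cos (u / β * x)) := by
    apply Continuous.integrable_of_hasCompactSupport
    · have := qf_cont
      fun_prop
    · exact qf_compact.mul_right
  have h2 : ∫ x, qf x * Real.cos (u / β * x) = ∫ x in (-1:ℝ)..1, qf x * Real.cos (u / β * x) := by
    rw [intervalIntegral.integral_of_le (by norm_num), ← integral_Icc_eq_integral_Ioc]
    rw [setIntegral_eq_integral_of_forall_compl_eq_zero]
    intro x hx
    rw [qf_zero_of, zero_mul]
    rw [Set.mem_Icc, ← abs_le, not_le] at hx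
    exact hx
  have h3 : ∫ x in (-1:ℝ)..0, qf x * Real.cos (u / β * x) = ∫ x in (0:ℝ)..1, qf x * Real.cos (u / β * x) := by
    have := intervalIntegral.integral_comp_neg (a := (0:ℝ)) (b := 1) (fun x => qf x * Real.cos (u / β * x))
    rw [neg_zero] at this
    rw [← this]
    refine intervalIntegral.integral_congr fun x _ => ?_
    show qf (-x) * Real.cos (u / β * (-x)) = qf x * Real.cos (u / β * x)
    rw [qf_even, mul_neg, Real.cos_neg]
  rw [h2, ← intervalIntegral.integral_add_adjacent_intervals (b := 0) hf.intervalIntegrable hf.intervalIntegrable, h3, ← two_mul]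
  unfold Kq
  congr 1
  refine intervalIntegral.integral_congr fun x hx => ?_
  rw [uIcc_of_le (by norm_num)] at hx
  show qf x * Real.cos (u / β * x) = qg x * Real.cos (2 * Real.pi * (u / (2 * Real.pi * β)) * x)
  unfold qf
  rw [abs_of_nonneg hx.1, if_pos hx.2]
  congr 2
  field_simp

/-- positivity -/
theorem pos_defQ {h : ℝ → ℝ} (hc : Continuous h) (hs : HasCompactSupport h) {β : ℝ} (hβ : 0 < β)
    (hb : ∀ y, h y ^ 2 ≤ β * qf (β * y)) {ι : Type*} (s : Finset ι) (u : ι → ℝ) :
    ∑ i ∈ s, ∑ j ∈ s, ker (fun y => h y ^ 2) 0 (u i - u j) ≤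
      ∑ i ∈ s, ∑ j ∈ s, Kq ((u i - u j) / (2 * Real.pi * β)) := by
  have hi1 : ∀ v : ℝ, Integrable (fun y => h y ^ 2 * Real.cos (v * y)) := by
    intro v
    apply Continuous.integrable_of_hasCompactSupport (by fun_prop)
    exact (hs.comp_left (g := fun x => x ^ 2) (by norm_num)).mul_right
  have hqb : HasCompactSupport (fun y => β * qf (β * y)) := by
    have := qf_compact.comp_homeomorph (Homeomorph.mulLeft₀ β hβ.ne')
    exact this.mul_left
  have hi2 : ∀ v : ℝ, Integrable (fun y => β * qf (β * y) * Real.cos (v * y)) := by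
    intro v
    apply Continuous.integrable_of_hasCompactSupport
    · have := qf_cont
      fun_prop
    · exact hqb.mul_right
  have e1 : ∀ v, Kq (v / (2 * Real.pi * β)) - ker (fun y => h y ^ 2) 0 v = ∫ y, (β * qf (β * y) - h y ^ 2) * Real.cos (v * y) := by
    intro v
    rw [← Kq_FT hβ v]
    unfold ker
    simp only [zero_mul, Real.cosh_zero, one_mul]
    rw [← integral_sub (hi2 v) (hi1 v)]
    refine integral_congr_ae (Eventually.of_forall fun y => ?_)
    simp only
    ring
  rw [← sub_nonneg, ← Finset.sum_sub_distrib]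
  have e2 : ∑ i ∈ s, ((∑ j ∈ s, Kq ((u i - u j) / (2 * Real.pi * β))) - ∑ j ∈ s, ker (fun y => h y ^ 2) 0 (u i - u j)) =
      ∑ i ∈ s, ∑ j ∈ s, ∫ y, (β * qf (β * y) - h y ^ 2) * Real.cos ((u i - u j) * y) := by
    refine Finset.sum_congr rfl fun i _ => ?_
    rw [← Finset.sum_sub_distrib]
    exact Finset.sum_congr rfl fun j _ => e1 _
  have hi3 : ∀ v : ℝ, Integrable (fun y => (β * qf (β * y) - h y ^ 2) * Real.cos (v * y)) := by
    intro v
    have : (fun y => (β * qf (β * y) - h y ^ 2) * Real.cos (v * y)) = fun y => β * qf (β * y) * Real.cos (v * y) - h y ^ 2 * Real.cos (v * y) := by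
      funext y; ring
    rw [this]
    exact (hi2 v).sub (hi1 v)
  rw [e2]
  have e3 : ∑ i ∈ s, ∑ j ∈ s, ∫ y, (β * qf (β * y) - h y ^ 2) * Real.cos ((u i - u j) * y) =
      ∫ y, (β * qf (β * y) - h y ^ 2) * ((∑ i ∈ s, Real.cos (u i * y)) ^ 2 + (∑ i ∈ s, Real.sin (u i * y)) ^ 2) := by
    rw [Finset.sum_congr rfl fun i _ => (integral_finsetSum s (fun j _ => hi3 (u i - u j))).symm,
      ← integral_finsetSum s (fun i _ => integrable_finsetSum s fun j _ => hi3 (u i - u j))]
    refine integral_congr_ae (Eventually.of_forall fun y => ?_)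
    simp only
    rw [_root_.sq (∑ i ∈ s, Real.cos (u i * y)), _root_.sq (∑ i ∈ s, Real.sin (u i * y)), Finset.sum_mul_sum, Finset.sum_mul_sum, ← Finset.sum_add_distrib, Finset.mul_sum]
    refine Finset.sum_congr rfl fun i _ => ?_
    rw [← Finset.sum_add_distrib, Finset.mul_sum]
    refine Finset.sum_congr rfl fun j _ => ?_
    rw [sub_mul (u i) (u j) y, Real.cos_sub]
  rw [e3]
  refine integral_nonneg fun y => mul_nonneg ?_ (by positivity)
  have := hb y
  show 0 ≤ β * qf (β * y) - h y ^ 2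
  linarith

end Pool.Agent.Helper78.SG
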