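import Pool.Agent.Helper78.SG.PosQ

/-!
# SG: the test function for the sharper kernel

`h(y) = √0.83 (1 - 0.43 y² - 1.35 y⁴) χ(y)`.
-/

open MeasureTheory Set Filter Topology
open Pool.Agent.Helper57.Zeta Pool.Agent.Helper57.PC Pool.Agent.Helper57.LH
open scoped ContDiff

namespace Pool.Agent.Helper78.SG

lemma nonneg_of_deriv_nonneg' {f f' : ℝ → ℝ} (hd : ∀ x, HasDerivAt f (f' x) x) (h0 : f 0 = 0)
    (hf : ∀ x, 0 ≤ x → 0 ≤ f' x) {x : ℝ} (hx : 0 ≤ x) : 0 ≤ f x := by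
  have hm : MonotoneOn f (Ici 0) := by
    apply monotoneOn_of_deriv_nonneg (convex_Ici 0)
    · exact fun x _ => (hd x).continuousAt.continuousWithinAt
    · exact fun x _ => (hd x).differentiableAt.differentiableWithinAt
    · intro x hx
      rw [interior_Ici] at hx
      rw [(hd x).deriv]
      exact hf x (le_of_lt hx)
  have := hm self_mem_Ici hx hx
  rw [h0] at this
  exact this

lemma cos_le4 {x : ℝ} (hx : 0 ≤ x) : Real.cos x ≤ 1 - x ^ 2 / 2 + x ^ 4 / 24 := by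
  have := nonneg_of_deriv_nonneg' (f := fun x => 1 - x ^ 2 / 2 + x ^ 4 / 24 - Real.cos x)
    (f' := fun x => -x + x ^ 3 / 6 + Real.sin x) (fun x => by
      have e1 := ((((hasDerivAt_pow 2 x).div_const 2).const_sub 1).add ((hasDerivAt_pow 4 x).div_const 24)).sub (Real.hasDerivAt_cos x)
      exact e1.congr_deriv (by simp; ring)) (by norm_num) (fun x hx => by
      have := Real.sin_ge_sub_cube hx
      linarith) hx
  linarith

lemma sin_le5 {x : ℝ} (hx : 0 ≤ x) : Real.sin x ≤ x - x ^ 3 / 6 + x ^ 5 / 120 := by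
  have := nonneg_of_deriv_nonneg' (f := fun x => x - x ^ 3 / 6 + x ^ 5 / 120 - Real.sin x)
    (f' := fun x => 1 - x ^ 2 / 2 + x ^ 4 / 24 - Real.cos x) (fun x => by
      have e1 := (((hasDerivAt_id x).sub ((hasDerivAt_pow 3 x).div_const 6)).add ((hasDerivAt_pow 5 x).div_const 120)).sub (Real.hasDerivAt_sin x)
      exact e1.congr_deriv (by simp; ring)) (by norm_num) (fun x hx => by
      have := cos_le4 hx
      linarith) hx
  linarith

lemma cos_ge6 {x : ℝ} (hx : 0 ≤ x) : 1 - x ^ 2 / 2 + x ^ 4 / 24 - x ^ 6 / 720 ≤ Real.cos x := by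
  have := nonneg_of_deriv_nonneg' (f := fun x => Real.cos x - (1 - x ^ 2 / 2 + x ^ 4 / 24 - x ^ 6 / 720))
    (f' := fun x => x - x ^ 3 / 6 + x ^ 5 / 120 - Real.sin x) (fun x => by
      have e1 := (Real.hasDerivAt_cos x).sub (((((hasDerivAt_pow 2 x).div_const 2).const_sub 1).add ((hasDerivAt_pow 4 x).div_const 24)).sub ((hasDerivAt_pow 6 x).div_const 720))
      exact e1.congr_deriv (by simp; ring)) (by norm_num) (fun x hx => by
      have := sin_le5 hx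
      linarith) hx
  linarith

lemma sin_ge7 {x : ℝ} (hx : 0 ≤ x) : x - x ^ 3 / 6 + x ^ 5 / 120 - x ^ 7 / 5040 ≤ Real.sin x := by
  have := nonneg_of_deriv_nonneg' (f := fun x => Real.sin x - (x - x ^ 3 / 6 + x ^ 5 / 120 - x ^ 7 / 5040))
    (f' := fun x => Real.cos x - (1 - x ^ 2 / 2 + x ^ 4 / 24 - x ^ 6 / 720)) (fun x => by
      have e1 := (Real.hasDerivAt_sin x).sub ((((hasDerivAt_id x).sub ((hasDerivAt_pow 3 x).div_const 6)).add ((hasDerivAt_pow 5 x).div_const 120)).sub ((hasDerivAt_pow 7 x).div_const 5040))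
      exact e1.congr_deriv (by simp; ring)) (by norm_num) (fun x hx => by
      have := cos_ge6 hx
      linarith) hx
  linarith

lemma Dpoly {y : ℝ} (h0 : 0 ≤ y) (h1 : y ≤ 1 / 2) :
    0 ≤ 86 / 100 - 37624 / 10000 * y + (270 / 100 - (43 / 100) ^ 2) * y ^ 2 + 51158 / 10000 * y ^ 3
      - 2 * (43 / 100) * (135 / 100) * y ^ 4 - 33130 / 10000 * y ^ 5 - (135 / 100) ^ 2 * y ^ 6 := by
  rcases le_total y (1 / 4) with h2 | h2
  · have e : 86 / 100 - 37624 / 10000 * y + (270 / 100 - (43 / 100) ^ 2) * y ^ 2 + 51158 / 10000 * y ^ 3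
      - 2 * (43 / 100) * (135 / 100) * y ^ 4 - 33130 / 10000 * y ^ 5 - (135 / 100) ^ 2 * y ^ 6 =
      (88064/25) * ((1/4 - y) ^ 6) + (10801664/625) * (y * (1/4 - y) ^ 5) + (21386736/625) * (y ^ 2 * (1/4 - y) ^ 4) + (21766936/625) * (y ^ 3 * (1/4 - y) ^ 3) + (11961422/625) * (y ^ 4 * (1/4 - y) ^ 2) + (1344791/250) * (y ^ 5 * (1/4 - y)) + (6074887/10000) * (y ^ 6) := by
      ring
    rw [e]
    have : 0 ≤ 1 / 4 - y := by linarith
    positivity
  · have e : 86 / 100 - 37624 / 10000 * y + (270 / 100 - (43 / 100) ^ 2) * y ^ 2 + 51158 / 10000 * y ^ 3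
      - 2 * (43 / 100) * (135 / 100) * y ^ 4 - 33130 / 10000 * y ^ 5 - (135 / 100) ^ 2 * y ^ 6 =
      (6074887/10000) * ((1/2 - y) ^ 6) + (4776751/2500) * ((y - 1/4) * (1/2 - y) ^ 5) + (4489893/2500) * ((y - 1/4) ^ 2 * (1/2 - y) ^ 4) + (38842/125) * ((y - 1/4) ^ 3 * (1/2 - y) ^ 3) + (24353/625) * ((y - 1/4) ^ 4 * (1/2 - y) ^ 2) + (247996/625) * ((y - 1/4) ^ 5 * (1/2 - y)) + (108748/625) * ((y - 1/4) ^ 6) := by
      ring
    rw [e]
    have h3 : 0 ≤ 1 / 2 - y := by linarith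
    have h4 : 0 ≤ y - 1 / 4 := by linarith
    positivity

lemma qf_nonneg (y : ℝ) : 0 ≤ qf y := by
  unfold qf
  split_ifs with h
  · unfold qg
    have hpi := Real.pi_pos
    have h1 : Real.sin (2 * Real.pi * |y|) = -Real.sin (2 * Real.pi * (1 - |y|)) := by
      have : 2 * Real.pi * (1 - |y|) = 2 * Real.pi - 2 * Real.pi * |y| := by ring
      rw [this, Real.sin_two_pi_sub, neg_neg]
    have h2 : Real.sin (2 * Real.pi * (1 - |y|)) ≤ 2 * Real.pi * (1 - |y|) :=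
      Real.sin_le (mul_nonneg (by positivity) (by linarith))
    have h3 : -(1 - |y|) ≤ Real.sin (2 * Real.pi * |y|) / (2 * Real.pi) := by
      rw [le_div_iff₀ (by positivity), h1]
      linarith
    linarith
  · exact le_rfl

/-- the polynomial of the test function -/
noncomputable def pq (y : ℝ) : ℝ := 1 - 43 / 100 * y ^ 2 - 135 / 100 * y ^ 4

lemma pq_dom {y : ℝ} (h0 : 0 ≤ y) (h1 : y ≤ 1 / 2) : pq y ^ 2 ≤ qg (83 / 100 * y) := by
  have hpi := Real.pi_pos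
  have p1 := Real.pi_gt_d6
  have p2 := Real.pi_lt_d6
  have hD := Dpoly h0 h1
  have hx : 0 ≤ 2 * Real.pi * (83 / 100 * y) := by positivity
  have hs := sin_ge7 hx
  have h3 : (1 - (83 / 100 * y)) + ((2 * Real.pi * (83 / 100 * y)) - (2 * Real.pi * (83 / 100 * y)) ^ 3 / 6 + (2 * Real.pi * (83 / 100 * y)) ^ 5 / 120 - (2 * Real.pi * (83 / 100 * y)) ^ 7 / 5040) / (2 * Real.pi) ≤ qg (83 / 100 * y) := by
    unfold qg
    gcongr
  have e1 : (1 - (83 / 100 * y)) + ((2 * Real.pi * (83 / 100 * y)) - (2 * Real.pi * (83 / 100 * y)) ^ 3 / 6 + (2 * Real.pi * (83 / 100 * y)) ^ 5 / 120 - (2 * Real.pi * (83 / 100 * y)) ^ 7 / 5040) / (2 * Real.pi) =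
      1 - (Real.pi ^ 2) * (4 * (83 / 100) ^ 3 / 6 * y ^ 3) + (Real.pi ^ 4) * (16 * (83 / 100) ^ 5 / 120 * y ^ 5) - (Real.pi ^ 6) * (64 * (83 / 100) ^ 7 / 5040 * y ^ 7) := by
    field_simp
    ring
  rw [e1] at h3
  have q2 : Real.pi ^ 2 ≤ 3.141593 ^ 2 := by gcongr
  have q4 : (3.141592:ℝ) ^ 4 ≤ Real.pi ^ 4 := by gcongr
  have q6 : Real.pi ^ 6 ≤ 3.141593 ^ 6 := by gcongr
  have r2 : Real.pi ^ 2 * (4 * (83 / 100) ^ 3 / 6 * y ^ 3) ≤ 37624 / 10000 * y ^ 3 := by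
    have : Real.pi ^ 2 * (4 * (83 / 100) ^ 3 / 6 * y ^ 3) = (Real.pi ^ 2 * (4 * (83 / 100) ^ 3 / 6)) * y ^ 3 := by ring
    rw [this]
    apply mul_le_mul_of_nonneg_right _ (by positivity)
    calc Real.pi ^ 2 * (4 * (83 / 100) ^ 3 / 6) ≤ 3.141593 ^ 2 * (4 * (83 / 100) ^ 3 / 6) := by gcongr
      _ ≤ _ := by norm_num
  have r4 : 51158 / 10000 * y ^ 5 ≤ Real.pi ^ 4 * (16 * (83 / 100) ^ 5 / 120 * y ^ 5) := by
    have : Real.pi ^ 4 * (16 * (83 / 100) ^ 5 / 120 * y ^ 5) = (Real.pi ^ 4 * (16 * (83 / 100) ^ 5 / 120)) * y ^ 5 := by ring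
    rw [this]
    apply mul_le_mul_of_nonneg_right _ (by positivity)
    calc (51158 / 10000 : ℝ) ≤ 3.141592 ^ 4 * (16 * (83 / 100) ^ 5 / 120) := by norm_num
      _ ≤ _ := by gcongr
  have r6 : Real.pi ^ 6 * (64 * (83 / 100) ^ 7 / 5040 * y ^ 7) ≤ 33130 / 10000 * y ^ 7 := by
    have : Real.pi ^ 6 * (64 * (83 / 100) ^ 7 / 5040 * y ^ 7) = (Real.pi ^ 6 * (64 * (83 / 100) ^ 7 / 5040)) * y ^ 7 := by ring
    rw [this]
    apply mul_le_mul_of_nonneg_right _ (by positivity)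
    calc Real.pi ^ 6 * (64 * (83 / 100) ^ 7 / 5040) ≤ 3.141593 ^ 6 * (64 * (83 / 100) ^ 7 / 5040) := by gcongr
      _ ≤ _ := by norm_num
  have h5 : pq y ^ 2 = 1 - 86 / 100 * y ^ 2 - (270 / 100 - (43 / 100) ^ 2) * y ^ 4 + 2 * (43 / 100) * (135 / 100) * y ^ 6 + (135 / 100) ^ 2 * y ^ 8 := by
    unfold pq; ring
  have h6 := mul_nonneg (sq_nonneg y) hD
  rw [h5]
  nlinarith [h6]

/-- the bump -/
noncomputable def chq : ContDiffBump (0:ℝ) := ⟨495 / 1000, 499 / 1000, by norm_num, by norm_num⟩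

/-- the test function -/
noncomputable def hq (y : ℝ) : ℝ := Real.sqrt (83 / 100) * pq y * chq y

lemma hq_sq (y : ℝ) : hq y ^ 2 = 83 / 100 * (pq y ^ 2 * (chq y) ^ 2) := by
  unfold hq
  rw [mul_pow, mul_pow, Real.sq_sqrt (by norm_num)]
  ring

lemma hq_smooth : ContDiff ℝ ∞ hq := by
  unfold hq pq
  have : ContDiff ℝ ∞ (fun y : ℝ => chq y) := chq.contDiff
  fun_prop

lemma pq_even (y : ℝ) : pq (-y) = pq y := by unfold pq; ring

lemma hq_even (y : ℝ) : hq (-y) = hq y := by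
  unfold hq
  rw [pq_even, chq.neg]

lemma chq_zero {y : ℝ} (hy : 499 / 1000 ≤ |y|) : chq y = 0 := by
  apply chq.zero_of_le_dist
  rw [Real.dist_eq, sub_zero]
  exact hy

lemma chq_one {y : ℝ} (hy : |y| ≤ 495 / 1000) : chq y = 1 := by
  apply chq.one_of_mem_closedBall
  rw [mem_closedBall_zero_iff, Real.norm_eq_abs]
  exact hy

lemma hq_dom (y : ℝ) : hq y ^ 2 ≤ 83 / 100 * qf (83 / 100 * y) := by
  rw [hq_sq]
  apply mul_le_mul_of_nonneg_left _ (by norm_num)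
  by_cases hy : 499 / 1000 ≤ |y|
  · rw [chq_zero hy]
    have : 0 ≤ qf (83 / 100 * y) := qf_nonneg _
    simpa using this
  · push Not at hy
    have h1 : chq y ^ 2 ≤ 1 := by
      have h2 : chq y ≤ 1 := chq.le_one
      have h3 : 0 ≤ chq y := chq.nonneg
      nlinarith
    have h4 : qf (83 / 100 * y) = qg (83 / 100 * |y|) := by
      unfold qf
      rw [abs_mul, abs_of_pos (by norm_num : (0:ℝ) < 83 / 100), if_pos (by linarith)]
    have h5 : pq y = pq |y| := by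
      rcases abs_choice y with h | h
      · rw [h]
      · rw [h, pq_even]
    rw [h4, h5]
    calc pq |y| ^ 2 * chq y ^ 2 ≤ pq |y| ^ 2 * 1 := by gcongr
      _ = pq |y| ^ 2 := mul_one _
      _ ≤ _ := pq_dom (abs_nonneg _) (by linarith)

lemma hq_supp (y : ℝ) (hy : 499 / 1000 ≤ |y|) : hq y = 0 := by
  unfold hq
  rw [chq_zero hy, mul_zero]

lemma hq_int : 1 / 2 * (83 / 100 * ((495 / 1000) ^ 2 - 43 / 100 * (495 / 1000) ^ 4 + ((43 / 100) ^ 2 - 270 / 100) * (495 / 1000) ^ 6 / 3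
      + (43 / 100) * (135 / 100) * (495 / 1000) ^ 8 / 2 + (135 / 100) ^ 2 * (495 / 1000) ^ 10 / 5)) ≤ ∫ y in (0:ℝ)..(1 / 2), y * hq y ^ 2 := by
  have hc : Continuous (fun y : ℝ => y * hq y ^ 2) := by
    have := hq_smooth.continuous
    fun_prop
  have h1 : ∫ y in (0:ℝ)..(1 / 2), y * hq y ^ 2 = (∫ y in (0:ℝ)..(495 / 1000), y * hq y ^ 2) + ∫ y in (495 / 1000:ℝ)..(1 / 2), y * hq y ^ 2 :=
    (intervalIntegral.integral_add_adjacent_intervals (hc.intervalIntegrable _ _) (hc.intervalIntegrable _ _)).symm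
  have h2 : 0 ≤ ∫ y in (495 / 1000:ℝ)..(1 / 2), y * hq y ^ 2 := by
    apply intervalIntegral.integral_nonneg (by norm_num)
    intro y hy
    have : 0 ≤ y := le_trans (by norm_num) hy.1
    positivity
  have h3 : ∫ y in (0:ℝ)..(495 / 1000), y * hq y ^ 2 = ∫ y in (0:ℝ)..(495 / 1000), 83 / 100 * (y * pq y ^ 2) := by
    apply intervalIntegral.integral_congr
    intro y hy
    rw [uIcc_of_le (by norm_num)] at hy
    simp only
    rw [hq_sq, chq_one (by rw [abs_of_nonneg hy.1]; exact hy.2)]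
    ring
  have h4 : ∫ y in (0:ℝ)..(495 / 1000), 83 / 100 * (y * pq y ^ 2) =
      1 / 2 * (83 / 100 * ((495 / 1000) ^ 2 - 43 / 100 * (495 / 1000) ^ 4 + ((43 / 100) ^ 2 - 270 / 100) * (495 / 1000) ^ 6 / 3
      + (43 / 100) * (135 / 100) * (495 / 1000) ^ 8 / 2 + (135 / 100) ^ 2 * (495 / 1000) ^ 10 / 5)) := by
    have hd : ∀ y ∈ uIcc (0:ℝ) (495 / 1000), HasDerivAt (fun y => 1 / 2 * (83 / 100 * (y ^ 2 - 43 / 100 * y ^ 4 + ((43 / 100) ^ 2 - 270 / 100) * y ^ 6 / 3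
      + (43 / 100) * (135 / 100) * y ^ 8 / 2 + (135 / 100) ^ 2 * y ^ 10 / 5))) (83 / 100 * (y * pq y ^ 2)) y := by
      intro y _
      have e1 := ((((((hasDerivAt_pow 2 y).sub ((hasDerivAt_pow 4 y).const_mul (43 / 100))).add
        (((hasDerivAt_pow 6 y).const_mul ((43 / 100) ^ 2 - 270 / 100)).div_const 3)).add
        (((hasDerivAt_pow 8 y).const_mul ((43 / 100) * (135 / 100))).div_const 2)).add
        (((hasDerivAt_pow 10 y).const_mul ((135 / 100) ^ 2)).div_const 5)).const_mul (83 / 100)).const_mul (1 / 2)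
      refine e1.congr_deriv ?_
      unfold pq
      simp
      ring
    rw [intervalIntegral.integral_eq_sub_of_hasDerivAt hd (by
      apply Continuous.intervalIntegrable
      unfold pq
      fun_prop)]
    norm_num
  rw [h1, h3, h4]
  linarith

theorem exists_testQ : ∃ f : TF, (∀ y, f.h y ^ 2 ≤ 83 / 100 * qf (83 / 100 * y)) ∧ 1 < kap0 f.h := by
  refine ⟨⟨hq, 499 / 1000, hq_smooth, hq_even, by norm_num, by norm_num, hq_supp⟩, hq_dom, ?_⟩
  show 1 < kap0 hq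
  unfold kap0
  have h1 := hq_int
  have h2 : hq 0 ^ 2 = 83 / 100 := by
    rw [hq_sq, chq_one (by norm_num)]
    unfold pq
    norm_num
  rw [h2]
  refine lt_of_lt_of_le ?_ (add_le_add_right (mul_le_mul_of_nonneg_left h1 (by norm_num)) _)
  norm_num

end Pool.Agent.Helper78.SG
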