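import Pool.Agent.Helper78.SG.Moments
import Pool.Agent.Helper78.SG.Weak
import Pool.Agent.Helper78.SG.Tail
import Pool.Agent.Helper78.SG.PosQ
import Pool.Agent.Helper78.SG.Parseval
import Pool.Agent.Helper78.SG.TestQ
import Pool.Agent.Helper78.SG.Iso

/-!
# SG: the main theorem: a positive proportion of the zeros is close to another zero
-/

open MeasureTheory Set Filter Topology
open Pool.Agent.Helper57.Zeta Pool.Agent.Helper57.PC Pool.Agent.Helper57.LH
open scoped ContDiff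

namespace Pool.Agent.Helper78.SG

lemma kz_iso {h : ℝ → ℝ} {L t : ℝ} {ρ : ℂ} (hρ : ρ.re = 1 / 2) : kz h L t ρ = ker h 0 (L * (t - ρ.im)) := by
  unfold kz
  rw [hρ, sub_self, mul_zero]

open Classical in
/-- the deviation between the sum over all zeros and the sum over isolated zeros -/
lemma deviation (f : TF) {T ε : ℝ} (hT : 1 < T) {t : ℝ}
    (htail : ∀ F : Finset ZS, (∀ ρ ∈ F, ρ ∉ ZT T) → ∑ ρ ∈ F, mx ρ * |kz f.h (Real.log T) t ρ| ≤ ε) :
    |Xf f.h (Real.log T) t - ∑ ρ ∈ (ZT T).filter (fun ρ => ¬ Close T ρ), ker f.h 0 (Real.log T * (t - (ρ : ℂ).im))| ≤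
      (∑ ρ ∈ (ZT T).filter (Close T), mx ρ * |kz f.h (Real.log T) t ρ|) + ε := by
  have hL : 0 < Real.log T := Real.log_pos hT
  have hs := explicit_h f hL t
  have h1 : |Xf f.h (Real.log T) t - ∑ ρ ∈ ZT T, mx ρ * kz f.h (Real.log T) t ρ| ≤ ε := by
    have hlim : Tendsto (fun F : Finset ZS => |(∑ ρ ∈ F, mx ρ * kz f.h (Real.log T) t ρ) - ∑ ρ ∈ ZT T, mx ρ * kz f.h (Real.log T) t ρ|)
        atTop (𝓝 |Xf f.h (Real.log T) t - ∑ ρ ∈ ZT T, mx ρ * kz f.h (Real.log T) t ρ|) :=
      (hs.sub_const _).abs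
    refine le_of_tendsto hlim ?_
    filter_upwards [eventually_ge_atTop (ZT T)] with F hF
    rw [← Finset.sum_sdiff hF, add_sub_cancel_right]
    calc |∑ ρ ∈ F \ ZT T, mx ρ * kz f.h (Real.log T) t ρ| ≤ ∑ ρ ∈ F \ ZT T, |mx ρ * kz f.h (Real.log T) t ρ| := Finset.abs_sum_le_sum_abs _ _
      _ = ∑ ρ ∈ F \ ZT T, mx ρ * |kz f.h (Real.log T) t ρ| := by
          refine Finset.sum_congr rfl fun ρ _ => ?_
          rw [abs_mul, abs_of_nonneg (mx_nonneg _)]
      _ ≤ ε := htail _ (fun ρ hρ => (Finset.mem_sdiff.mp hρ).2)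
  have h2 : ∑ ρ ∈ ZT T, mx ρ * kz f.h (Real.log T) t ρ =
      (∑ ρ ∈ (ZT T).filter (Close T), mx ρ * kz f.h (Real.log T) t ρ) +
      ∑ ρ ∈ (ZT T).filter (fun ρ => ¬ Close T ρ), ker f.h 0 (Real.log T * (t - (ρ : ℂ).im)) := by
    rw [← Finset.sum_filter_add_sum_filter_not (ZT T) (Close T)]
    congr 1
    refine Finset.sum_congr rfl fun ρ hρ => ?_
    obtain ⟨h3, h4, _⟩ := iso_props hT (Finset.mem_filter.mp hρ).2
    rw [h4, one_mul, kz_iso h3]
  have h3 : |∑ ρ ∈ (ZT T).filter (Close T), mx ρ * kz f.h (Real.log T) t ρ| ≤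
      ∑ ρ ∈ (ZT T).filter (Close T), mx ρ * |kz f.h (Real.log T) t ρ| := by
    refine (Finset.abs_sum_le_sum_abs _ _).trans (le_of_eq ?_)
    refine Finset.sum_congr rfl fun ρ _ => ?_
    rw [abs_mul, abs_of_nonneg (mx_nonneg _)]
  rw [h2] at h1
  have h4 := abs_le.mp h1
  have h5 := abs_le.mp h3
  rw [abs_le]
  constructor <;> linarith [h4.1, h4.2, h5.1, h5.2]

open Classical in
/-- the upper bound from positivity and separation -/
lemma upper (f : TF) (hdom : ∀ y, f.h y ^ 2 ≤ 83 / 100 * qf (83 / 100 * y)) {T : ℝ} (hT : 1 < T) :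
    Integrable (fun t => (∑ ρ ∈ (ZT T).filter (fun ρ => ¬ Close T ρ), ker f.h 0 (Real.log T * (t - (ρ : ℂ).im))) ^ 2) ∧
    ∫ t, (∑ ρ ∈ (ZT T).filter (fun ρ => ¬ Close T ρ), ker f.h 0 (Real.log T * (t - (ρ : ℂ).im))) ^ 2 ≤
      2 * Real.pi / Real.log T * NT T := by
  have hL : 0 < Real.log T := Real.log_pos hT
  obtain ⟨hi, he⟩ := parseval f hL ((ZT T).filter (fun ρ => ¬ Close T ρ)) (fun ρ : ZS => (ρ : ℂ).im)
  refine ⟨hi, ?_⟩
  rw [he]
  have hcs : HasCompactSupport f.h := by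
    refine HasCompactSupport.of_support_subset_isCompact (isCompact_Icc (a := -f.th) (b := f.th)) ?_
    intro x hx
    by_contra hn
    apply hx
    apply f.supp
    rw [Set.mem_Icc, not_and_or] at hn
    rcases hn with h | h
    · rw [not_le] at h
      exact le_trans (by linarith) (neg_le_abs x)
    · rw [not_le] at h
      exact le_trans h.le (le_abs_self x)
  have hpd := pos_defQ f.smooth.continuous hcs (by norm_num) hdom ((ZT T).filter (fun ρ => ¬ Close T ρ))
    (fun ρ : ZS => Real.log T * (ρ : ℂ).im)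
  have htri : ∑ i ∈ (ZT T).filter (fun ρ => ¬ Close T ρ), ∑ j ∈ (ZT T).filter (fun ρ => ¬ Close T ρ),
      Kq ((Real.log T * (i : ℂ).im - Real.log T * (j : ℂ).im) / (2 * Real.pi * (83 / 100))) ≤ NT T := by
    calc ∑ i ∈ (ZT T).filter (fun ρ => ¬ Close T ρ), ∑ j ∈ (ZT T).filter (fun ρ => ¬ Close T ρ),
          Kq ((Real.log T * (i : ℂ).im - Real.log T * (j : ℂ).im) / (2 * Real.pi * (83 / 100)))
        ≤ ∑ i ∈ (ZT T).filter (fun ρ => ¬ Close T ρ), mx i := by
          refine Finset.sum_le_sum fun i hi => ?_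
          obtain ⟨_, h4, h5⟩ := iso_props hT (Finset.mem_filter.mp hi).2
          rw [h4, ← Finset.add_sum_erase _ _ hi, sub_self, zero_div, Kq_zero]
          have h9 : ∑ j ∈ ((ZT T).filter (fun ρ => ¬ Close T ρ)).erase i,
              Kq ((Real.log T * (i : ℂ).im - Real.log T * (j : ℂ).im) / (2 * Real.pi * (83 / 100))) ≤ 0 := by
            apply Finset.sum_nonpos
            intro j hj
            refine Kq_nonpos ?_
            have h6 := h5 j (Finset.ne_of_mem_erase hj)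
            rw [← mul_sub, abs_div, abs_mul, abs_of_pos hL, abs_of_pos (by positivity : 0 < 2 * Real.pi * (83 / 100)),
              lt_div_iff₀ (by positivity)]
            rw [lt_div_iff₀ (by positivity)] at h6
            linarith
          linarith
      _ ≤ ∑ i ∈ ZT T, mx i := Finset.sum_le_sum_of_subset_of_nonneg (Finset.filter_subset _ _) (fun i _ _ => mx_nonneg _)
      _ = NT T := sum_ZT_mx T
  have h7 : ∑ i ∈ (ZT T).filter (fun ρ => ¬ Close T ρ), ∑ j ∈ (ZT T).filter (fun ρ => ¬ Close T ρ),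
      ker (fun y => f.h y ^ 2) 0 (Real.log T * ((i : ℂ).im - (j : ℂ).im)) ≤ NT T := by
    refine le_trans (le_of_eq ?_) (hpd.trans htri)
    refine Finset.sum_congr rfl fun i _ => Finset.sum_congr rfl fun j _ => ?_
    rw [mul_sub]
  have h8 : 0 ≤ 2 * Real.pi / Real.log T := by positivity
  exact mul_le_mul_of_nonneg_left h7 h8

open Classical in
/-- Main theorem: a positive proportion of the zeros is close. -/
theorem main_close : ∃ p : ℝ, 0 < p ∧ ∀ᶠ T : ℝ in atTop,
    p * (T * Real.log T) ≤ ∑ ρ ∈ (ZT T).filter (Close T), mx ρ := by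
  obtain ⟨f, hdom, hkap⟩ := exists_testQ
  obtain ⟨C, hC, h4⟩ := X_fourth f
  obtain ⟨g, hg⟩ : ∃ g : ℝ, g = kap0 f.h - 1 := ⟨_, rfl⟩
  have hg0 : 0 < g := by rw [hg]; linarith
  have hk : kap0 f.h = 1 + g := by rw [hg]; ring
  obtain ⟨δ, hδe⟩ : ∃ δ : ℝ, δ = g / (8 * (1 + g)) := ⟨_, rfl⟩
  have hδ : 0 < δ := by rw [hδe]; positivity
  have hδk : kap0 f.h * (1 - 2 * δ) = 1 + 3 / 4 * g := by
    rw [hk, hδe]; field_simp; ring
  have hδ1 : δ < 1 / 2 := by
    rw [hδe, div_lt_iff₀ (by positivity)]; linarith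
  obtain ⟨η, hηe⟩ : ∃ η : ℝ, η = g / (64 * (1 + C)) := ⟨_, rfl⟩
  have hη : 0 < η := by rw [hηe]; positivity
  obtain ⟨lam, hlame⟩ : ∃ lam : ℝ, lam = g / (16 * C) := ⟨_, rfl⟩
  have hlam : 0 < lam := by rw [hlame]; positivity
  obtain ⟨ε, hεe⟩ : ∃ ε : ℝ, ε = lam * g / 4 := ⟨_, rfl⟩
  have hε : 0 < ε := by rw [hεe]; positivity
  obtain ⟨p, hp, hweak⟩ := weak_type f hη hε
  refine ⟨p, hp, ?_⟩
  obtain ⟨T0, hT0⟩ := NT_upper (g / 16) (by positivity)
  filter_upwards [hweak, h4 δ hδ hδ1, X_second f hδ hδ1 (ε := g / 8) (by positivity), X_int f hδ hδ1,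
    tail_small f hδ hδ1 hη, eventually_ge_atTop T0, eventually_gt_atTop 1] with T h1 h2 h3 h5 h6 h7 h8
  by_contra hcon
  push Not at hcon
  have hL : 0 < Real.log T := Real.log_pos h8
  have hT0' : 0 < T := by linarith
  have hvol := h1 ((ZT T).filter (Close T)) (Finset.filter_subset _ _) hcon.le
  obtain ⟨hZi, hZ⟩ := upper f hdom h8
  obtain ⟨hX1, hX2, hX4⟩ := h5
  obtain ⟨J, hJ⟩ : ∃ J : Set ℝ, J = Icc (δ * T) ((1 - δ) * T) := ⟨_, rfl⟩
  obtain ⟨Z, hZe⟩ : ∃ Z : ℝ → ℝ, Z = fun t => ∑ ρ ∈ (ZT T).filter (fun ρ => ¬ Close T ρ), ker f.h 0 (Real.log T * (t - (ρ : ℂ).im)) := ⟨_, rfl⟩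
  obtain ⟨X, hXe⟩ : ∃ X : ℝ → ℝ, X = fun t => Xf f.h (Real.log T) t := ⟨_, rfl⟩
  obtain ⟨G, hGe⟩ : ∃ G : ℝ → ℝ, G = fun t => ∑ ρ ∈ (ZT T).filter (Close T), mx ρ * |kz f.h (Real.log T) t ρ| := ⟨_, rfl⟩
  have hG : Continuous G := by
    rw [hGe]
    refine continuous_finsetSum _ fun ρ _ => continuous_const.mul (kz_cont f _ _).abs
  have hB : MeasurableSet {t | η < G t} := (isOpen_lt continuous_const hG).measurableSet
  have hJm : MeasurableSet J := by rw [hJ]; exact measurableSet_Icc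
  have hZi' : Integrable (fun t => Z t ^ 2) := by rw [hZe]; exact hZi
  have hZ' : ∫ t, Z t ^ 2 ≤ 2 * Real.pi / Real.log T * NT T := by rw [hZe]; exact hZ
  rw [← hJ] at h2 h3 hX1 hX2 hX4
  have hX1' : IntegrableOn X J := by rw [hXe]; exact hX1
  have hX2' : IntegrableOn (fun t => X t ^ 2) J := by rw [hXe]; exact hX2
  have hX4' : IntegrableOn (fun t => X t ^ 4) J := by rw [hXe]; exact hX4
  have h2' : ∫ t in J, X t ^ 4 ≤ C * T := by rw [hXe]; exact h2
  have h3' : (kap0 f.h * (1 - 2 * δ) - g / 8) * T ≤ ∫ t in J, X t ^ 2 := by rw [hXe]; exact h3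
  have hvol' : volume {t | η < G t} ≤ ENNReal.ofReal (ε * T) := by rw [hGe]; exact hvol
  have hBfin : volume {t | η < G t} ≠ ⊤ := ne_top_of_le_ne_top ENNReal.ofReal_ne_top hvol'
  have hBreal : volume.real {t | η < G t} ≤ ε * T := by
    rw [Measure.real]
    exact ENNReal.toReal_le_of_le_ofReal (by positivity) hvol'
  have hJvol : volume.real J ≤ T := by
    rw [hJ, Measure.real, Real.volume_Icc, ENNReal.toReal_ofReal (by nlinarith)]
    nlinarith
  have hJfin : volume J ≠ ⊤ := by rw [hJ, Real.volume_Icc]; exact ENNReal.ofReal_ne_top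
  -- pointwise inequality on J
  have hpt : ∀ t ∈ J, X t ^ 2 ≤ Z t ^ 2 + (lam + 4 * η) * X t ^ 4 + 1 / (4 * lam) * ({t | η < G t}.indicator (fun _ => (1:ℝ)) t) + 4 * η := by
    intro t ht
    have hdev : |X t - Z t| ≤ G t + η := by
      rw [hXe, hZe, hGe]
      exact deviation f h8 (h6 t (by rw [← hJ]; exact ht))
    by_cases hb : η < G t
    · rw [Set.indicator_of_mem (show t ∈ {t | η < G t} from hb), mul_one]
      have e1 : X t ^ 2 ≤ lam * X t ^ 4 + 1 / (4 * lam) := by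
        have := sq_nonneg (2 * lam * X t ^ 2 - 1)
        have e2 : 4 * lam * (lam * X t ^ 4 + 1 / (4 * lam) - X t ^ 2) = (2 * lam * X t ^ 2 - 1) ^ 2 := by
          field_simp; ring
        have e3 : 0 ≤ 4 * lam * (lam * X t ^ 4 + 1 / (4 * lam) - X t ^ 2) := by rw [e2]; exact this
        have e4 := nonneg_of_mul_nonneg_right e3 (by positivity : 0 < 4 * lam)
        linarith
      have e5 : 0 ≤ X t ^ 4 := by positivity
      nlinarith [sq_nonneg (Z t), mul_nonneg hη.le e5]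
    · rw [Set.indicator_of_notMem (show t ∉ {t | η < G t} from hb), mul_zero, add_zero]
      rw [not_lt] at hb
      have e1 : |X t - Z t| ≤ 2 * η := by linarith
      have e2 : |X t| ≤ 1 + X t ^ 4 := by
        by_cases h9 : |X t| ≤ 1
        · have : 0 ≤ X t ^ 4 := by positivity
          linarith
        · push Not at h9
          have h10 : X t ^ 4 = |X t| ^ 4 := by rw [← abs_pow, abs_of_nonneg (by positivity)]
          have h11 : |X t| ≤ |X t| ^ 4 := by
            calc |X t| = |X t| ^ 1 := (pow_one _).symm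
              _ ≤ |X t| ^ 4 := pow_le_pow_right₀ h9.le (by norm_num)
          linarith
      have e3 : X t ^ 2 ≤ Z t ^ 2 + 2 * (|X t| * |X t - Z t|) := by
        have h12 : X t ^ 2 - Z t ^ 2 = 2 * (X t * (X t - Z t)) - (X t - Z t) ^ 2 := by ring
        have h13 : X t * (X t - Z t) ≤ |X t| * |X t - Z t| := by rw [← abs_mul]; exact le_abs_self _
        nlinarith [sq_nonneg (X t - Z t)]
      have e4 : |X t| * |X t - Z t| ≤ (1 + X t ^ 4) * (2 * η) := by
        gcongr
      have e5 : 0 ≤ X t ^ 4 := by positivity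
      nlinarith [mul_nonneg hlam.le e5]
  have hindi : Integrable ({t | η < G t}.indicator (fun _ => (1:ℝ))) :=
    (integrable_indicator_iff hB).mpr (integrableOn_const hBfin)
  have hint : ∫ t in J, X t ^ 2 ≤ (∫ t in J, Z t ^ 2) + (lam + 4 * η) * (∫ t in J, X t ^ 4) +
      1 / (4 * lam) * (∫ t in J, {t | η < G t}.indicator (fun _ => (1:ℝ)) t) + 4 * η * volume.real J := by
    have hI : IntegrableOn (fun t => Z t ^ 2 + (lam + 4 * η) * X t ^ 4 + 1 / (4 * lam) * ({t | η < G t}.indicator (fun _ => (1:ℝ)) t) + 4 * η) J :=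
      ((hZi'.integrableOn.add (hX4'.const_mul _)).add (hindi.integrableOn.const_mul _)).add (integrableOn_const hJfin)
    calc ∫ t in J, X t ^ 2 ≤ ∫ t in J, (Z t ^ 2 + (lam + 4 * η) * X t ^ 4 + 1 / (4 * lam) * ({t | η < G t}.indicator (fun _ => (1:ℝ)) t) + 4 * η) :=
          setIntegral_mono_on hX2' hI hJm hpt
      _ = _ := by
          rw [integral_add, integral_add, integral_add, integral_const_mul, integral_const_mul, setIntegral_const, smul_eq_mul]
          · ring
          · exact hZi'.integrableOn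
          · exact hX4'.const_mul _
          · exact hZi'.integrableOn.add (hX4'.const_mul _)
          · exact hindi.integrableOn.const_mul _
          · exact (hZi'.integrableOn.add (hX4'.const_mul _)).add (hindi.integrableOn.const_mul _)
          · exact integrableOn_const hJfin
  have hi1 : ∫ t in J, {t | η < G t}.indicator (fun _ => (1:ℝ)) t ≤ ε * T := by
    calc ∫ t in J, {t | η < G t}.indicator (fun _ => (1:ℝ)) t ≤ ∫ t, {t | η < G t}.indicator (fun _ => (1:ℝ)) t :=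
          setIntegral_le_integral hindi (Eventually.of_forall fun t => Set.indicator_nonneg (fun _ _ => zero_le_one) t)
      _ = volume.real {t | η < G t} := by
          rw [integral_indicator hB, setIntegral_const, smul_eq_mul, mul_one]
      _ ≤ ε * T := hBreal
  have hi2 : ∫ t in J, Z t ^ 2 ≤ (1 + g / 16) * T := by
    calc ∫ t in J, Z t ^ 2 ≤ ∫ t, Z t ^ 2 := setIntegral_le_integral hZi' (Eventually.of_forall fun t => sq_nonneg _)
      _ ≤ 2 * Real.pi / Real.log T * NT T := hZ'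
      _ ≤ 2 * Real.pi / Real.log T * ((1 + g / 16) * (T * Real.log T / (2 * Real.pi))) := by
          have := hT0 T h7
          gcongr
      _ = (1 + g / 16) * T := by
          have : Real.log T ≠ 0 := hL.ne'
          field_simp
  have hlC : lam * C = g / 16 := by rw [hlame]; field_simp
  have hηC : 64 * (η * (1 + C)) = g := by rw [hηe]; field_simp
  have hle : 1 / (4 * lam) * ε = g / 16 := by rw [hεe]; field_simp; ring
  have h14 : (lam + 4 * η) * (∫ t in J, X t ^ 4) ≤ (lam + 4 * η) * (C * T) := by gcongr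
  have h15 : 1 / (4 * lam) * (∫ t in J, {t | η < G t}.indicator (fun _ => (1:ℝ)) t) ≤ 1 / (4 * lam) * (ε * T) := by gcongr
  have h16 : 4 * η * volume.real J ≤ 4 * η * T := by gcongr
  have h17 : (kap0 f.h * (1 - 2 * δ) - g / 8) * T ≤ (1 + g / 16) * T + (lam + 4 * η) * (C * T) + 1 / (4 * lam) * (ε * T) + 4 * η * T := by
    linarith
  have h18 : 1 / (4 * lam) * (ε * T) = g / 16 * T := by rw [← mul_assoc, hle]
  have h19 : (lam + 4 * η) * (C * T) + 4 * η * T = (g / 16 + g / 16) * T := by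
    have e1 : (lam + 4 * η) * (C * T) + 4 * η * T = (lam * C) * T + 4 * (η * (1 + C)) * T := by ring
    have e2 : 4 * (η * (1 + C)) = g / 16 := by linarith
    rw [e1, e2, hlC]; ring
  rw [hδk, h18] at h17
  have h20 : (1 + 3 / 4 * g - g / 8) * T ≤ (1 + g / 16 + (g / 16 + g / 16) + g / 16) * T := by linarith
  have h21 : (1 + g / 16 + (g / 16 + g / 16) + g / 16) * T < (1 + 3 / 4 * g - g / 8) * T := by
    apply mul_lt_mul_of_pos_right _ hT0'
    linarith
  linarith

end Pool.Agent.Helper78.SG
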