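import Pool.Agent.Helper78.SG.Defs

/-!
# SG-TA: Taylor formula at the right end point

`h` is smooth and vanishes (with all derivatives) on `[th, ∞)`, `th < 1/2`. So for `0 ≤ z ≤ 1/2`:
`∫_z^{1/2} (y - z) h''(y) dy = [(y - z) h'(y)]_z^{1/2} - ∫_z^{1/2} h' = 0 + h(z)`.
-/

open MeasureTheory Set Filter Topology
open Pool.Agent.Helper57.Zeta Pool.Agent.Helper57.PC Pool.Agent.Helper57.LH
open scoped ContDiff

namespace Pool.Agent.Helper78.SG

theorem h53_d1 (f : TF) : ContDiff ℝ ∞ (deriv f.h) :=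
  (contDiff_infty_iff_deriv.1 f.smooth).2

theorem h53_d2 (f : TF) : ContDiff ℝ ∞ (deriv (deriv f.h)) :=
  (contDiff_infty_iff_deriv.1 (h53_d1 f)).2

theorem h53_zero (f : TF) {y : ℝ} (hy : f.th < y) : f.h =ᶠ[𝓝 y] fun _ => (0 : ℝ) := by
  filter_upwards [Ioi_mem_nhds hy] with x hx
  exact f.supp x ((le_of_lt hx).trans (le_abs_self x))

theorem h53_zero1 (f : TF) {y : ℝ} (hy : f.th < y) : deriv f.h =ᶠ[𝓝 y] fun _ => (0 : ℝ) := by
  filter_upwards [Ioi_mem_nhds hy] with x hx
  rw [(h53_zero f hx).deriv_eq, deriv_const]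

theorem d2_cont (f : TF) : Continuous (deriv (deriv f.h)) :=
  (h53_d2 f).continuous

theorem d2_zero (f : TF) {y : ℝ} (hy : f.th < y) : deriv (deriv f.h) y = 0 := by
  rw [(h53_zero1 f hy).deriv_eq, deriv_const]

theorem taylor (f : TF) {z : ℝ} (hz : z ≤ 1 / 2) :
    ∫ y in z..(1 / 2), (y - z) * deriv (deriv f.h) y = f.h z := by
  have hd0 : Differentiable ℝ f.h := f.smooth.differentiable (by simp)
  have hd1 : Differentiable ℝ (deriv f.h) := (h53_d1 f).differentiable (by simp)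
  have h1 := intervalIntegral.integral_mul_deriv_eq_deriv_mul (a := z) (b := 1 / 2)
    (u := fun y => y - z) (v := deriv f.h) (u' := fun _ => (1 : ℝ)) (v' := deriv (deriv f.h))
    (fun y _ => (hasDerivAt_id y).sub_const z) (fun y _ => (hd1 y).hasDerivAt)
    intervalIntegrable_const ((d2_cont f).intervalIntegrable _ _)
  have h2 : ∫ y in z..(1 / 2), (1 : ℝ) * deriv f.h y = f.h (1 / 2) - f.h z := by
    simp only [one_mul]
    exact intervalIntegral.integral_deriv_eq_sub (fun y _ => hd0 y)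
      ((h53_d1 f).continuous.intervalIntegrable _ _)
  have h3 : f.h (1 / 2) = 0 := (h53_zero f f.th1).self_of_nhds
  have h4 : deriv f.h (1 / 2) = 0 := (h53_zero1 f f.th1).self_of_nhds
  rw [h2, h3, h4] at h1
  rw [h1]
  ring

end Pool.Agent.Helper78.SG
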