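import Pool.Agent.Helper78.SG.Explicit
import Pool.Agent.Helper78.SG.MTSmall
import Pool.Agent.Helper78.SG.Taylor

/-!
# SG-MA: the main term

`Xf h L t = (1/L) ∫_0^{1/2} y h''(y) MT (L y) t dy - prs h L t`, `L = log T`, `t ∈ [δT, T]`. For `L y ≥ 1`: `|MT (L y) t - log t| ≤ CM`
(`MT_bound`, its hypothesis `e^(Ly/2) ≤ t²` holds since `Ly/2 ≤ L/4`). For `L y ≤ 1`: `|MT (L y) t - log t| ≤ C/(L y)` (`MT_small`).
So `|(1/L)∫ y h'' MT - (log t/L) ∫_0^{1/2} y h''| ≤ C'/L`; `∫_0^{1/2} y h''(y) dy = h 0` (`taylor` with `z = 0`), and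
`|log t/L - 1| ≤ |log δ|/L`. Integrability of the integrand: `mt_integrable`.
-/

open MeasureTheory Set Filter Topology
open Pool.Agent.Helper57.Zeta Pool.Agent.Helper57.PC Pool.Agent.Helper57.LH
open scoped ContDiff Interval

namespace Pool.Agent.Helper78.SG

theorem main_term (f : TF) {δ ε : ℝ} (hδ : 0 < δ) (hε : 0 < ε) :
    ∀ᶠ T : ℝ in atTop, ∀ t ∈ Icc (δ * T) T,
      |Xf f.h (Real.log T) t - (f.h 0 - prs f.h (Real.log T) t)| ≤ ε := by
  obtain ⟨C, hC, hCb⟩ := MT_small
  obtain ⟨B, hB⟩ := isCompact_Icc.exists_bound_of_continuousOn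
    (s := Icc (0:ℝ) (1 / 2)) (f := deriv (deriv f.h)) (d2_cont f).continuousOn
  have hB0 : 0 ≤ B := (norm_nonneg _).trans (hB 0 ⟨le_rfl, by norm_num⟩)
  set K : ℝ := B * (|CM| / 2 + C) * (1 / 2) + |Real.log δ| * |f.h 0| with hK
  have hK0 : 0 ≤ K := by positivity
  have hev : ∀ᶠ T : ℝ in atTop, 1 + 2 * |Real.log δ| + K / ε ≤ Real.log T :=
    Real.tendsto_log_atTop.eventually_ge_atTop _
  filter_upwards [hev, eventually_gt_atTop 0] with T hT hT0
  intro t ht
  set L := Real.log T with hL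
  have hKε : 0 ≤ K / ε := by positivity
  have hLδ : 2 * |Real.log δ| ≤ L := by linarith
  have hL1 : 1 ≤ L := by linarith [abs_nonneg (Real.log δ)]
  have hLK : K / ε ≤ L := by linarith [abs_nonneg (Real.log δ)]
  have hL0 : 0 < L := by linarith
  have ht0 : 0 < t := lt_of_lt_of_le (mul_pos hδ hT0) ht.1
  have hlt1 : Real.log t ≤ L := Real.log_le_log ht0 ht.2
  have hlt2 : Real.log δ + L ≤ Real.log t := by
    rw [hL, ← Real.log_mul hδ.ne' hT0.ne']
    exact Real.log_le_log (mul_pos hδ hT0) ht.1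
  have hδa := neg_abs_le (Real.log δ)
  have hlt0 : 0 ≤ Real.log t := by linarith
  have ht1 : 1 ≤ t := (Real.log_nonneg_iff ht0).mp hlt0
  have hlin : |Real.log t / L - 1| ≤ |Real.log δ| / L := by
    rw [show Real.log t / L - 1 = (Real.log t - L) / L by field_simp, abs_div, abs_of_pos hL0]
    apply div_le_div_of_nonneg_right _ hL0.le
    rw [abs_le]; constructor <;> linarith [abs_nonneg (Real.log δ)]
  -- pointwise bound
  have hpt : ∀ y ∈ Set.uIoc (0:ℝ) (1 / 2),
      ‖y * deriv (deriv f.h) y * (MT (L * y) t - Real.log t)‖ ≤ B * (|CM| / 2 + C / L) := by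
    intro y hy
    rw [uIoc_of_le (by norm_num)] at hy
    have hy0 : 0 < y := hy.1
    have hg := hB y ⟨hy.1.le, hy.2⟩
    have hLy : 0 < L * y := mul_pos hL0 hy0
    have hkey : y * |MT (L * y) t - Real.log t| ≤ |CM| / 2 + C / L := by
      rcases le_total 1 (L * y) with h | h
      · have h2 : Real.exp (L * y / 2) ≤ t ^ 2 := by
          rw [← Real.exp_log (pow_pos ht0 2), Real.log_pow]
          apply Real.exp_le_exp.mpr
          have : L * y ≤ L * (1 / 2) := by gcongr; exact hy.2
          push_cast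
          linarith
        have h3 := MT_bound h ht1 h2
        have h4 : |MT (L * y) t - Real.log t| ≤ |CM| := h3.trans (le_abs_self _)
        calc y * |MT (L * y) t - Real.log t| ≤ (1 / 2) * |CM| := by
              apply mul_le_mul hy.2 h4 (abs_nonneg _) (by norm_num)
          _ ≤ |CM| / 2 + C / L := by
              have : 0 ≤ C / L := by positivity
              linarith
      · have h3 := hCb (L * y) t hLy h ht1
        calc y * |MT (L * y) t - Real.log t| ≤ y * (C / (L * y)) := by gcongr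
          _ = C / L := by field_simp
          _ ≤ |CM| / 2 + C / L := by linarith [abs_nonneg CM]
    rw [Real.norm_eq_abs, abs_mul, abs_mul, abs_of_pos hy0]
    rw [Real.norm_eq_abs] at hg
    calc y * |deriv (deriv f.h) y| * |MT (L * y) t - Real.log t|
        = |deriv (deriv f.h) y| * (y * |MT (L * y) t - Real.log t|) := by ring
      _ ≤ B * (|CM| / 2 + C / L) := by
          apply mul_le_mul hg hkey (by positivity) hB0
  have hint := intervalIntegral.norm_integral_le_of_norm_le_const hpt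
  have hI1 := mt_integrable f hL0 t
  have hI2 : IntervalIntegrable (fun y => y * deriv (deriv f.h) y * Real.log t) volume 0 (1 / 2) :=
    ((continuous_id.mul (d2_cont f)).mul continuous_const).intervalIntegrable _ _
  have hsplit : (∫ y in (0:ℝ)..(1 / 2), y * deriv (deriv f.h) y * (MT (L * y) t - Real.log t))
      = (∫ y in (0:ℝ)..(1 / 2), y * deriv (deriv f.h) y * MT (L * y) t) - f.h 0 * Real.log t := by
    have h1 : (∫ y in (0:ℝ)..(1 / 2), y * deriv (deriv f.h) y * (MT (L * y) t - Real.log t))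
        = ∫ y in (0:ℝ)..(1 / 2), (y * deriv (deriv f.h) y * MT (L * y) t
          - y * deriv (deriv f.h) y * Real.log t) := by
      congr 1; ext y; ring
    rw [h1, intervalIntegral.integral_sub hI1 hI2, intervalIntegral.integral_mul_const]
    have h2 := taylor f (z := 0) (by norm_num)
    simp only [sub_zero] at h2
    rw [h2]
  have hXf : Xf f.h L t - (f.h 0 - prs f.h L t)
      = 1 / L * (∫ y in (0:ℝ)..(1 / 2), y * deriv (deriv f.h) y * (MT (L * y) t - Real.log t))
        + (Real.log t / L - 1) * f.h 0 := by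
    rw [hsplit]
    unfold Xf
    field_simp
    ring
  rw [hXf]
  have hA : |1 / L * (∫ y in (0:ℝ)..(1 / 2),
      y * deriv (deriv f.h) y * (MT (L * y) t - Real.log t))| ≤ B * (|CM| / 2 + C) * (1 / 2) / L := by
    rw [abs_mul, abs_of_pos (by positivity : (0:ℝ) < 1 / L)]
    rw [Real.norm_eq_abs] at hint
    have h3 : C / L ≤ C := div_le_self hC.le hL1
    have h4 : |(1 / 2 : ℝ) - 0| = 1 / 2 := by norm_num
    rw [h4] at hint
    have h5 : B * (|CM| / 2 + C / L) * (1 / 2) ≤ B * (|CM| / 2 + C) * (1 / 2) := by gcongr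
    calc 1 / L * |∫ y in (0:ℝ)..(1 / 2), y * deriv (deriv f.h) y * (MT (L * y) t - Real.log t)|
        ≤ 1 / L * (B * (|CM| / 2 + C) * (1 / 2)) := by
          gcongr; exact hint.trans h5
      _ = _ := by ring
  have hB2 : |(Real.log t / L - 1) * f.h 0| ≤ |Real.log δ| * |f.h 0| / L := by
    rw [abs_mul]
    calc |Real.log t / L - 1| * |f.h 0| ≤ |Real.log δ| / L * |f.h 0| := by gcongr
      _ = _ := by ring
  calc _ ≤ |1 / L * (∫ y in (0:ℝ)..(1 / 2), y * deriv (deriv f.h) y * (MT (L * y) t - Real.log t))|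
        + |(Real.log t / L - 1) * f.h 0| := abs_add_le _ _
    _ ≤ B * (|CM| / 2 + C) * (1 / 2) / L + |Real.log δ| * |f.h 0| / L := add_le_add hA hB2
    _ = K / L := by rw [hK]; ring
    _ ≤ ε := by
        rw [div_le_iff₀ hL0]
        rw [div_le_iff₀ hε] at hLK
        linarith

end Pool.Agent.Helper78.SG
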