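import Pool.Agent.Helper78.SG.Defs

/-!
# SG-PD: positivity (the triangle dominates)

`β = 17/20`. `tri (u/(2πβ)) = ∫ β sc(β y) cos(u y) dy` (`Pool.Agent.Helper57.LS.sc_FT` with the substitution `x = β y`), so
`tri(u/(2πβ)) - ker (h²) 0 u = ∫ (β sc(β y) - h y ^ 2) cos(u y) dy` (`cosh (0 * y) = 1`) and
`∑_{i,j} cos((u i - u j) y) = (∑ cos(u i y))² + (∑ sin(u i y))² ≥ 0`.
-/

open MeasureTheory Set Filter Topology
open Pool.Agent.Helper57.Zeta Pool.Agent.Helper57.PC Pool.Agent.Helper57.LH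
open scoped ContDiff

namespace Pool.Agent.Helper78.SG

lemma pd_ker {h : ℝ → ℝ} (v : ℝ) :
    ker (fun y => h y ^ 2) 0 v = ∫ y, h y ^ 2 * Real.cos (v * y) := by
  unfold ker
  congr 1
  funext y
  rw [zero_mul, Real.cosh_zero, one_mul]

lemma pd_tri (v : ℝ) :
    Pool.Agent.Helper57.LS.tri (v / (2 * Real.pi * (17 / 20))) =
      ∫ y, (17 / 20 * sc (17 / 20 * y)) * Real.cos (v * y) := by
  have hpi : Real.pi ≠ 0 := Real.pi_ne_zero
  rw [← Pool.Agent.Helper57.LS.sc_FT]
  have h1 := Measure.integral_comp_mul_left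
    (fun x : ℝ => sc x * Real.cos (2 * Real.pi * (v / (2 * Real.pi * (17 / 20))) * x)) (17 / 20 : ℝ)
  have h2 : ∀ y : ℝ, (17 / 20 * sc (17 / 20 * y)) * Real.cos (v * y) =
      17 / 20 * (sc (17 / 20 * y) * Real.cos (2 * Real.pi * (v / (2 * Real.pi * (17 / 20))) * (17 / 20 * y))) := by
    intro y
    have h3 : 2 * Real.pi * (v / (2 * Real.pi * (17 / 20))) * (17 / 20 * y) = v * y := by
      field_simp
    rw [h3]
    ring
  simp_rw [h2]
  rw [integral_const_mul, h1]
  have h4 : |((17 / 20 : ℝ))⁻¹| = 20 / 17 := by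
    rw [abs_of_pos (by norm_num)]
    norm_num
  rw [h4, smul_eq_mul]
  ring

theorem pos_def {h : ℝ → ℝ} (hc : Continuous h) (hs : HasCompactSupport h)
    (hb : ∀ y, h y ^ 2 ≤ 17 / 20 * sc (17 / 20 * y)) {ι : Type*} (s : Finset ι) (u : ι → ℝ) :
    ∑ i ∈ s, ∑ j ∈ s, ker (fun y => h y ^ 2) 0 (u i - u j) ≤
      ∑ i ∈ s, ∑ j ∈ s, Pool.Agent.Helper57.LS.tri ((u i - u j) / (2 * Real.pi * (17 / 20))) := by
  have hh2 : Integrable (fun y => h y ^ 2) := by
    have h0 : HasCompactSupport (h * h) := hs.mul_left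
    have h1 : (fun y => h y ^ 2) = h * h := by
      funext y
      rw [Pi.mul_apply, pow_two]
    rw [h1]
    exact (hc.mul hc).integrable_of_hasCompactSupport h0
  have hsc : Integrable (fun y : ℝ => 17 / 20 * sc (17 / 20 * y)) :=
    ((sc_integrable.comp_mul_left' (R := (17 / 20 : ℝ)) (by norm_num)).const_mul _)
  have hi : ∀ {g : ℝ → ℝ}, Integrable g → ∀ v : ℝ, Integrable (fun y => g y * Real.cos (v * y)) := by
    intro g hg v
    refine hg.mul_bdd (c := 1) ?_ ?_
    · exact (by fun_prop : Continuous fun y : ℝ => Real.cos (v * y)).aestronglyMeasurable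
    · exact Eventually.of_forall fun y => by
        rw [Real.norm_eq_abs]; exact Real.abs_cos_le_one _
  rw [← sub_nonneg, ← Finset.sum_sub_distrib]
  have h1 : ∀ i ∈ s, ((∑ j ∈ s, Pool.Agent.Helper57.LS.tri ((u i - u j) / (2 * Real.pi * (17 / 20)))) -
      ∑ j ∈ s, ker (fun y => h y ^ 2) 0 (u i - u j)) =
      ∫ y, ∑ j ∈ s, (17 / 20 * sc (17 / 20 * y) - h y ^ 2) * Real.cos ((u i - u j) * y) := by
    intro i _
    rw [← Finset.sum_sub_distrib, integral_finsetSum]
    · refine Finset.sum_congr rfl fun j _ => ?_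
      rw [pd_tri, pd_ker, ← integral_sub (hi hsc _) (hi hh2 _)]
      congr 1
      funext y
      ring
    · intro j _
      exact hi (hsc.sub hh2) _
  rw [Finset.sum_congr rfl h1, ← integral_finsetSum]
  · refine integral_nonneg fun y => ?_
    have h2 : ∑ i ∈ s, ∑ j ∈ s, (17 / 20 * sc (17 / 20 * y) - h y ^ 2) * Real.cos ((u i - u j) * y) =
        (17 / 20 * sc (17 / 20 * y) - h y ^ 2) *
          ((∑ i ∈ s, Real.cos (u i * y)) ^ 2 + (∑ i ∈ s, Real.sin (u i * y)) ^ 2) := by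
      rw [pow_two (∑ i ∈ s, Real.cos (u i * y)), pow_two (∑ i ∈ s, Real.sin (u i * y)), Finset.sum_mul_sum, Finset.sum_mul_sum,
        ← Finset.sum_add_distrib, Finset.mul_sum]
      refine Finset.sum_congr rfl fun i _ => ?_
      rw [← Finset.sum_add_distrib, Finset.mul_sum]
      refine Finset.sum_congr rfl fun j _ => ?_
      rw [sub_mul (u i), Real.cos_sub]
    show (0:ℝ) ≤ ∑ i ∈ s, ∑ j ∈ s, (17 / 20 * sc (17 / 20 * y) - h y ^ 2) * Real.cos ((u i - u j) * y)
    rw [h2]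
    exact mul_nonneg (by linarith [hb y]) (by positivity)
  · intro i _
    exact integrable_finsetSum _ fun j _ => hi (hsc.sub hh2) _

end Pool.Agent.Helper78.SG
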