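import Pool.Agent.Helper78.SG.Taylor

/-!
# SG-SU: the kernel as a superposition of the kernels `gs` of the library

`gs X v w = (2/X) ∫_0^X (1 - x/X) cosh(v x) cos(w x) dx` (`Pool.Agent.Helper57.LH.gs_eq`). With `X = L y` and `x = L z`:
`gs (L y) v w = (2/y) ∫_0^y (1 - z/y) cosh(L v z) cos(L w z) dz` for `y > 0`. Hence
`∫_0^{1/2} y² h''(y) gs(L y) v w dy = 2 ∫_0^{1/2} h''(y) A(y) dy` with `A(y) = ∫_0^y (y - z) G(z) dz`,
`G(z) = cosh (L v z) cos (L w z)`, and two integrations by parts (`A'' = G`) give `2 ∫_0^{1/2} h G`,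
which is `ker h (L v) (L w)` because the integrand is even and `h` vanishes for `|y| ≥ th`.
-/

open MeasureTheory Set Filter Topology
open Pool.Agent.Helper57.Zeta Pool.Agent.Helper57.PC Pool.Agent.Helper57.LH
open scoped ContDiff

namespace Pool.Agent.Helper78.SG

theorem TF.deriv_smooth (f : TF) : ContDiff ℝ ∞ (deriv f.h) := (contDiff_infty_iff_deriv.mp f.smooth).2

theorem TF.hasDerivAt (f : TF) (x : ℝ) : HasDerivAt f.h (deriv f.h x) x :=
  ((contDiff_infty_iff_deriv.mp f.smooth).1 x).hasDerivAt

theorem TF.hasDerivAt' (f : TF) (x : ℝ) : HasDerivAt (deriv f.h) (deriv (deriv f.h) x) x :=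
  ((contDiff_infty_iff_deriv.mp f.deriv_smooth).1 x).hasDerivAt

theorem TF.deriv2_continuous (f : TF) : Continuous (deriv (deriv f.h)) :=
  (contDiff_infty_iff_deriv.mp f.deriv_smooth).2.continuous

theorem TF.half (f : TF) : f.h (1 / 2) = 0 :=
  f.supp _ (by rw [abs_of_pos (by norm_num : (0:ℝ) < 1 / 2)]; exact f.th1.le)

theorem TF.deriv_half (f : TF) : deriv f.h (1 / 2) = 0 := by
  have h : f.h =ᶠ[𝓝 (1 / 2)] fun _ => 0 := by
    filter_upwards [Ioi_mem_nhds f.th1] with x hx
    exact f.supp x (le_trans (le_of_lt hx) (le_abs_self x))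
  rw [h.deriv_eq]
  simp

/-- integration by parts twice -/
theorem TF.parts (f : TF) {G : ℝ → ℝ} (hG : Continuous G) :
    ∫ y in (0:ℝ)..(1 / 2), deriv (deriv f.h) y * (∫ z in (0:ℝ)..y, (y - z) * G z)
      = ∫ y in (0:ℝ)..(1 / 2), f.h y * G y := by
  have hzG : Continuous fun z => z * G z := continuous_id.mul hG
  have hA : ∀ y : ℝ, (∫ z in (0:ℝ)..y, (y - z) * G z)
      = y * (∫ z in (0:ℝ)..y, G z) - ∫ z in (0:ℝ)..y, z * G z := by
    intro y
    have hyG : Continuous fun z => y * G z := continuous_const.mul hG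
    rw [← intervalIntegral.integral_const_mul, ← intervalIntegral.integral_sub
      (hyG.intervalIntegrable _ _) (hzG.intervalIntegrable _ _)]
    apply intervalIntegral.integral_congr
    intro z _
    simp only
    ring
  have hB : ∀ y : ℝ, HasDerivAt (fun y => ∫ z in (0:ℝ)..y, G z) (G y) y := fun y =>
    intervalIntegral.integral_hasDerivAt_right (hG.intervalIntegrable _ _)
      (hG.stronglyMeasurableAtFilter _ _) hG.continuousAt
  have hB' : ∀ y : ℝ, HasDerivAt (fun y => ∫ z in (0:ℝ)..y, z * G z) (y * G y) y := fun y =>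
    intervalIntegral.integral_hasDerivAt_right (hzG.intervalIntegrable _ _)
      (hzG.stronglyMeasurableAtFilter _ _) hzG.continuousAt
  have hAd : ∀ y : ℝ, HasDerivAt (fun y => ∫ z in (0:ℝ)..y, (y - z) * G z)
      (∫ z in (0:ℝ)..y, G z) y := by
    intro y
    have h1 := ((hasDerivAt_id y).mul (hB y)).sub (hB' y)
    refine (h1.congr_of_eventuallyEq (Filter.Eventually.of_forall fun x => ?_)).congr_deriv ?_
    · rw [hA x]; rfl
    · simp only [id]; ring
  have hBc : Continuous fun y => ∫ z in (0:ℝ)..y, G z :=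
    continuous_iff_continuousAt.mpr fun y => (hB y).continuousAt
  have h1 := intervalIntegral.integral_mul_deriv_eq_deriv_mul
    (a := (0:ℝ)) (b := 1 / 2)
    (u := fun y => ∫ z in (0:ℝ)..y, (y - z) * G z) (v := deriv f.h)
    (u' := fun y => ∫ z in (0:ℝ)..y, G z) (v' := deriv (deriv f.h))
    (fun y _ => hAd y) (fun y _ => f.hasDerivAt' y) (hBc.intervalIntegrable _ _)
    (f.deriv2_continuous.intervalIntegrable _ _)
  have h2 := intervalIntegral.integral_mul_deriv_eq_deriv_mul
    (a := (0:ℝ)) (b := 1 / 2)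
    (u := fun y => ∫ z in (0:ℝ)..y, G z) (v := f.h)
    (u' := G) (v' := deriv f.h)
    (fun y _ => hB y) (fun y _ => f.hasDerivAt y) (hG.intervalIntegrable _ _)
    (f.deriv_smooth.continuous.intervalIntegrable _ _)
  rw [f.deriv_half, mul_zero, intervalIntegral.integral_same, zero_mul] at h1
  rw [f.half, mul_zero, intervalIntegral.integral_same, zero_mul] at h2
  calc ∫ y in (0:ℝ)..(1 / 2), deriv (deriv f.h) y * (∫ z in (0:ℝ)..y, (y - z) * G z)
      = ∫ y in (0:ℝ)..(1 / 2), (∫ z in (0:ℝ)..y, (y - z) * G z) * deriv (deriv f.h) y := by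
        apply intervalIntegral.integral_congr
        intro y _
        exact mul_comm _ _
    _ = ∫ y in (0:ℝ)..(1 / 2), G y * f.h y := by rw [h1, h2]; ring
    _ = _ := by
        apply intervalIntegral.integral_congr
        intro y _
        exact mul_comm _ _

/-- the kernel as an integral over `[0, 1/2]` -/
theorem TF.ker_half (f : TF) (a u : ℝ) :
    ker f.h a u = 2 * ∫ y in (0:ℝ)..(1 / 2), f.h y * (Real.cosh (a * y) * Real.cos (u * y)) := by
  have hc : Continuous fun y => f.h y * (Real.cosh (a * y) * Real.cos (u * y)) :=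
    f.smooth.continuous.mul ((Real.continuous_cosh.comp (continuous_const.mul continuous_id)).mul
      (Real.continuous_cos.comp (continuous_const.mul continuous_id)))
  have h1 : ker f.h a u
      = ∫ y in (-(1 / 2):ℝ)..(1 / 2), f.h y * (Real.cosh (a * y) * Real.cos (u * y)) := by
    rw [ker]
    refine (intervalIntegral.integral_eq_integral_of_support_subset ?_).symm
    intro y hy
    rw [Function.mem_support] at hy
    have : |y| < 1 / 2 := by
      by_contra hcon
      apply hy
      rw [f.supp y (f.th1.le.trans (not_lt.mp hcon)), zero_mul]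
    rw [abs_lt] at this
    exact ⟨this.1, this.2.le⟩
  rw [h1, ← intervalIntegral.integral_add_adjacent_intervals (b := (0:ℝ))
    (hc.intervalIntegrable _ _) (hc.intervalIntegrable _ _)]
  have h2 : ∫ y in (-(1 / 2):ℝ)..0, f.h y * (Real.cosh (a * y) * Real.cos (u * y))
      = ∫ y in (0:ℝ)..(1 / 2), f.h y * (Real.cosh (a * y) * Real.cos (u * y)) := by
    have := intervalIntegral.integral_comp_neg (a := (0:ℝ)) (b := 1 / 2)
      (fun y => f.h y * (Real.cosh (a * y) * Real.cos (u * y)))
    rw [neg_zero] at this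
    rw [← this]
    apply intervalIntegral.integral_congr
    intro y _
    simp only [mul_neg, Real.cosh_neg, Real.cos_neg, f.even]
  rw [h2]; ring

theorem ker_super (f : TF) {L : ℝ} (hL : 0 < L) (v w : ℝ) :
    ker f.h (L * v) (L * w) = ∫ y in (0:ℝ)..(1 / 2), y ^ 2 * deriv (deriv f.h) y * gs (L * y) v w := by
  have hG : Continuous fun z : ℝ => Real.cosh (L * v * z) * Real.cos (L * w * z) :=
    (Real.continuous_cosh.comp (continuous_const.mul continuous_id)).mul
      (Real.continuous_cos.comp (continuous_const.mul continuous_id))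
  rw [f.ker_half, ← f.parts hG, ← intervalIntegral.integral_const_mul]
  apply intervalIntegral.integral_congr
  intro y hy
  rw [uIcc_of_le (by norm_num)] at hy
  simp only
  rcases hy.1.eq_or_lt with h0 | h0
  · rw [← h0]; simp
  · have hLy : L * y ≠ 0 := (mul_pos hL h0).ne'
    have e1 : ∫ x in (0:ℝ)..(L * y), (1 - x / (L * y)) * (Real.cosh (v * x) * Real.cos (w * x))
        = L * ∫ z in (0:ℝ)..y, (1 - z / y) * (Real.cosh (L * v * z) * Real.cos (L * w * z)) := by
      have := intervalIntegral.mul_integral_comp_mul_left (a := (0:ℝ)) (b := y)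
        (f := fun x => (1 - x / (L * y)) * (Real.cosh (v * x) * Real.cos (w * x))) L
      rw [mul_zero] at this
      rw [← this]
      congr 1
      apply intervalIntegral.integral_congr
      intro z _
      simp only
      rw [mul_div_mul_left _ _ hL.ne', show v * (L * z) = L * v * z by ring,
        show w * (L * z) = L * w * z by ring]
    have e2 : ∫ z in (0:ℝ)..y, (y - z) * (Real.cosh (L * v * z) * Real.cos (L * w * z))
        = y * ∫ z in (0:ℝ)..y, (1 - z / y) * (Real.cosh (L * v * z) * Real.cos (L * w * z)) := by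
      rw [← intervalIntegral.integral_const_mul]
      apply intervalIntegral.integral_congr
      intro z _
      simp only
      field_simp
    rw [gs_eq, e1, e2]
    generalize (∫ z in (0:ℝ)..y, (1 - z / y) * (Real.cosh (L * v * z) * Real.cos (L * w * z))) = J
    generalize deriv (deriv f.h) y = H
    field_simp

end Pool.Agent.Helper78.SG
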