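import Pool.Agent.Helper78.SG.Defs

/-!
# SG-TE: the test function

`h(y) = √(17/20) (1 - 1.19 y²) χ(y)`, `χ : ContDiffBump (0:ℝ)` with `rIn = 0.495`, `rOut = 0.499` (`0 ≤ χ ≤ 1`, `χ = 1` on `|y| ≤ 0.495`,
`χ = 0` for `|y| ≥ 0.499`; evenness: `ContDiffBump.neg`). Take `th = 0.499`.
Domination: for `|y| ≤ 1/2`, `v = π (17/20) |y| ≤ π/2`: `sin v ≥ v - v³/6` and `(π 17/20)²/6 ≤ 1.19` give
`0 ≤ 1 - 1.19 y² ≤ sin v/v`, so `h² ≤ (17/20) (sin v/v)² = (17/20) sc (17/20 y)` (`sc_eq`, `PC.sq`; `sc 0 = 1`: `sc_zero`); for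
`|y| > 1/2` `h = 0` (`sc_nonneg`).
Value: with `θ = 0.495`, `kap0 ≥ (17/20)(1 + 2 ∫_0^θ y (1 - 1.19 y²)² dy) = (17/20)(1 + θ² - 1.19 θ⁴ + 1.19² θ⁶/3) = 1.0034...`.
-/

open MeasureTheory Set Filter Topology
open Pool.Agent.Helper57.Zeta Pool.Agent.Helper57.PC Pool.Agent.Helper57.LH
open scoped ContDiff

namespace Pool.Agent.Helper78.SG

namespace Te

/-- The cutoff. -/
noncomputable def chi : ContDiffBump (0 : ℝ) where
  rIn := 495 / 1000
  rOut := 499 / 1000
  rIn_pos := by norm_num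
  rIn_lt_rOut := by norm_num

/-- The test function. -/
noncomputable def hh (y : ℝ) : ℝ := √(17 / 20) * ((1 - 119 / 100 * y ^ 2) * chi y)

theorem chi_one {y : ℝ} (hy : |y| ≤ 495 / 1000) : chi y = 1 := by
  apply chi.one_of_mem_closedBall
  simpa [chi] using hy

theorem chi_zero {y : ℝ} (hy : 499 / 1000 ≤ |y|) : chi y = 0 := by
  apply chi.zero_of_le_dist
  simpa [chi] using hy

theorem chi_neg (y : ℝ) : chi (-y) = chi y := chi.neg y

theorem chi_smooth : ContDiff ℝ ∞ (chi : ℝ → ℝ) := chi.contDiff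

theorem hh_smooth : ContDiff ℝ ∞ hh := by
  unfold hh
  exact contDiff_const.mul ((contDiff_const.sub (contDiff_const.mul (contDiff_id.pow 2))).mul chi_smooth)

theorem hh_even (y : ℝ) : hh (-y) = hh y := by
  unfold hh
  rw [chi_neg, neg_sq]

theorem hh_supp (y : ℝ) (hy : 499 / 1000 ≤ |y|) : hh y = 0 := by
  unfold hh
  rw [chi_zero hy, mul_zero, mul_zero]

/-- The test function as an element of `TF`. -/
noncomputable def ff : TF where
  h := hh
  th := 499 / 1000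
  smooth := hh_smooth
  even := hh_even
  th0 := by norm_num
  th1 := by norm_num
  supp := hh_supp

theorem hh_sq (y : ℝ) : hh y ^ 2 = 17 / 20 * ((1 - 119 / 100 * y ^ 2) ^ 2 * chi y ^ 2) := by
  unfold hh
  rw [mul_pow, Real.sq_sqrt (by norm_num), mul_pow]

theorem dom (y : ℝ) : hh y ^ 2 ≤ 17 / 20 * sc (17 / 20 * y) := by
  by_cases hy : 499 / 1000 ≤ |y|
  · rw [hh_supp y hy]
    have := sc_nonneg (17 / 20 * y)
    nlinarith
  push Not at hy
  rw [hh_sq]
  apply mul_le_mul_of_nonneg_left _ (by norm_num : (0 : ℝ) ≤ 17 / 20)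
  have hc0 := chi.nonneg (x := y)
  have hc1 := chi.le_one (x := y)
  have hy2 : y ^ 2 ≤ 1 / 4 := by
    rw [← sq_abs]
    have := abs_nonneg y
    nlinarith
  have ha0 : 0 ≤ 1 - 119 / 100 * y ^ 2 := by linarith
  have h1 : (1 - 119 / 100 * y ^ 2) ^ 2 * chi y ^ 2 ≤ (1 - 119 / 100 * y ^ 2) ^ 2 := by
    have : chi y ^ 2 ≤ 1 := pow_le_one₀ hc0 hc1
    nlinarith [sq_nonneg (1 - 119 / 100 * y ^ 2)]
  refine h1.trans ?_
  by_cases h0 : y = 0
  · rw [h0, mul_zero, sc_zero]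
    norm_num
  rw [sc_eq (mul_ne_zero (by norm_num) h0)]
  unfold Pool.Agent.Helper57.PC.sq
  apply pow_le_pow_left₀ ha0
  -- reduce to positive y
  have key : ∀ x : ℝ, 0 < x → x ≤ 1 / 2 →
      1 - 119 / 100 * x ^ 2 ≤ Real.sin (Real.pi * (17 / 20 * x)) / (Real.pi * (17 / 20 * x)) := by
    intro x hx hx2
    have hpi := Real.pi_pos
    have hpi2 := Real.pi_lt_d2
    set v : ℝ := Real.pi * (17 / 20 * x) with hv
    have hv0 : 0 < v := by positivity
    rw [le_div_iff₀ hv0]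
    have hs : v - v ^ 3 / 6 ≤ Real.sin v := by
      have := Real.sin_ge_sub_cube hv0.le
      linarith
    refine le_trans ?_ hs
    have h3 : v ^ 2 ≤ 6 * (119 / 100 * x ^ 2) := by
      rw [hv]
      have h4 : Real.pi ^ 2 ≤ 9.87 := by nlinarith [Real.pi_lt_d4]
      have h5 : 0 ≤ x ^ 2 := sq_nonneg x
      nlinarith
    nlinarith
  rcases lt_or_gt_of_ne h0 with hneg | hpos
  · have h2 := key (-y) (by linarith) (by
      have := (abs_lt.1 hy).1
      linarith)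
    rw [neg_sq] at h2
    have h3 : Real.pi * (17 / 20 * -y) = -(Real.pi * (17 / 20 * y)) := by ring
    rw [h3, Real.sin_neg, neg_div_neg_eq] at h2
    exact h2
  · exact key y hpos (by
      have := (abs_lt.1 hy).2
      linarith)

theorem hcont : Continuous hh := hh_smooth.continuous

theorem val : 1 < kap0 hh := by
  unfold kap0
  have h0 : hh 0 ^ 2 = 17 / 20 := by
    rw [hh_sq, chi_one (by norm_num)]
    norm_num
  have hint : ∀ a b : ℝ, IntervalIntegrable (fun y => y * hh y ^ 2) volume a b := fun a b =>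
    (continuous_id.mul (hcont.pow 2)).intervalIntegrable a b
  have h1 : ∫ y in (0:ℝ)..(1 / 2), y * hh y ^ 2 =
      (∫ y in (0:ℝ)..(495 / 1000), y * hh y ^ 2) + ∫ y in (495 / 1000:ℝ)..(1 / 2), y * hh y ^ 2 :=
    (intervalIntegral.integral_add_adjacent_intervals (hint _ _) (hint _ _)).symm
  have h2 : 0 ≤ ∫ y in (495 / 1000:ℝ)..(1 / 2), y * hh y ^ 2 := by
    apply intervalIntegral.integral_nonneg (by norm_num)
    intro y hy
    have : 0 ≤ y := by linarith [hy.1]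
    positivity
  have h3 : ∫ y in (0:ℝ)..(495 / 1000), y * hh y ^ 2 =
      ∫ y in (0:ℝ)..(495 / 1000), 17 / 20 * (y * (1 - 119 / 100 * y ^ 2) ^ 2) := by
    apply intervalIntegral.integral_congr
    intro y hy
    rw [uIcc_of_le (by norm_num)] at hy
    have hc : chi y = 1 := chi_one (by rw [abs_of_nonneg hy.1]; exact hy.2)
    simp only
    rw [hh_sq, hc]
    ring
  have h4 : ∫ y in (0:ℝ)..(495 / 1000), 17 / 20 * (y * (1 - 119 / 100 * y ^ 2) ^ 2) =
      17 / 20 * ((495 / 1000 : ℝ) ^ 2 / 2 - 119 / 100 * (495 / 1000 : ℝ) ^ 4 / 2 +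
        (119 / 100) ^ 2 * (495 / 1000 : ℝ) ^ 6 / 6) := by
    have hd : ∀ y ∈ uIcc (0:ℝ) (495 / 1000), HasDerivAt
        (fun y : ℝ => 17 / 20 * (y ^ 2 / 2 - 119 / 100 * y ^ 4 / 2 + (119 / 100) ^ 2 * y ^ 6 / 6))
        (17 / 20 * (y * (1 - 119 / 100 * y ^ 2) ^ 2)) y := by
      intro y _
      have d2 := (hasDerivAt_pow 2 y)
      have d4 := (hasDerivAt_pow 4 y)
      have d6 := (hasDerivAt_pow 6 y)
      have := (((d2.div_const 2).sub ((d4.const_mul (119 / 100)).div_const 2)).add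
        ((d6.const_mul ((119 / 100) ^ 2)).div_const 6)).const_mul (17 / 20)
      refine this.congr_deriv ?_
      norm_num
      ring
    rw [intervalIntegral.integral_eq_sub_of_hasDerivAt hd
      ((by fun_prop : Continuous fun y : ℝ => 17 / 20 * (y * (1 - 119 / 100 * y ^ 2) ^ 2)).intervalIntegrable _ _)]
    norm_num
  rw [h0, h1, h3, h4]
  norm_num at h2 ⊢
  nlinarith

end Te

theorem exists_test : ∃ f : TF, (∀ y, f.h y ^ 2 ≤ 17 / 20 * sc (17 / 20 * y)) ∧ 1 < kap0 f.h :=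
  ⟨Te.ff, Te.dom, Te.val⟩

end Pool.Agent.Helper78.SG
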